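import Pool.Agent.MP_d3be90_lc.SBase

set_option autoImplicit false

open Finset
open scoped Classical

namespace Pool.Agent.MP_d3be90_lc

variable {V : Type}

lemma sball_pow (a : ℕ → ℝ) (sa : ℝ) (ha0 : ∀ k, 0 ≤ a k) (ha : Monotone a) (M : ℕ) :
    (5 / 4 : ℝ) ^ ((range M).filter fun k => (a k + sa) / 4 < a (k + 1) - a k).card * sa ≤
      a M + sa := by
  induction M with
  | zero => simpa using ha0 0
  | succ M ih =>
    have hm : a M ≤ a (M + 1) := ha (Nat.le_succ M)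
    rw [range_add_one, filter_insert]
    split_ifs with h
    · rw [card_insert_of_notMem (by simp), pow_succ]
      nlinarith
    · linarith

lemma sball_card (lam n : ℕ) (hn : n < 2 ^ lam) (a : ℕ → ℝ) (sa : ℝ)
    (ha0 : ∀ k, 0 ≤ a k) (ha : Monotone a) (haT : ∀ k, a k ≤ n * sa) (hsa : 0 ≤ sa) (M : ℕ) :
    ((range M).filter fun k => (a k + sa) / 4 < a (k + 1) - a k).card ≤ 4 * lam := by
  rcases hsa.eq_or_lt with h0 | hpos
  · have hz : ∀ k, a k = 0 := fun k => le_antisymm (by simpa [← h0] using haT k) (ha0 k)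
    rw [filter_false_of_mem]
    · simp
    · intro k _
      rw [hz, hz, ← h0]
      norm_num
  · have h1 := sball_pow a sa ha0 ha M
    have h2 := haT M
    have h3 : (n : ℝ) + 1 ≤ 2 ^ lam := by exact_mod_cast hn
    have h4 : (2 : ℝ) ^ lam ≤ (5 / 4 : ℝ) ^ (4 * lam) := by
      rw [pow_mul]
      exact pow_le_pow_left₀ (by norm_num) (by norm_num) _
    have h5 : (5 / 4 : ℝ) ^ ((range M).filter fun k =>
        (a k + sa) / 4 < a (k + 1) - a k).card ≤ (5 / 4 : ℝ) ^ (4 * lam) := by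
      refine le_of_mul_le_mul_right ?_ hpos
      nlinarith
    exact (pow_le_pow_iff_right₀ (by norm_num)).1 h5

theorem exists_good_index (lam n : ℕ) (hn : n < 2 ^ lam) (a b : ℕ → ℝ) (sa sb : ℝ)
    (ha0 : ∀ k, 0 ≤ a k) (ha : Monotone a) (haT : ∀ k, a k ≤ n * sa) (hsa : 0 ≤ sa)
    (hb0 : ∀ k, 0 ≤ b k) (hb : Monotone b) (hbT : ∀ k, b k ≤ n * sb) (hsb : 0 ≤ sb) :
    ∃ k ≤ 8 * lam, a (k + 1) - a k ≤ (a k + sa) / 4 ∧ b (k + 1) - b k ≤ (b k + sb) / 4 := by
  by_contra hcon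
  push Not at hcon
  have h1 := sball_card lam n hn a sa ha0 ha haT hsa (8 * lam + 1)
  have h2 := sball_card lam n hn b sb hb0 hb hbT hsb (8 * lam + 1)
  have h3 : range (8 * lam + 1) ⊆
      ((range (8 * lam + 1)).filter fun k => (a k + sa) / 4 < a (k + 1) - a k) ∪
        ((range (8 * lam + 1)).filter fun k => (b k + sb) / 4 < b (k + 1) - b k) := by
    intro k hk
    have hk' : k ≤ 8 * lam := by have := mem_range.1 hk; omega
    by_cases h : a (k + 1) - a k ≤ (a k + sa) / 4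
    · exact mem_union_right _ (mem_filter.2 ⟨hk, hcon k hk' h⟩)
    · exact mem_union_left _ (mem_filter.2 ⟨hk, not_le.1 h⟩)
  have h4 := (card_le_card h3).trans (card_union_le _ _)
  rw [card_range] at h4
  omega

/-- the ball of radius `r` around `f` inside `Y` -/
noncomputable def sball (G : SimpleGraph V) (l : V → V → ℕ) (Y : Finset V) (f : V) (r : ℕ) :
    Finset V := Y.filter fun z => Reach G l Y f z r

lemma mem_sball {G : SimpleGraph V} {l : V → V → ℕ} {Y : Finset V} {f z : V} {r : ℕ} :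
    z ∈ sball G l Y f r ↔ Reach G l Y f z r :=
  mem_filter.trans ⟨And.right, fun h => ⟨h.last, h⟩⟩

lemma sball_sub {G : SimpleGraph V} {l : V → V → ℕ} {Y : Finset V} {f : V} {r : ℕ} :
    sball G l Y f r ⊆ Y := filter_subset _ _

lemma sball_mono {G : SimpleGraph V} {l : V → V → ℕ} {Y : Finset V} {f : V} {r r' : ℕ}
    (h : r ≤ r') : sball G l Y f r ⊆ sball G l Y f r' :=
  fun _ hz => mem_sball.2 ((mem_sball.1 hz).mono h)

lemma sball_vol_eq (c : V → V → ℝ) (l : V → V → ℕ) {Y B : Finset V} (hB : B ⊆ Y) :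
    vol c l B = ∑ x ∈ Y, ∑ y ∈ Y, (if x ∈ B ∧ y ∈ B then c x y * (l x y : ℝ) else 0) := by
  unfold vol
  rw [← sum_subset hB (fun x _ hx => sum_eq_zero fun y _ => by simp [hx])]
  refine sum_congr rfl fun x hx => ?_
  rw [← sum_subset hB (fun y _ hy => by simp [hy])]
  exact sum_congr rfl fun y hy => by simp [hx, hy]

lemma sball_cut_eq (g : V → V → ℝ) {Y B : Finset V} (hB : B ⊆ Y) :
    ∑ x ∈ B, ∑ y ∈ Y \ B, g x y = ∑ x ∈ Y, ∑ y ∈ Y, (if x ∈ B ∧ y ∉ B then g x y else 0) := by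
  rw [← sum_subset hB (fun x _ hx => sum_eq_zero fun y _ => by simp [hx])]
  refine sum_congr rfl fun x hx => ?_
  rw [← sum_subset (sdiff_subset (s := Y) (t := B)) (fun y hy hy' => by
    have : y ∈ B := by
      by_contra h
      exact hy' (mem_sdiff.2 ⟨hy, h⟩)
    simp [this])]
  exact sum_congr rfl fun y hy => by simp [hx, (mem_sdiff.1 hy).2]

lemma sball_point {G : SimpleGraph V} {c ρ : V → V → ℝ} {l : V → V → ℕ} (hN : Net G c l ρ)
    (Y : Finset V) (f : V) (lo s : ℕ) (x y : V) (hy : y ∈ Y) :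
    ∑ r ∈ Ico lo (lo + s), (if x ∈ sball G l Y f r ∧ y ∉ sball G l Y f r then
        (if l x y < s then c x y else 0) else 0) ≤
      (if x ∈ sball G l Y f (lo + 2 * s) ∧ y ∈ sball G l Y f (lo + 2 * s) then
        c x y * (l x y : ℝ) else 0) -
      (if x ∈ sball G l Y f lo ∧ y ∈ sball G l Y f lo then c x y * (l x y : ℝ) else 0) := by
  have hc := hN.c_nonneg x y
  have hcl : 0 ≤ c x y * (l x y : ℝ) := mul_nonneg hc (Nat.cast_nonneg _)
  have hnn : 0 ≤ (if x ∈ sball G l Y f (lo + 2 * s) ∧ y ∈ sball G l Y f (lo + 2 * s) then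
        c x y * (l x y : ℝ) else 0) -
      (if x ∈ sball G l Y f lo ∧ y ∈ sball G l Y f lo then c x y * (l x y : ℝ) else 0) := by
    by_cases h : x ∈ sball G l Y f lo ∧ y ∈ sball G l Y f lo
    · rw [if_pos h, if_pos ⟨sball_mono (by omega) h.1, sball_mono (by omega) h.2⟩]
      simp
    · rw [if_neg h]
      split_ifs <;> simp [hcl]
  by_cases hc0 : c x y = 0
  · refine le_trans (le_of_eq (sum_eq_zero fun r _ => ?_)) hnn
    simp [hc0]
  by_cases hl : ¬ l x y < s
  · refine le_trans (le_of_eq (sum_eq_zero fun r _ => ?_)) hnn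
    simp [hl]
  rw [not_not] at hl
  have hadj := hN.c_adj x y hc0
  rw [← sum_filter, sum_const, if_pos hl, nsmul_eq_mul]
  set R := (Ico lo (lo + s)).filter fun r => x ∈ sball G l Y f r ∧ y ∉ sball G l Y f r with hR
  rcases R.eq_empty_or_nonempty with he | hne
  · rw [he]
    simpa using hnn
  have hmin := mem_filter.1 (R.min'_mem hne)
  set r1 := R.min' hne with hr1
  have hI := mem_Ico.1 hmin.1
  have hyb : y ∈ sball G l Y f (r1 + l x y) :=
    mem_sball.2 (Reach.step (mem_sball.1 hmin.2.1) hadj hy)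
  have hsub : R ⊆ Ico r1 (r1 + l x y) := by
    intro r hr
    refine mem_Ico.2 ⟨R.min'_le r hr, ?_⟩
    by_contra h
    exact (mem_filter.1 hr).2.2 (sball_mono (not_lt.1 h) hyb)
  have hcard : (R.card : ℝ) ≤ l x y := by
    have := card_le_card hsub
    rw [Nat.card_Ico] at this
    exact_mod_cast (by omega : R.card ≤ l x y)
  rw [if_pos ⟨sball_mono (by omega) hmin.2.1, sball_mono (by omega) hyb⟩,
    if_neg (fun h => hmin.2.2 (sball_mono hI.1 h.2))]
  nlinarith

lemma sball_cut {G : SimpleGraph V} {c ρ : V → V → ℝ} {l : V → V → ℕ} (hN : Net G c l ρ)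
    (Y : Finset V) (f : V) (lo s : ℕ) (hs : 1 ≤ s) :
    ∃ r, lo ≤ r ∧ r < lo + s ∧
      (s : ℝ) * ∑ x ∈ sball G l Y f r, ∑ y ∈ Y \ sball G l Y f r,
        (if l x y < s then c x y else 0) ≤
      vol c l (sball G l Y f (lo + 2 * s)) - vol c l (sball G l Y f lo) := by
  have key : ∑ r ∈ Ico lo (lo + s), ∑ x ∈ sball G l Y f r, ∑ y ∈ Y \ sball G l Y f r,
        (if l x y < s then c x y else 0) ≤
      vol c l (sball G l Y f (lo + 2 * s)) - vol c l (sball G l Y f lo) := by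
    rw [sball_vol_eq c l (sball_sub (r := lo + 2 * s)), sball_vol_eq c l (sball_sub (r := lo)),
      ← sum_sub_distrib, sum_congr rfl fun r _ => sball_cut_eq _ (sball_sub (r := r)), sum_comm]
    refine sum_le_sum fun x _ => ?_
    rw [← sum_sub_distrib, sum_comm]
    exact sum_le_sum fun y hy => sball_point hN Y f lo s x y hy
  have hne : (Ico lo (lo + s)).Nonempty := ⟨lo, mem_Ico.2 ⟨le_rfl, by omega⟩⟩
  obtain ⟨r, hr, h⟩ := exists_le_of_sum_le (s := Ico lo (lo + s))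
    (f := fun r => (s : ℝ) * ∑ x ∈ sball G l Y f r, ∑ y ∈ Y \ sball G l Y f r,
        (if l x y < s then c x y else 0))
    (g := fun _ => vol c l (sball G l Y f (lo + 2 * s)) - vol c l (sball G l Y f lo)) hne (by
      rw [← mul_sum, sum_const, Nat.card_Ico, nsmul_eq_mul, Nat.add_sub_cancel_left]
      exact mul_le_mul_of_nonneg_left key (Nat.cast_nonneg _))
  exact ⟨r, (mem_Ico.1 hr).1, (mem_Ico.1 hr).2, h⟩

theorem exists_ball {G : SimpleGraph V} {c ρ : V → V → ℝ} {l : V → V → ℕ} (hN : Net G c l ρ)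
    (lam n s : ℕ) (hlam : 1 ≤ lam) (hn : n < 2 ^ lam) (hs : 1 ≤ s)
    (Y : Finset V) (f : V) (hf : f ∈ Y) (J : Finset V) (O : V → Finset V) (w : V → ℝ)
    (hw : ∀ v, 0 ≤ w v) (hO : ∀ v ∈ J, O v ⊆ Y ∧ ∀ a ∈ O v, ∀ b ∈ O v, Reach G l (O v) a b s)
    (sV sW : ℝ) (hsV : 0 ≤ sV) (hsW : 0 ≤ sW) (hV : vol c l Y ≤ n * sV)
    (hW : ∑ v ∈ J, w v ≤ n * sW) :
    ∃ B ⊆ Y, Rad G l B f (18 * lam * s) ∧
      (s : ℝ) * ∑ x ∈ B, ∑ y ∈ Y \ B, (if l x y < s then c x y else 0) ≤ (vol c l B + sV) / 4 ∧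
      ∑ v ∈ J.filter (fun v => ¬ Disjoint (O v) B ∧ ¬ O v ⊆ B), w v ≤
        (∑ v ∈ J.filter (fun v => ¬ Disjoint (O v) B ∧ O v ⊆ B), w v + sW) / 4 := by
  have hc := hN.c_nonneg
  have htouch : ∀ {r r' : ℕ}, r ≤ r' →
      J.filter (fun v => ¬ Disjoint (O v) (sball G l Y f r)) ⊆
        J.filter (fun v => ¬ Disjoint (O v) (sball G l Y f r')) := by
    intro r r' h v hv
    exact mem_filter.2 ⟨(mem_filter.1 hv).1, fun hd =>
      (mem_filter.1 hv).2 (hd.mono_right (sball_mono h))⟩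
  obtain ⟨k, hk, h1, h2⟩ := exists_good_index lam n hn
    (fun k => vol c l (sball G l Y f (2 * k * s + s)))
    (fun k => ∑ v ∈ J.filter (fun v => ¬ Disjoint (O v) (sball G l Y f (2 * k * s))), w v) sV sW
    (fun k => vol_nonneg hc _)
    (fun k k' h => vol_mono hc (sball_mono (by
      have := Nat.mul_le_mul_right s (Nat.mul_le_mul_left 2 h); omega)))
    (fun k => (vol_mono hc sball_sub).trans hV) hsV
    (fun k => sum_nonneg fun v _ => hw v)
    (fun k k' h => sum_le_sum_of_subset_of_nonneg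
      (htouch (Nat.mul_le_mul_right s (Nat.mul_le_mul_left 2 h))) fun v _ _ => hw v)
    (fun k => (sum_le_sum_of_subset_of_nonneg (filter_subset _ _) fun v _ _ => hw v).trans hW) hsW
  obtain ⟨r, hr1, hr2, h3⟩ := sball_cut hN Y f (2 * k * s + s) s hs
  have e1 : 2 * (k + 1) * s + s = 2 * k * s + s + 2 * s := by ring
  have e2 : 2 * (k + 1) * s = 2 * k * s + s + s := by ring
  rw [e1] at h1
  rw [e2] at h2
  refine ⟨sball G l Y f r, sball_sub, ⟨mem_sball.2 (Reach.base _ hf), r, ?_, fun x hx =>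
    (mem_sball.1 hx).inBall le_rfl⟩, ?_, ?_⟩
  · have a1 : 2 * k * s ≤ 16 * lam * s := Nat.mul_le_mul_right s (by omega)
    have a2 : 2 * s ≤ 2 * lam * s := Nat.mul_le_mul_right s (by omega)
    have a3 : 18 * lam * s = 16 * lam * s + 2 * lam * s := by ring
    omega
  · have := vol_mono (l := l) hc (sball_mono (G := G) (l := l) (Y := Y) (f := f) hr1)
    linarith
  · have b1 : ∑ v ∈ J.filter (fun v => ¬ Disjoint (O v) (sball G l Y f (2 * k * s))), w v ≤
        ∑ v ∈ J.filter (fun v => ¬ Disjoint (O v) (sball G l Y f r) ∧ O v ⊆ sball G l Y f r),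
          w v := by
      refine sum_le_sum_of_subset_of_nonneg (fun v hv => ?_) fun v _ _ => hw v
      obtain ⟨hvJ, hd⟩ := mem_filter.1 hv
      refine mem_filter.2 ⟨hvJ, fun hd' => hd (hd'.mono_right (sball_mono (by omega))),
        fun z hz => ?_⟩
      obtain ⟨u, hu, hu'⟩ := not_disjoint_iff.1 hd
      exact mem_sball.2 (((mem_sball.1 hu').trans
        (((hO v hvJ).2 u hu z hz).monoS (hO v hvJ).1)).mono hr1)
    have b2 : ∑ v ∈ J.filter (fun v => ¬ Disjoint (O v) (sball G l Y f r)), w v ≤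
        ∑ v ∈ J.filter (fun v => ¬ Disjoint (O v) (sball G l Y f (2 * k * s + s + s))), w v :=
      sum_le_sum_of_subset_of_nonneg (htouch hr2.le) fun v _ _ => hw v
    have b3 := sum_filter_add_sum_filter_not
      (J.filter (fun v => ¬ Disjoint (O v) (sball G l Y f r))) (fun v => O v ⊆ sball G l Y f r) w
    rw [filter_filter, filter_filter] at b3
    linarith

end Pool.Agent.MP_d3be90_lc
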