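import Pool.Agent.MP_d3be90_lc.SWalk

set_option autoImplicit false

open Finset
open scoped Classical

namespace Pool.Agent.MP_d3be90_lc

variable {V : Type}

/-- `S` induces a connected (possibly empty) subgraph -/
def Conn (G : SimpleGraph V) (S : Finset V) : Prop := ∀ a ∈ S, ∀ b ∈ S, WkM G.Adj S a b

/-- some edge joins `A` and `B` -/
def Touch (G : SimpleGraph V) (A B : Finset V) : Prop := ∃ x ∈ A, ∃ y ∈ B, G.Adj x y

/-- `G` has a complete minor on `t` vertices -/
def KMinor (G : SimpleGraph V) (t : ℕ) : Prop :=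
  ∃ B : Fin t → Finset V, (∀ i, (B i).Nonempty) ∧ (∀ i, Conn G (B i)) ∧
    ∀ i j, i ≠ j → Disjoint (B i) (B j) ∧ Touch G (B i) (B j)

/-- there is a walk inside `S` from `a` to the given vertex of length at most the given number -/
inductive Reach (G : SimpleGraph V) (l : V → V → ℕ) (S : Finset V) (a : V) : V → ℕ → Prop
  | base (r : ℕ) : a ∈ S → Reach G l S a a r
  | step {x y : V} {r : ℕ} : Reach G l S a x r → G.Adj x y → y ∈ S → Reach G l S a y (r + l x y)

/-- `S` has strong radius less than `R` around `a` -/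
def Rad (G : SimpleGraph V) (l : V → V → ℕ) (S : Finset V) (a : V) (R : ℕ) : Prop :=
  a ∈ S ∧ ∃ r < R, ∀ x ∈ S, Reach G l S a x r

/-- capacities `c`, integer lengths `l`, and a pseudometric `ρ` dominated by the lengths -/
structure Net (G : SimpleGraph V) (c : V → V → ℝ) (l : V → V → ℕ) (ρ : V → V → ℝ) : Prop where
  c_nonneg : ∀ x y, 0 ≤ c x y
  c_symm : ∀ x y, c x y = c y x
  c_adj : ∀ x y, c x y ≠ 0 → G.Adj x y
  l_symm : ∀ x y, l x y = l y x
  ρ_self : ∀ x, ρ x x = 0
  ρ_symm : ∀ x y, ρ x y = ρ y x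
  ρ_tri : ∀ x y z, ρ x z ≤ ρ x y + ρ y z
  ρ_le : ∀ x y, G.Adj x y → ρ x y ≤ l x y

/-- volume of `S` (ordered pairs) -/
noncomputable def vol (c : V → V → ℝ) (l : V → V → ℕ) (S : Finset V) : ℝ :=
  ∑ x ∈ S, ∑ y ∈ S, c x y * (l x y : ℝ)

/-- volume with real lengths -/
noncomputable def volR (c len : V → V → ℝ) (S : Finset V) : ℝ :=
  ∑ x ∈ S, ∑ y ∈ S, c x y * len x y

/-- the class of `x` in `S` -/
noncomputable def cls (S : Finset V) (ctr : V → V) (x : V) : Finset V :=
  S.filter fun y => ctr y = ctr x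

/-- a partition of `C` into connected, light and cheap units, with a rank function leading to hubs -/
structure Units (G : SimpleGraph V) (c ρ : V → V → ℝ) (W C : Finset V) (τ : ℝ) (u0 r : ℕ)
    (ctr : V → V) (rk : V → ℕ) (Hub : Finset V) : Prop where
  mem : ∀ x ∈ C, ctr x ∈ C
  idem : ∀ x ∈ C, ctr (ctr x) = ctr x
  conn : ∀ x ∈ C, Conn G (cls C ctr x)
  light : ∀ x ∈ C, 2 * (cls C ctr x).card ≤ u0
  cheap : ∀ x ∈ C, ∑ y ∈ cls C ctr x, ∑ z ∈ W \ cls C ctr x, c y z * ρ y (ctr y) ≤ τ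
  rk_lt : ∀ x ∈ C, rk (ctr x) < r
  hub : ∀ x ∈ C, ctr x ∈ Hub ∨
    ∃ x' ∈ C, ∃ y ∈ C, ctr x' = ctr x ∧ G.Adj x' y ∧ rk (ctr y) < rk (ctr x)

/-- `y` is within `D` edges of `A` -/
def Near [Fintype V] (Q : SimpleGraph V) (A : Finset V) (D : ℕ) (y : V) : Prop :=
  ∃ a ∈ A, Reach Q (fun _ _ => 1) univ a y D

/-- the tree-or-separator alternative in `W`, with at most `q` cheap light units -/
def Cover (G : SimpleGraph V) (c ρ : V → V → ℝ) (W : Finset V) (τ : ℝ) (u0 q t : ℕ) : Prop :=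
  ∀ (I : Finset (Fin t)) (A : Fin t → Finset V), (∀ i ∈ I, A i ⊆ W) →
    ∃ (M : Finset V) (ctr : V → V), M ⊆ W ∧ (∀ x ∈ W, ∀ y ∈ M, ctr x = ctr y → x ∈ M) ∧
      (∀ y ∈ M, 2 * (cls W ctr y).card ≤ u0) ∧ (M.image ctr).card ≤ q ∧
      ∑ y ∈ M, ∑ x ∈ W, (if ctr x = ctr y then 0 else c y x * ρ y (ctr y)) ≤ q * τ ∧
      ((M.Nonempty ∧ Conn G M ∧ ∀ i ∈ I, ¬ Disjoint M (A i)) ∨
        ∀ S ⊆ W \ M, S.Nonempty → Conn G S → ∃ i ∈ I, Disjoint S (A i))

/-- a balanced partition of `U` with at most `p` portals and extra cost at most `δ` -/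
def Sep (c len ρ : V → V → ℝ) (U : Finset V) (p : ℕ) (δ : ℝ) : Prop :=
  ∃ (lab : V → Finset V) (P : Finset V) (π : V → V → V), P.card ≤ p ∧
    (∀ y ∈ U, y ∈ lab y ∧ 2 * (lab y).card ≤ U.card) ∧
    (∀ u ∈ U, ∀ v ∈ U, lab u ≠ lab v → c u v ≠ 0 → π u v ∈ P) ∧
    ∑ u ∈ U, ∑ v ∈ U, (if lab u = lab v then 0 else c u v * (ρ u (π u v) + ρ (π u v) v)) ≤
      ∑ u ∈ U, ∑ v ∈ U, (if lab u = lab v then 0 else c u v * len u v) + δ

/-- a level `k` Sherali-Adams solution -/
structure SA (k : ℕ) (μ : Finset V → Finset V → ℝ) : Prop where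
  nonneg : ∀ S : Finset V, S.card ≤ k → ∀ A ∈ S.powerset, 0 ≤ μ S A
  total : ∀ S : Finset V, S.card ≤ k → ∑ A ∈ S.powerset, μ S A = 1
  cons : ∀ S T : Finset V, S ⊆ T → T.card ≤ k → ∀ B ∈ S.powerset,
    μ S B = ∑ A ∈ T.powerset, (if A ∩ S = B then μ T A else 0)

/-- the Sherali-Adams distance -/
noncomputable def dSA (μ : Finset V → Finset V → ℝ) (u v : V) : ℝ :=
  ∑ A ∈ ({u, v} : Finset V).powerset, (if (u ∈ A ↔ v ∈ A) then 0 else μ ({u, v} : Finset V) A)

/-- the weight of the event: trace `σ` on `Q`, and `u` is chosen -/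
noncomputable def mSA (μ : Finset V → Finset V → ℝ) (Q σ : Finset V) (u : V) : ℝ :=
  ∑ A ∈ (insert u Q).powerset, (if A ∩ Q = σ ∧ u ∈ A then μ (insert u Q) A else 0)

/-- a probability distribution on cuts -/
def IsDist [Fintype V] (w : Finset V → ℝ) : Prop := (∀ A, 0 ≤ w A) ∧ ∑ A, w A = 1

/-- probability that `u` is chosen -/
noncomputable def prI [Fintype V] (w : Finset V → ℝ) (u : V) : ℝ :=
  ∑ A, (if u ∈ A then w A else 0)

/-- probability that `u` and `v` are separated -/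
noncomputable def prS [Fintype V] (w : Finset V → ℝ) (u v : V) : ℝ :=
  ∑ A, (if (u ∈ A ↔ v ∈ A) then 0 else w A)

/-- weight of the ordered pairs separated by `A` -/
noncomputable def cutW [Fintype V] (c : V → V → ℝ) (A : Finset V) : ℝ :=
  ∑ u, ∑ v, (if (u ∈ A ↔ v ∈ A) then 0 else c u v)

section API

variable {G : SimpleGraph V} {l : V → V → ℕ} {S S' : Finset V} {a b x y : V} {r r' : ℕ}
  {c ρ : V → V → ℝ}

lemma WkM.symm' (h : WkM G.Adj S a b) : WkM G.Adj S b a :=
  h.swap.mono (fun _ _ e => e.symm) Subset.rfl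

lemma conn_of_root (h : ∀ x ∈ S, WkM G.Adj S a x) : Conn G S :=
  fun x hx y hy => (h x hx).symm'.trans (h y hy)

lemma conn_singleton (G : SimpleGraph V) (a : V) : Conn G {a} :=
  conn_of_root (a := a) fun x hx => by
    rw [mem_singleton.1 hx]; exact WkM.refl (mem_singleton_self _)

lemma Conn.union_of_mem (h : Conn G S) (h' : Conn G S') (hx : x ∈ S) (hx' : x ∈ S') :
    Conn G (S ∪ S') :=
  conn_of_root (a := x) fun y hy => (mem_union.1 hy).elim
    (fun e => (h x hx y e).monoD subset_union_left)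
    fun e => (h' x hx' y e).monoD subset_union_right

lemma Conn.union_of_touch (h : Conn G S) (h' : Conn G S') (ht : Touch G S S') :
    Conn G (S ∪ S') := by
  obtain ⟨x, hx, y, hy, hxy⟩ := ht
  refine conn_of_root (a := x) fun z hz => (mem_union.1 hz).elim
    (fun e => (h x hx z e).monoD subset_union_left) fun e => ?_
  exact ((WkM.refl (mem_union_left _ hx)).tail hxy (mem_union_right _ hy)).trans
    ((h' y hy z e).monoD subset_union_right)

lemma Touch.symm (h : Touch G S S') : Touch G S' S := by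
  obtain ⟨x, hx, y, hy, hxy⟩ := h
  exact ⟨y, hy, x, hx, hxy.symm⟩

/-- the component of `a` in `S` -/
noncomputable def comp (G : SimpleGraph V) (S : Finset V) (a : V) : Finset V :=
  S.filter fun x => WkM G.Adj S a x

lemma mem_comp : x ∈ comp G S a ↔ WkM G.Adj S a x :=
  mem_filter.trans ⟨And.right, fun h => ⟨h.last, h⟩⟩

lemma comp_subset : comp G S a ⊆ S := filter_subset _ _

lemma WkM.inComp (h : WkM G.Adj S a x) : WkM G.Adj (comp G S a) a x :=
  h.ind (WkM.refl (mem_comp.2 (WkM.refl h.1))) fun _ _ hx hxy hy ih =>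
    ih.tail hxy (mem_comp.2 (hx.tail hxy hy))

lemma conn_comp (G : SimpleGraph V) (S : Finset V) (a : V) : Conn G (comp G S a) :=
  conn_of_root (a := a) fun _ hx => (mem_comp.1 hx).inComp

lemma comp_closed (hx : x ∈ comp G S a) (hxy : G.Adj x y) (hy : y ∈ S) : y ∈ comp G S a :=
  mem_comp.2 ((mem_comp.1 hx).tail hxy hy)

lemma comp_eq_of_wk (h : WkM G.Adj S a b) : comp G S a = comp G S b := by
  ext x
  simp only [mem_comp]
  exact ⟨fun e => h.symm'.trans e, fun e => h.trans e⟩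

lemma Conn.subset_comp (h : Conn G S') (hS : S' ⊆ S) (ha : a ∈ S') : S' ⊆ comp G S a :=
  fun x hx => mem_comp.2 ((h a ha x hx).monoD hS)

lemma KMinor.mono {G' : SimpleGraph V} {t : ℕ} (h : KMinor G t) (hG : G ≤ G') : KMinor G' t := by
  obtain ⟨B, h1, h2, h3⟩ := h
  refine ⟨B, h1, fun i a ha b hb => (h2 i a ha b hb).mono (fun _ _ e => hG e) Subset.rfl,
    fun i j hij => ⟨(h3 i j hij).1, ?_⟩⟩
  obtain ⟨x, hx, y, hy, e⟩ := (h3 i j hij).2
  exact ⟨x, hx, y, hy, hG e⟩

namespace Reach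

lemma first (h : Reach G l S a x r) : a ∈ S := by
  induction h with
  | base _ h => exact h
  | step _ _ _ ih => exact ih

lemma last (h : Reach G l S a x r) : x ∈ S := by
  cases h with
  | base _ h => exact h
  | step _ _ h => exact h

lemma mono (h : Reach G l S a x r) (hr : r ≤ r') : Reach G l S a x r' := by
  induction h generalizing r' with
  | base _ h => exact base _ h
  | @step x y r _ hxy hy ih =>
    have : r' = (r' - l x y) + l x y := by omega
    rw [this]
    exact step (ih (by omega)) hxy hy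

lemma monoS (h : Reach G l S a x r) (hS : S ⊆ S') : Reach G l S' a x r := by
  induction h with
  | base _ h => exact base _ (hS h)
  | step _ hxy hy ih => exact step ih hxy (hS hy)

lemma trans (h : Reach G l S a x r) (h' : Reach G l S x y r') : Reach G l S a y (r + r') := by
  induction h' with
  | base _ _ => exact h.mono (Nat.le_add_right _ _)
  | step _ hxy hy ih => rw [← add_assoc]; exact step ih hxy hy

lemma single (hx : x ∈ S) (hxy : G.Adj x y) (hy : y ∈ S) : Reach G l S x y (l x y) := by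
  simpa using step (base (G := G) (l := l) 0 hx) hxy hy

lemma symm (hl : ∀ x y, l x y = l y x) (h : Reach G l S a x r) : Reach G l S x a r := by
  induction h with
  | base _ h => exact base _ h
  | @step x y r h hxy hy ih =>
    rw [add_comm, hl]
    exact (single hy hxy.symm h.last).trans ih

lemma wk (h : Reach G l S a x r) : WkM G.Adj S a x := by
  induction h with
  | base _ h => exact WkM.refl h
  | step _ hxy hy ih => exact ih.tail hxy hy

lemma dist_le (hN : Net G c l ρ) (h : Reach G l S a x r) : ρ a x ≤ r := by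
  induction h with
  | base _ _ => rw [hN.ρ_self]; positivity
  | @step x y r _ hxy _ ih =>
    have := hN.ρ_tri a x y
    have := hN.ρ_le x y hxy
    push_cast
    linarith

/-- balls are reached from inside -/
lemma inBall (h : Reach G l S a x r) (hr : r ≤ r') :
    Reach G l (S.filter fun z => Reach G l S a z r') a x r := by
  induction h with
  | base _ h => exact base _ (mem_filter.2 ⟨h, base _ h⟩)
  | step h hxy hy ih =>
    exact step (ih (by omega)) hxy (mem_filter.2 ⟨hy, (step h hxy hy).mono hr⟩)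

/-- last exit from `X` -/
lemma exit (X : Finset V) (h : Reach G l S a x r) (hx : x ∉ X) :
    Reach G l (S \ X) a x r ∨
      ∃ y ∈ S \ X, (∃ z ∈ X, G.Adj z y) ∧ Reach G l (S \ X) y x r := by
  induction h with
  | base _ h => exact Or.inl (base _ (mem_sdiff.2 ⟨h, hx⟩))
  | @step x y r h hxy hy ih =>
    have hy' : y ∈ S \ X := mem_sdiff.2 ⟨hy, hx⟩
    by_cases hX : x ∈ X
    · exact Or.inr ⟨y, hy', ⟨x, hX, hxy⟩, base _ hy'⟩
    · rcases ih hX with e | ⟨z, hz, hz', e⟩
      · exact Or.inl (step e hxy hy')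
      · exact Or.inr ⟨z, hz, hz', step e hxy hy'⟩

/-- the initial part of length at most `s` of a walk -/
lemma split (hl : ∀ x y, l x y = l y x) (s : ℕ) (h : Reach G l S a x r) :
    ∃ O ⊆ S, a ∈ O ∧ (∀ u ∈ O, ∀ v ∈ O, Reach G l O u v s) ∧
      (x ∈ O ∨ ∃ z ∈ O, ∃ z', G.Adj z z' ∧ ∃ r', r' + s ≤ r ∧ Reach G l S z' x r') := by
  have key : (∃ O ⊆ S, a ∈ O ∧ x ∈ O ∧ ∃ r0 ≤ r, r0 ≤ s ∧ ∀ u ∈ O, ∀ v ∈ O, Reach G l O u v r0) ∨
      ∃ O ⊆ S, a ∈ O ∧ (∀ u ∈ O, ∀ v ∈ O, Reach G l O u v s) ∧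
        ∃ z ∈ O, ∃ z', G.Adj z z' ∧ ∃ r', r' + s ≤ r ∧ Reach G l S z' x r' := by
    induction h with
    | base r h =>
      refine Or.inl ⟨{a}, singleton_subset_iff.2 h, mem_singleton_self _, mem_singleton_self _,
        0, Nat.zero_le _, Nat.zero_le _, fun u hu v hv => ?_⟩
      rw [mem_singleton.1 hu, mem_singleton.1 hv]
      exact base _ (mem_singleton_self _)
    | @step x y r h hxy hy ih =>
      rcases ih with ⟨O, h1, h2, h3, r0, h4, h5, h6⟩ | ⟨O, h1, h2, h3, z, hz, z', h4, r', h5, h6⟩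
      · by_cases hs : r0 + l x y ≤ s
        · have q : ∀ u ∈ O, Reach G l (insert y O) u y (r0 + l x y) := fun u hu =>
            step ((h6 u hu x h3).monoS (subset_insert _ _)) hxy (mem_insert_self _ _)
          refine Or.inl ⟨insert y O, insert_subset hy h1, mem_insert_of_mem h2,
            mem_insert_self _ _, r0 + l x y, by omega, hs, fun u hu v hv => ?_⟩
          rcases mem_insert.1 hu with rfl | hu' <;> rcases mem_insert.1 hv with rfl | hv'
          · exact base _ hu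
          · exact (q v hv').symm hl
          · exact q u hu'
          · exact ((h6 u hu' v hv').monoS (subset_insert _ _)).mono (Nat.le_add_right _ _)
        · exact Or.inr ⟨O, h1, h2, fun u hu v hv => (h6 u hu v hv).mono h5, x, h3, y, hxy, 0,
            by omega, base _ hy⟩
      · exact Or.inr ⟨O, h1, h2, h3, z, hz, z', h4, r' + l x y, by omega, step h6 hxy hy⟩
  rcases key with ⟨O, h1, h2, h3, r0, -, h5, h6⟩ | ⟨O, h1, h2, h3, h4⟩
  · exact ⟨O, h1, h2, fun u hu v hv => (h6 u hu v hv).mono h5, Or.inl h3⟩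
  · exact ⟨O, h1, h2, h3, Or.inr h4⟩

/-- a walk with unit lengths has few vertices -/
lemma exists_set (h : Reach G (fun _ _ => 1) S a x r) :
    ∃ X ⊆ S, a ∈ X ∧ x ∈ X ∧ X.card ≤ r + 1 ∧ Conn G X := by
  induction h with
  | base r h =>
    exact ⟨{a}, singleton_subset_iff.2 h, mem_singleton_self _, mem_singleton_self _, by simp,
      conn_singleton _ _⟩
  | @step x y r h hxy hy ih =>
    obtain ⟨X, h1, h2, h3, h4, h5⟩ := ih
    refine ⟨X ∪ {y}, union_subset h1 (singleton_subset_iff.2 hy), mem_union_left _ h2,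
      mem_union_right _ (mem_singleton_self _), ?_,
      h5.union_of_touch (conn_singleton _ _) ⟨x, h3, y, mem_singleton_self _, hxy⟩⟩
    have := card_union_le X {y}
    rw [card_singleton] at this
    omega

end Reach

lemma Rad.conn {R : ℕ} (h : Rad G l S a R) : Conn G S := by
  obtain ⟨-, r, -, h⟩ := h
  exact conn_of_root fun x hx => (h x hx).wk

lemma Net.ρ_nonneg (hN : Net G c l ρ) (x y : V) : 0 ≤ ρ x y := by
  have := hN.ρ_tri x y x
  rw [hN.ρ_self, hN.ρ_symm y x] at this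
  linarith

lemma mem_cls {ctr : V → V} : y ∈ cls S ctr x ↔ y ∈ S ∧ ctr y = ctr x := mem_filter

lemma vol_nonneg (hc : ∀ x y, 0 ≤ c x y) (S : Finset V) : 0 ≤ vol c l S :=
  sum_nonneg fun x _ => sum_nonneg fun y _ => mul_nonneg (hc x y) (Nat.cast_nonneg _)

lemma vol_mono (hc : ∀ x y, 0 ≤ c x y) (h : S ⊆ S') : vol c l S ≤ vol c l S' :=
  (sum_le_sum fun x _ => sum_le_sum_of_subset_of_nonneg h fun y _ _ =>
    mul_nonneg (hc x y) (Nat.cast_nonneg _)).trans
    (sum_le_sum_of_subset_of_nonneg h fun x _ _ => sum_nonneg fun y _ =>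
      mul_nonneg (hc x y) (Nat.cast_nonneg _))

lemma vol_add_sdiff_le (hc : ∀ x y, 0 ≤ c x y) (h : S ⊆ S') :
    vol c l S + vol c l (S' \ S) ≤ vol c l S' := by
  have e : vol c l S' = ∑ x ∈ S' \ S, ∑ y ∈ S', c x y * (l x y : ℝ) +
      ∑ x ∈ S, ∑ y ∈ S', c x y * (l x y : ℝ) := (sum_sdiff h).symm
  rw [e, add_comm]
  refine add_le_add (sum_le_sum fun x _ => ?_) (sum_le_sum fun x _ => ?_)
  · exact sum_le_sum_of_subset_of_nonneg sdiff_subset fun y _ _ =>
      mul_nonneg (hc x y) (Nat.cast_nonneg _)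
  · exact sum_le_sum_of_subset_of_nonneg h fun y _ _ => mul_nonneg (hc x y) (Nat.cast_nonneg _)

end API

end Pool.Agent.MP_d3be90_lc
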