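import Pool.Agent.MP_d3be90_lc.SBase

set_option autoImplicit false

open Finset
open scoped Classical

namespace Pool.Agent.MP_d3be90_lc

variable {V : Type}

theorem Conn.connected {G : SimpleGraph V} {S : Finset V} (h : Conn G S) (hne : S.Nonempty) :
    (G.induce (S : Set V)).Connected := by
  obtain ⟨s, hs⟩ := hne
  have : Nonempty (S : Set V) := ⟨⟨s, hs⟩⟩
  refine ⟨fun a b => ?_⟩
  have key : ∀ x, WkM G.Adj S a x → ∀ hx : x ∈ (S : Set V),
      (G.induce (S : Set V)).Reachable a ⟨x, hx⟩ := fun x hx =>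
    hx.ind (P := fun x => ∀ hx : x ∈ (S : Set V), (G.induce (S : Set V)).Reachable a ⟨x, hx⟩)
      (fun _ => SimpleGraph.Reachable.refl _) fun y z hy hyz _ ih hz =>
        (ih hy.last).trans (SimpleGraph.Adj.reachable (by simpa using hyz))
  exact key b (h a a.2 b b.2) b.2

theorem KMinor.minor {W : Type} [Fintype W] (H : SimpleGraph W) {G : SimpleGraph V}
    (h : KMinor G (Fintype.card W + 2)) :
    ∃ φ : W → Set V, (∀ w, (φ w).Nonempty) ∧ (∀ w, (G.induce (φ w)).Connected) ∧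
      (∀ w w', w ≠ w' → Disjoint (φ w) (φ w')) ∧
      (∀ w w', H.Adj w w' → ∃ x ∈ φ w, ∃ y ∈ φ w', G.Adj x y) := by
  obtain ⟨B, h1, h2, h3⟩ := h
  obtain ⟨e⟩ : Nonempty (W ↪ Fin (Fintype.card W + 2)) :=
    Function.Embedding.nonempty_of_card_le (by simp)
  exact ⟨fun w => (B (e w) : Set V), fun w => h1 _, fun w => (h2 _).connected (h1 _),
    fun w w' hw => disjoint_coe.2 (h3 _ _ (e.injective.ne hw)).1,
    fun w w' hw => (h3 _ _ (e.injective.ne hw.ne)).2⟩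

theorem cutW_eq [Fintype V] (c : V → V → ℝ) (hc : ∀ x y, c x y = c y x) (A : Finset V) :
    cutW c A = 2 * ∑ u ∈ A, ∑ v ∈ Aᶜ, c u v := by
  have e1 : ∑ u ∈ A, ∑ v, (if (u ∈ A ↔ v ∈ A) then 0 else c u v) = ∑ u ∈ A, ∑ v ∈ Aᶜ, c u v :=
    sum_congr rfl fun u hu => by
      rw [← sum_add_sum_compl A, sum_eq_zero fun v hv => if_pos (iff_of_true hu hv), zero_add]
      exact sum_congr rfl fun v hv => if_neg fun h => mem_compl.1 hv (h.1 hu)
  have e2 : ∑ u ∈ Aᶜ, ∑ v, (if (u ∈ A ↔ v ∈ A) then 0 else c u v) =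
      ∑ u ∈ Aᶜ, ∑ v ∈ A, c v u :=
    sum_congr rfl fun u hu => by
      rw [← sum_add_sum_compl A, sum_eq_zero (s := Aᶜ) fun v hv =>
        if_pos (iff_of_false (mem_compl.1 hu) (mem_compl.1 hv)), add_zero]
      exact sum_congr rfl fun v hv => (if_neg fun h => mem_compl.1 hu (h.2 hv)).trans (hc u v)
  rw [cutW, ← sum_add_sum_compl A, e1, e2, sum_comm (s := Aᶜ), two_mul]

/-- a sparsest cut -/
theorem exists_sparsest [Fintype V] (a b : Finset V → ℝ) (ha : ∀ A, 0 ≤ a A) (hb : ∀ A, 0 ≤ b A)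
    (h : ∃ A, 0 < b A) : ∃ S, 0 < b S ∧ ∀ A, a S / b S * b A ≤ a A := by
  obtain ⟨A0, h0⟩ := h
  obtain ⟨S, hS, hm⟩ := exists_min_image (univ.filter fun A => 0 < b A) (fun A => a A / b A)
    ⟨A0, mem_filter.2 ⟨mem_univ _, h0⟩⟩
  refine ⟨S, (mem_filter.1 hS).2, fun A => ?_⟩
  rcases (hb A).eq_or_lt with e | e
  · rw [← e, mul_zero]; exact ha A
  · exact (le_div_iff₀ e).1 (hm A (mem_filter.2 ⟨mem_univ _, e⟩))

end Pool.Agent.MP_d3be90_lc
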