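import Pool.Agent.MP_d3be90_lc.SPhase

set_option autoImplicit false

open Finset
open scoped Classical

namespace Pool.Agent.MP_d3be90_lc

variable {V : Type}

lemma SCarve_sub {Y Y' : Finset V} (h : Y' ⊆ Y) (t : V → V → ℝ) :
    ∑ x ∈ Y, ∑ y ∈ Y, (if x ∈ Y' ∧ y ∈ Y' then t x y else 0) = ∑ x ∈ Y', ∑ y ∈ Y', t x y := by
  rw [← sum_subset h fun x _ hx => sum_eq_zero fun y _ => if_neg fun e => hx e.1]
  refine sum_congr rfl fun x hx => ?_
  rw [← sum_subset h fun y _ hy => if_neg fun e => hy e.2]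
  exact sum_congr rfl fun y hy => if_pos ⟨hx, hy⟩

theorem SCarve_aux {G : SimpleGraph V} {c ρ : V → V → ℝ} {l : V → V → ℕ} (hN : Net G c l ρ)
    (lam n s : ℕ) (hlam : 1 ≤ lam) (hn : n < 2 ^ lam) (hs : 1 ≤ s) (hn1 : 1 ≤ n)
    (sV : ℝ) (hsV : 0 ≤ sV) (h : ℕ) :
    ∀ (Y F : Finset V) (e : V → ℕ), F ⊆ Y → (∀ v ∈ Y, ∃ f ∈ F, Reach G l Y f v (e v * s)) →
      ∑ v ∈ Y, (2 : ℝ) ^ e v < (4 / 3) ^ h → vol c l Y ≤ n * sV → Y.card ≤ n →
      ∃ (ctr : V → V) (ph : V → ℕ),
        (∀ x ∈ Y, ctr x ∈ Y ∧ ctr (ctr x) = ctr x ∧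
          Rad G l (cls Y ctr x) (ctr x) (18 * lam * s) ∧ ph (ctr x) < h ∧
          (ctr x ∈ F ∨ ∃ x' ∈ Y, ∃ y ∈ Y, ctr x' = ctr x ∧ G.Adj x' y ∧ ph (ctr y) < ph (ctr x))) ∧
        (s : ℝ) * ∑ x ∈ Y, ∑ y ∈ Y, (if l x y < s ∧ ctr x ≠ ctr y then c x y else 0) ≤
          (vol c l Y + Y.card * sV) / 2 := by
  induction h with
  | zero =>
    intro Y F e _ _ hm _ _
    have hY : Y = ∅ := by
      by_contra hne
      obtain ⟨v, hv⟩ := nonempty_iff_ne_empty.2 hne
      have h1 : (2 : ℝ) ^ e v ≤ ∑ v ∈ Y, (2 : ℝ) ^ e v :=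
        single_le_sum (f := fun v => (2 : ℝ) ^ e v) (fun _ _ => by positivity) hv
      have h2 : (1 : ℝ) ≤ 2 ^ e v := one_le_pow₀ (by norm_num)
      rw [pow_zero] at hm
      linarith
    subst hY
    exact ⟨id, fun _ => 0, fun x hx => absurd hx (notMem_empty x), by simp [vol]⟩
  | succ h ih =>
    intro Y F e hF hw hm hV hc
    have hOex : ∀ v, ∃ O : Finset V, v ∈ Y → O ⊆ Y ∧
        (∃ f ∈ F, f ∈ O ∧ Reach G l Y f v (e v * s)) ∧ (∀ a ∈ O, ∀ b ∈ O, Reach G l O a b s) ∧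
        (v ∈ O ∨ ∃ z ∈ O, ∃ z', G.Adj z z' ∧ ∃ r', r' + s ≤ e v * s ∧ Reach G l Y z' v r') := by
      intro v
      by_cases hv : v ∈ Y
      · obtain ⟨f, hf, hr⟩ := hw v hv
        obtain ⟨O, h1, h2, h3, h4⟩ := hr.split hN.l_symm s
        exact ⟨O, fun _ => ⟨h1, ⟨f, hf, h2, hr⟩, h3, h4⟩⟩
      · exact ⟨∅, fun hv' => absurd hv' hv⟩
    choose O hO using hOex
    have hnp : (0 : ℝ) < n := Nat.cast_pos.2 hn1
    set W : ℝ := ∑ v ∈ Y, (2 : ℝ) ^ e v with hW
    have hW0 : 0 ≤ W := sum_nonneg fun _ _ => by positivity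
    obtain ⟨X, cX, hFX, hXY, h3, h4, h5⟩ := exists_phase hN lam n s hlam hn hs O
      (fun v => (2 : ℝ) ^ e v) (fun _ => by positivity) sV (W / n) hsV (by positivity) Y F hF Y
      (fun v hv => ⟨(hO v hv).1, (hO v hv).2.2.1⟩)
      (fun v hv hd => by
        obtain ⟨f, hf, hf', -⟩ := (hO v hv).2.1
        exact disjoint_left.1 hd hf' hf)
      hV (by rw [mul_div_cancel₀ _ hnp.ne'])
    have hXn : (X.card : ℝ) ≤ n := Nat.cast_le.2 ((card_le_card hXY).trans hc)
    have hsp : ∑ v ∈ Y.filter (fun v => ¬ O v ⊆ X), (2 : ℝ) ^ e v ≤ W / 2 := by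
      have h6 : (X.card : ℝ) * (W / n) ≤ n * (W / n) :=
        mul_le_mul_of_nonneg_right hXn (by positivity)
      rw [mul_div_cancel₀ _ hnp.ne'] at h6
      linarith
    have hsplit : ∀ v ∈ Y \ X, O v ⊆ X →
        ∃ z ∈ X, ∃ z', G.Adj z z' ∧ ∃ r', r' + s ≤ e v * s ∧ Reach G l Y z' v r' := by
      intro v hv hOX
      obtain ⟨hv1, hv2⟩ := mem_sdiff.1 hv
      rcases (hO v hv1).2.2.2 with h6 | ⟨z, hz, h6⟩
      · exact absurd (hOX h6) hv2
      · exact ⟨z, hOX hz, h6⟩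
    obtain ⟨c', ph', h6, h7⟩ := ih (Y \ X) ((Y \ X).filter fun y => ∃ z ∈ X, G.Adj z y)
      (fun v => if O v ⊆ X then e v - 1 else e v) (filter_subset _ _)
      (fun v hv => by
        obtain ⟨hv1, hv2⟩ := mem_sdiff.1 hv
        by_cases hOX : O v ⊆ X
        · obtain ⟨z, hz, z', hzz, r', hr', hr⟩ := hsplit v hv hOX
          have hle : r' ≤ (e v - 1) * s := by
            rw [Nat.sub_one_mul]
            omega
          simp only [if_pos hOX]
          rcases hr.exit X hv2 with q | ⟨y, hy, hy', q⟩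
          · exact ⟨z', mem_filter.2 ⟨q.first, z, hz, hzz⟩, q.mono hle⟩
          · exact ⟨y, mem_filter.2 ⟨hy, hy'⟩, q.mono hle⟩
        · obtain ⟨f, hf, -, hr⟩ := (hO v hv1).2.1
          simp only [if_neg hOX]
          rcases hr.exit X hv2 with q | ⟨y, hy, hy', q⟩
          · exact absurd (hFX hf) (mem_sdiff.1 q.first).2
          · exact ⟨y, mem_filter.2 ⟨hy, hy'⟩, q⟩)
      (by
        have e1 : ∑ v ∈ Y \ X, (2 : ℝ) ^ (if O v ⊆ X then e v - 1 else e v) ≤
            ∑ v ∈ Y \ X, ((2 : ℝ) ^ e v / 2 + if ¬ O v ⊆ X then (2 : ℝ) ^ e v / 2 else 0) := by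
          refine sum_le_sum fun v hv => ?_
          by_cases hOX : O v ⊆ X
          · obtain ⟨z, hz, z', hzz, r', hr', hr⟩ := hsplit v hv hOX
            have hpos : 1 ≤ e v := by
              rcases Nat.eq_zero_or_pos (e v) with h0 | h0
              · rw [h0] at hr'
                omega
              · exact h0
            rw [if_pos hOX, if_neg (not_not.2 hOX), add_zero]
            obtain ⟨k, hk⟩ : ∃ k, e v = k + 1 := ⟨e v - 1, by omega⟩
            rw [hk, Nat.add_sub_cancel, pow_succ]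
            linarith
          · rw [if_neg hOX, if_pos hOX]
            linarith
        have e2 : ∑ v ∈ Y \ X, ((2 : ℝ) ^ e v / 2 + if ¬ O v ⊆ X then (2 : ℝ) ^ e v / 2 else 0) ≤
            ∑ v ∈ Y, ((2 : ℝ) ^ e v / 2 + if ¬ O v ⊆ X then (2 : ℝ) ^ e v / 2 else 0) :=
          sum_le_sum_of_subset_of_nonneg sdiff_subset fun v _ _ => by
            split_ifs <;> positivity
        have e3 := e1.trans e2
        rw [sum_add_distrib, ← sum_filter, ← sum_div, ← sum_div, ← hW] at e3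
        rw [pow_succ] at hm
        linarith)
      ((vol_mono hN.c_nonneg sdiff_subset).trans hV) ((card_le_card sdiff_subset).trans hc)
    have hin : ∀ x ∈ X, cX x ∈ X := fun x hx => hFX (h3 x hx).1
    have hout : ∀ x ∈ Y, x ∉ X → c' x ∉ X := fun x hx hx' =>
      (mem_sdiff.1 (h6 x (mem_sdiff.2 ⟨hx, hx'⟩)).1).2
    refine ⟨fun x => if x ∈ X then cX x else c' x, fun v => if v ∈ X then 0 else ph' v + 1,
      fun x hx => ?_, ?_⟩
    · by_cases hxX : x ∈ X
      · have hcl : cls Y (fun x => if x ∈ X then cX x else c' x) x = cls X cX x := by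
          ext y
          simp only [mem_cls, if_pos hxX]
          constructor
          · rintro ⟨hy, q⟩
            by_cases hyX : y ∈ X
            · rw [if_pos hyX] at q
              exact ⟨hyX, q⟩
            · rw [if_neg hyX] at q
              exact absurd (q ▸ hin x hxX) (hout y hy hyX)
          · rintro ⟨hy, q⟩
            exact ⟨hXY hy, by rw [if_pos hy, q]⟩
        simp only [hcl, if_pos hxX, if_pos (hin x hxX)]
        exact ⟨hXY (hin x hxX), (h3 x hxX).2.1, (h3 x hxX).2.2, Nat.succ_pos _,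
          Or.inl (h3 x hxX).1⟩
      · have hx' : x ∈ Y \ X := mem_sdiff.2 ⟨hx, hxX⟩
        have hcl : cls Y (fun x => if x ∈ X then cX x else c' x) x = cls (Y \ X) c' x := by
          ext y
          simp only [mem_cls, if_neg hxX]
          constructor
          · rintro ⟨hy, q⟩
            by_cases hyX : y ∈ X
            · rw [if_pos hyX] at q
              exact absurd (q ▸ hin y hyX) (hout x hx hxX)
            · rw [if_neg hyX] at q
              exact ⟨mem_sdiff.2 ⟨hy, hyX⟩, q⟩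
          · rintro ⟨hy, q⟩
            exact ⟨(mem_sdiff.1 hy).1, by rw [if_neg (mem_sdiff.1 hy).2, q]⟩
        obtain ⟨q1, q2, q3, q4, q5⟩ := h6 x hx'
        simp only [hcl, if_neg hxX, if_neg (hout x hx hxX)]
        refine ⟨(mem_sdiff.1 q1).1, q2, q3, Nat.succ_lt_succ q4, Or.inr ?_⟩
        rcases q5 with q5 | ⟨x', hx1, y, hy1, q5, q6, q7⟩
        · obtain ⟨z, hz, hzz⟩ := (mem_filter.1 q5).2
          refine ⟨c' x, (mem_sdiff.1 q1).1, z, hXY hz, ?_, hzz.symm, ?_⟩
          · rw [if_neg (hout x hx hxX), q2]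
          · rw [if_pos hz, if_pos (hin z hz)]
            exact Nat.succ_pos _
        · obtain ⟨a1, a2⟩ := mem_sdiff.1 hx1
          obtain ⟨b1, b2⟩ := mem_sdiff.1 hy1
          refine ⟨x', a1, y, b1, ?_, q6, ?_⟩
          · rw [if_neg a2, q5]
          · rw [if_neg b2, if_neg (hout y b1 b2)]
            exact Nat.succ_lt_succ q7
    · have e1 : ∑ x ∈ Y, ∑ y ∈ Y, (if l x y < s ∧ (if x ∈ X then cX x else c' x) ≠
            (if y ∈ X then cX y else c' y) then c x y else 0) ≤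
          ∑ x ∈ Y, ∑ y ∈ Y, (if l x y < s ∧ (x ∈ X ∨ y ∈ X) ∧
            ¬ (x ∈ X ∧ y ∈ X ∧ cX x = cX y) then c x y else 0) +
          ∑ x ∈ Y \ X, ∑ y ∈ Y \ X, (if l x y < s ∧ c' x ≠ c' y then c x y else 0) := by
        rw [← SCarve_sub (Y := Y) (Y' := Y \ X) sdiff_subset, ← sum_add_distrib]
        refine sum_le_sum fun x hx => ?_
        rw [← sum_add_distrib]
        refine sum_le_sum fun y hy => ?_
        have hc0 := hN.c_nonneg x y
        by_cases hl : l x y < s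
        · by_cases hxX : x ∈ X <;> by_cases hyX : y ∈ X <;>
            simp only [hl, hxX, hyX, hx, hy, mem_sdiff, true_and, and_true, true_or, or_true,
              false_and, and_false, or_self, not_true, not_false_eq_true, if_true, if_false,
              add_zero, zero_add, ne_eq, le_refl] <;>
            split_ifs <;> linarith
        · simp only [hl, false_and, if_false, ite_self, add_zero, le_refl]
      have e2 : ((Y \ X).card : ℝ) + X.card = Y.card := by
        exact_mod_cast card_sdiff_add_card_eq_card hXY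
      have e3 := mul_le_mul_of_nonneg_left e1 (Nat.cast_nonneg (α := ℝ) s)
      rw [mul_add] at e3
      rw [← e2, add_mul]
      linarith

theorem carve {G : SimpleGraph V} {c ρ : V → V → ℝ} {l : V → V → ℕ} (hN : Net G c l ρ)
    (lam n s : ℕ) (hlam : 1 ≤ lam) (hn : n < 2 ^ lam) (hs : 1 ≤ s)
    (C : Finset V) (hC : C.card ≤ n) (a : V) (hR : Rad G l C a (36 * lam * s)) :
    ∃ (ctr : V → V) (ph : V → ℕ),
      (∀ x ∈ C, ctr x ∈ C ∧ ctr (ctr x) = ctr x ∧ Rad G l (cls C ctr x) (ctr x) (18 * lam * s) ∧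
        ph (ctr x) < 111 * lam ∧
        (ctr x = a ∨ ∃ x' ∈ C, ∃ y ∈ C, ctr x' = ctr x ∧ G.Adj x' y ∧ ph (ctr y) < ph (ctr x))) ∧
      (s : ℝ) * ∑ x ∈ C, ∑ y ∈ C, (if ctr x = ctr y then 0 else c x y) ≤ 2 * vol c l C := by
  obtain ⟨ha, r, hr, hw⟩ := hR
  have hn1 : 1 ≤ n := (card_pos.2 ⟨a, ha⟩).trans_le hC
  have hnp : (0 : ℝ) < n := Nat.cast_pos.2 hn1
  have hv := vol_nonneg (l := l) hN.c_nonneg C
  have hCn : (C.card : ℝ) ≤ n := Nat.cast_le.2 hC
  obtain ⟨ctr, ph, h1, h2⟩ := SCarve_aux hN lam n s hlam hn hs hn1 (vol c l C / n)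
    (by positivity) (111 * lam) C {a} (fun _ => 36 * lam) (singleton_subset_iff.2 ha)
    (fun v hv => ⟨a, mem_singleton_self a, (hw v hv).mono hr.le⟩)
    (by
      rw [sum_const, nsmul_eq_mul]
      have e1 : (n : ℝ) < 2 ^ lam := by exact_mod_cast hn
      have e2 : (2 : ℝ) ^ (37 * lam) ≤ (4 / 3) ^ (111 * lam) := by
        rw [show 111 * lam = 3 * (37 * lam) by ring, pow_mul (4 / 3 : ℝ)]
        exact pow_le_pow_left₀ (by norm_num) (by norm_num) _
      have e3 : (0 : ℝ) < 2 ^ (36 * lam) := by positivity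
      refine lt_of_lt_of_le ?_ e2
      rw [show 37 * lam = lam + 36 * lam by ring, pow_add]
      exact mul_lt_mul_of_pos_right (hCn.trans_lt e1) e3)
    (by rw [mul_div_cancel₀ _ hnp.ne']) hC
  refine ⟨ctr, ph, fun x hx => ?_, ?_⟩
  · obtain ⟨q1, q2, q3, q4, q5⟩ := h1 x hx
    exact ⟨q1, q2, q3, q4, q5.imp_left mem_singleton.1⟩
  · have e1 : (C.card : ℝ) * (vol c l C / n) ≤ n * (vol c l C / n) :=
      mul_le_mul_of_nonneg_right hCn (by positivity)
    rw [mul_div_cancel₀ _ hnp.ne'] at e1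
    have e2 : (s : ℝ) * ∑ x ∈ C, ∑ y ∈ C, (if ctr x = ctr y then 0 else c x y) ≤
        (s : ℝ) * ∑ x ∈ C, ∑ y ∈ C, (if l x y < s ∧ ctr x ≠ ctr y then c x y else 0) +
          vol c l C := by
      rw [vol, mul_sum, mul_sum, ← sum_add_distrib]
      refine sum_le_sum fun x _ => ?_
      rw [mul_sum, mul_sum, ← sum_add_distrib]
      refine sum_le_sum fun y _ => ?_
      have hc0 := hN.c_nonneg x y
      have hl0 : (0 : ℝ) ≤ c x y * l x y := mul_nonneg hc0 (Nat.cast_nonneg _)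
      by_cases hxy : ctr x = ctr y
      · rw [if_pos hxy, if_neg fun e => e.2 hxy]
        linarith
      · rw [if_neg hxy]
        by_cases hl : l x y < s
        · rw [if_pos ⟨hl, hxy⟩]
          linarith
        · rw [if_neg fun e => hl e.1]
          have h3 : (s : ℝ) ≤ l x y := Nat.cast_le.2 (not_lt.1 hl)
          have h4 := mul_le_mul_of_nonneg_left h3 hc0
          linarith
    linarith

end Pool.Agent.MP_d3be90_lc
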