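import Pool.Agent.MP_d3be90_lc.SBase

set_option autoImplicit false

open Finset
open scoped Classical

namespace Pool.Agent.MP_d3be90_lc

lemma SColour_pair {α : Type} [Fintype α] (κ : ℕ) (p q : α) (h : p ≠ q) :
    κ * (univ.filter fun col : α → Fin κ => col p = col q).card ≤
      Fintype.card (α → Fin κ) := by
  have e : κ * (univ.filter fun col : α → Fin κ => col p = col q).card =
      ((univ : Finset (Fin κ)) ×ˢ (univ.filter fun col : α → Fin κ => col p = col q)).card := by
    rw [card_product, card_univ, Fintype.card_fin]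
  rw [e, ← card_univ]
  refine card_le_card_of_injOn (fun x => Function.update x.2 p x.1) (fun _ _ => mem_univ _) ?_
  rintro ⟨a, c⟩ hc ⟨a', c'⟩ hc' hh
  have h1 : c p = c q := (mem_filter.1 (mem_product.1 (mem_coe.1 hc)).2).2
  have h2 : c' p = c' q := (mem_filter.1 (mem_product.1 (mem_coe.1 hc')).2).2
  have hh' : Function.update c p a = Function.update c' p a' := hh
  have h3 : ∀ x, x ≠ p → c x = c' x := fun x hx => by
    have := congrFun hh' x
    rwa [Function.update_of_ne hx, Function.update_of_ne hx] at this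
  have h4 : a = a' := by
    have := congrFun hh' p
    rwa [Function.update_self, Function.update_self] at this
  refine Prod.ext h4 (funext fun x => ?_)
  by_cases hx : x = p
  · subst hx
    show c x = c' x
    rw [h1, h2]
    exact h3 q (Ne.symm h)
  · exact h3 x hx

lemma SColour_one {α : Type} [Fintype α] (κ : ℕ) (q : α) (T : Finset α) (r : ℕ) (hq : q ∉ T)
    (hT : T.card ≤ r) :
    κ * (univ.filter fun col : α → Fin κ => ∃ p ∈ T, col p = col q).card ≤
      r * Fintype.card (α → Fin κ) := by
  have h1 : (univ.filter fun col : α → Fin κ => ∃ p ∈ T, col p = col q) ⊆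
      T.biUnion fun p => univ.filter fun col : α → Fin κ => col p = col q := by
    intro col hc
    obtain ⟨p, hp, e⟩ := (mem_filter.1 hc).2
    exact mem_biUnion.2 ⟨p, hp, mem_filter.2 ⟨mem_univ _, e⟩⟩
  have h2 := (card_le_card h1).trans card_biUnion_le
  calc κ * (univ.filter fun col : α → Fin κ => ∃ p ∈ T, col p = col q).card
      ≤ κ * ∑ p ∈ T, (univ.filter fun col : α → Fin κ => col p = col q).card :=
        Nat.mul_le_mul_left _ h2
    _ = ∑ p ∈ T, κ * (univ.filter fun col : α → Fin κ => col p = col q).card := mul_sum _ _ _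
    _ ≤ ∑ _p ∈ T, Fintype.card (α → Fin κ) :=
        sum_le_sum fun p hp => SColour_pair κ p q fun e => hq (e ▸ hp)
    _ = T.card * Fintype.card (α → Fin κ) := by rw [sum_const, smul_eq_mul]
    _ ≤ r * Fintype.card (α → Fin κ) := Nat.mul_le_mul_right _ hT

theorem exists_colouring {α β : Type} [Fintype α] (κ : ℕ) (hκ : 0 < κ) (E : Finset β)
    (s : β → α) (T : β → Finset α) (r : ℕ) (hT : ∀ e ∈ E, s e ∉ T e ∧ (T e).card ≤ r) :
    ∃ col : α → Fin κ,
      κ * (E.filter fun e => ∃ p ∈ T e, col p = col (s e)).card ≤ r * E.card := by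
  have hne : (univ : Finset (α → Fin κ)).Nonempty := ⟨fun _ => ⟨0, hκ⟩, mem_univ _⟩
  have key : ∑ col : α → Fin κ, κ * (E.filter fun e => ∃ p ∈ T e, col p = col (s e)).card ≤
      ∑ _col : α → Fin κ, r * E.card := by
    calc ∑ col : α → Fin κ, κ * (E.filter fun e => ∃ p ∈ T e, col p = col (s e)).card
        = ∑ col : α → Fin κ, ∑ e ∈ E, κ * (if ∃ p ∈ T e, col p = col (s e) then 1 else 0) := by
          refine sum_congr rfl fun col _ => ?_
          rw [card_filter, mul_sum]
      _ = ∑ e ∈ E, κ * (univ.filter fun col : α → Fin κ => ∃ p ∈ T e, col p = col (s e)).card := by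
          rw [sum_comm]
          refine sum_congr rfl fun e _ => ?_
          rw [card_filter, mul_sum]
      _ ≤ ∑ _e ∈ E, r * Fintype.card (α → Fin κ) :=
          sum_le_sum fun e he => SColour_one κ (s e) (T e) r (hT e he).1 (hT e he).2
      _ = ∑ _col : α → Fin κ, r * E.card := by
          rw [sum_const, sum_const, smul_eq_mul, smul_eq_mul, card_univ]
          ring
  obtain ⟨col, -, h⟩ := exists_le_of_sum_le hne key
  exact ⟨col, h⟩

end Pool.Agent.MP_d3be90_lc
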