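import Pool.Agent.MP_d3be90_lc.SBase

set_option autoImplicit false

open Finset
open scoped Classical

namespace Pool.Agent.MP_d3be90_lc

variable {V : Type}

variable {k : ℕ} {μ : Finset V → Finset V → ℝ}

lemma SSA_fibre {Q : Finset V} (A : Finset V) (g : Finset V → ℝ) :
    ∑ σ ∈ Q.powerset, (if A ∩ Q = σ then g σ else 0) = g (A ∩ Q) := by
  rw [sum_ite_eq]
  rw [if_pos (mem_powerset.2 inter_subset_right)]

lemma SSA_key (h : SA k μ) {S T : Finset V} (hST : S ⊆ T) (hT : T.card ≤ k)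
    (f : Finset V → ℝ) :
    ∑ B ∈ S.powerset, μ S B * f B = ∑ A ∈ T.powerset, μ T A * f (A ∩ S) := by
  have e : ∀ B ∈ S.powerset, μ S B * f B =
      ∑ A ∈ T.powerset, (if A ∩ S = B then μ T A * f B else 0) := by
    intro B hB
    rw [h.cons S T hST hT B hB, sum_mul]
    refine sum_congr rfl fun A _ => ?_
    split_ifs <;> simp
  rw [sum_congr rfl e, sum_comm]
  exact sum_congr rfl fun A _ => SSA_fibre A fun B => μ T A * f B

lemma SSA_d (h : SA k μ) {T : Finset V} (hT : T.card ≤ k) {u v : V} (hu : u ∈ T) (hv : v ∈ T) :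
    dSA μ u v = ∑ A ∈ T.powerset, μ T A * (if (u ∈ A ↔ v ∈ A) then 0 else 1) := by
  have hs : ({u, v} : Finset V) ⊆ T := insert_subset hu (singleton_subset_iff.2 hv)
  have := SSA_key h hs hT fun B => if (u ∈ B ↔ v ∈ B) then 0 else 1
  unfold dSA
  refine Eq.trans (sum_congr rfl fun A _ => ?_) (this.trans (sum_congr rfl fun A _ => ?_))
  · split_ifs <;> simp
  · have e : (u ∈ A ∩ {u, v} ↔ v ∈ A ∩ {u, v}) ↔ (u ∈ A ↔ v ∈ A) := by simp
    rw [if_congr e rfl rfl]

lemma SSA_m (h : SA k μ) {T Q : Finset V} (hT : T.card ≤ k) {u : V} (hu : u ∈ T) (hQ : Q ⊆ T)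
    (σ : Finset V) :
    mSA μ Q σ u = ∑ A ∈ T.powerset, μ T A * (if A ∩ Q = σ ∧ u ∈ A then 1 else 0) := by
  have hs : insert u Q ⊆ T := insert_subset hu hQ
  have := SSA_key h hs hT fun B => if B ∩ Q = σ ∧ u ∈ B then 1 else 0
  unfold mSA
  refine Eq.trans (sum_congr rfl fun A _ => ?_) (this.trans (sum_congr rfl fun A _ => ?_))
  · split_ifs <;> simp
  · have e1 : A ∩ insert u Q ∩ Q = A ∩ Q := by
      rw [inter_assoc, inter_eq_right.2 (subset_insert u Q)]
    have e : (A ∩ insert u Q ∩ Q = σ ∧ u ∈ A ∩ insert u Q) ↔ (A ∩ Q = σ ∧ u ∈ A) := by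
      rw [e1]; simp
    rw [if_congr e rfl rfl]

lemma SSA_mu (h : SA k μ) {T Q σ : Finset V} (hT : T.card ≤ k) (hQ : Q ⊆ T)
    (hσ : σ ∈ Q.powerset) :
    μ Q σ = ∑ A ∈ T.powerset, μ T A * (if A ∩ Q = σ then 1 else 0) := by
  rw [h.cons Q T hQ hT σ hσ]
  refine sum_congr rfl fun A _ => ?_
  split_ifs <;> simp

theorem dSA_self (μ : Finset V → Finset V → ℝ) (u : V) : dSA μ u u = 0 := by
  unfold dSA
  exact sum_eq_zero fun A _ => if_pos Iff.rfl

theorem dSA_symm (μ : Finset V → Finset V → ℝ) (u v : V) : dSA μ u v = dSA μ v u := by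
  unfold dSA
  rw [pair_comm u v]
  exact sum_congr rfl fun A _ => if_congr Iff.comm rfl rfl

theorem SA.d_nonneg (h : SA k μ) (hk : 2 ≤ k) (u v : V) : 0 ≤ dSA μ u v := by
  unfold dSA
  refine sum_nonneg fun A hA => ?_
  split_ifs
  · exact le_rfl
  · exact h.nonneg _ (card_le_two.trans hk) A hA

theorem SA.d_tri (h : SA k μ) (hk : 3 ≤ k) (u v z : V) :
    dSA μ u z ≤ dSA μ u v + dSA μ v z := by
  have hT : ({u, v, z} : Finset V).card ≤ k := card_le_three.trans hk
  have hu : u ∈ ({u, v, z} : Finset V) := by simp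
  have hv : v ∈ ({u, v, z} : Finset V) := by simp
  have hz : z ∈ ({u, v, z} : Finset V) := by simp
  rw [SSA_d h hT hu hz, SSA_d h hT hu hv, SSA_d h hT hv hz, ← sum_add_distrib]
  refine sum_le_sum fun A hA => ?_
  have h0 := h.nonneg _ hT A hA
  rw [← mul_add]
  refine mul_le_mul_of_nonneg_left ?_ h0
  by_cases a : u ∈ A <;> by_cases b : v ∈ A <;> by_cases c : z ∈ A <;> simp [a, b, c]

theorem SA.m_nonneg (h : SA k μ) {Q : Finset V} (hQ : Q.card + 1 ≤ k) (σ : Finset V) (u : V) :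
    0 ≤ mSA μ Q σ u := by
  unfold mSA
  refine sum_nonneg fun A hA => ?_
  split_ifs
  · exact h.nonneg _ ((card_insert_le u Q).trans hQ) A hA
  · exact le_rfl

theorem SA.m_le (h : SA k μ) {Q σ : Finset V} (hQ : Q.card + 1 ≤ k) (hσ : σ ∈ Q.powerset)
    (u : V) : mSA μ Q σ u ≤ μ Q σ := by
  have hT : (insert u Q).card ≤ k := (card_insert_le u Q).trans hQ
  rw [SSA_m h hT (mem_insert_self u Q) (subset_insert u Q), SSA_mu h hT (subset_insert u Q) hσ]
  refine sum_le_sum fun A hA => mul_le_mul_of_nonneg_left ?_ (h.nonneg _ hT A hA)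
  by_cases a : A ∩ Q = σ <;> by_cases b : u ∈ A <;> simp [a, b]

theorem SA.m_refine (h : SA k μ) {Q Q' σ : Finset V} (hQ : Q ⊆ Q') (hk : Q'.card + 1 ≤ k)
    (hσ : σ ∈ Q.powerset) (u : V) :
    mSA μ Q σ u = ∑ σ' ∈ Q'.powerset, (if σ' ∩ Q = σ then mSA μ Q' σ' u else 0) := by
  have hT : (insert u Q').card ≤ k := (card_insert_le u Q').trans hk
  have e : ∀ σ' ∈ Q'.powerset, (if σ' ∩ Q = σ then mSA μ Q' σ' u else 0) =
      ∑ A ∈ (insert u Q').powerset, (if A ∩ Q' = σ' then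
        μ (insert u Q') A * (if σ' ∩ Q = σ ∧ u ∈ A then 1 else 0) else 0) := by
    intro σ' _
    rw [SSA_m h hT (mem_insert_self u Q') (subset_insert u Q')]
    by_cases a : σ' ∩ Q = σ
    · rw [if_pos a]
      refine sum_congr rfl fun A _ => ?_
      by_cases b : A ∩ Q' = σ' <;> by_cases c : u ∈ A <;> simp [a, b, c]
    · rw [if_neg a]
      refine (sum_eq_zero fun A _ => ?_).symm
      simp [a]
  rw [sum_congr rfl e, sum_comm,
    SSA_m h hT (mem_insert_self u Q') (hQ.trans (subset_insert u Q'))]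
  refine sum_congr rfl fun A _ => ?_
  rw [SSA_fibre A fun σ' => μ (insert u Q') A * (if σ' ∩ Q = σ ∧ u ∈ A then 1 else 0),
    inter_assoc, inter_eq_right.2 hQ]

theorem SA.d_le_sum_min (h : SA k μ) {Q : Finset V} (hQ : Q.card + 2 ≤ k) (u v : V) :
    dSA μ u v ≤ ∑ σ ∈ Q.powerset, min (mSA μ Q σ u + mSA μ Q σ v)
      (2 * μ Q σ - mSA μ Q σ u - mSA μ Q σ v) := by
  have hT : (insert u (insert v Q)).card ≤ k := by
    have a := card_insert_le u (insert v Q)
    have b := card_insert_le v Q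
    omega
  have hu : u ∈ insert u (insert v Q) := mem_insert_self _ _
  have hv : v ∈ insert u (insert v Q) := mem_insert_of_mem (mem_insert_self _ _)
  have hs : Q ⊆ insert u (insert v Q) := (subset_insert _ _).trans (subset_insert _ _)
  generalize insert u (insert v Q) = T at hT hu hv hs
  have e : dSA μ u v = ∑ σ ∈ Q.powerset, ∑ A ∈ T.powerset,
      (if A ∩ Q = σ then μ T A * (if (u ∈ A ↔ v ∈ A) then 0 else 1) else 0) := by
    rw [sum_comm, SSA_d h hT hu hv]
    exact sum_congr rfl fun A _ =>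
      (SSA_fibre A fun _ => μ T A * (if (u ∈ A ↔ v ∈ A) then 0 else 1)).symm
  rw [e]
  refine sum_le_sum fun σ hσ => ?_
  rw [SSA_m h hT hu hs, SSA_m h hT hv hs, SSA_mu h hT hs hσ]
  refine le_min ?_ ?_
  · rw [← sum_add_distrib]
    refine sum_le_sum fun A hA => ?_
    have h0 := h.nonneg _ hT A hA
    by_cases a : A ∩ Q = σ <;> by_cases b : u ∈ A <;> by_cases c : v ∈ A <;> simp [a, b, c]
    linarith
  · rw [mul_sum, ← sum_sub_distrib, ← sum_sub_distrib]
    refine sum_le_sum fun A hA => ?_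
    have h0 := h.nonneg _ hT A hA
    by_cases a : A ∩ Q = σ <;> by_cases b : u ∈ A <;> by_cases c : v ∈ A <;> simp [a, b, c] <;>
      linarith

theorem SA.sum_portal (h : SA k μ) {Q : Finset V} (hQ : Q.card + 1 ≤ k) {π : V} (hπ : π ∈ Q)
    (u : V) :
    ∑ σ ∈ Q.powerset, (if π ∈ σ then μ Q σ - mSA μ Q σ u else mSA μ Q σ u) = dSA μ u π := by
  have hT : (insert u Q).card ≤ k := (card_insert_le u Q).trans hQ
  have hu : u ∈ insert u Q := mem_insert_self _ _
  have hs : Q ⊆ insert u Q := subset_insert _ _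
  generalize insert u Q = T at hT hu hs
  have e : ∀ σ ∈ Q.powerset, (if π ∈ σ then μ Q σ - mSA μ Q σ u else mSA μ Q σ u) =
      ∑ A ∈ T.powerset,
        (if A ∩ Q = σ then μ T A * (if (u ∈ A ↔ π ∈ A) then 0 else 1) else 0) := by
    intro σ hσ
    rw [SSA_m h hT hu hs, SSA_mu h hT hs hσ]
    by_cases p : π ∈ σ
    · rw [if_pos p, ← sum_sub_distrib]
      refine sum_congr rfl fun A _ => ?_
      by_cases a : A ∩ Q = σ
      · have b : π ∈ A := (mem_inter.1 (a ▸ p)).1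
        by_cases c : u ∈ A <;> simp [a, b, c]
      · simp [a]
    · rw [if_neg p]
      refine sum_congr rfl fun A _ => ?_
      by_cases a : A ∩ Q = σ
      · have b : π ∉ A := fun b => p (a ▸ mem_inter.2 ⟨b, hπ⟩)
        by_cases c : u ∈ A <;> simp [a, b, c]
      · simp [a]
  rw [sum_congr rfl e, sum_comm, SSA_d h hT hu (hs hπ)]
  exact sum_congr rfl fun A _ =>
    SSA_fibre A fun _ => μ T A * (if (u ∈ A ↔ π ∈ A) then 0 else 1)

end Pool.Agent.MP_d3be90_lc
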