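import Pool.Agent.MP_d3be90_lc.SProd
import Pool.Agent.MP_d3be90_lc.SSA

set_option autoImplicit false

open Finset
open scoped Classical

namespace Pool.Agent.MP_d3be90_lc

variable {V : Type}

/-- separation probability averaged over the traces on `Q` -/
noncomputable def sroundF [Fintype V] (μ : Finset V → Finset V → ℝ) (Q : Finset V)
    (w : Finset V → Finset V → ℝ) (u v : V) : ℝ :=
  ∑ s ∈ Q.powerset, μ Q s * prS (w s) u v

/-- a conditional rounding of `U` given the trace on `Q`, of cost at most `K` -/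
structure SroundGood [Fintype V] (μ : Finset V → Finset V → ℝ) (c : V → V → ℝ) (U Q : Finset V)
    (K : ℝ) (w : Finset V → Finset V → ℝ) : Prop where
  dist : ∀ s, IsDist (w s)
  marg : ∀ s ∈ Q.powerset, ∀ u ∈ U, μ Q s * prI (w s) u = mSA μ Q s u
  low : ∀ u ∈ U, ∀ v ∈ U, dSA μ u v ≤ 2 * sroundF μ Q w u v
  cost : ∑ u ∈ U, ∑ v ∈ U, c u v * sroundF μ Q w u v ≤ K

lemma sround_exists_dist [Fintype V] : ∃ w : Finset V → ℝ, IsDist w := by
  refine ⟨fun A => if A = ∅ then 1 else 0, fun A => ?_, ?_⟩
  · dsimp only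
    split_ifs <;> norm_num
  · simp

lemma sround_prS_self [Fintype V] (w : Finset V → ℝ) (u : V) : prS w u u = 0 := by
  simp [prS]

lemma sround_prI_nonneg [Fintype V] {w : Finset V → ℝ} (hw : IsDist w) (u : V) :
    0 ≤ prI w u :=
  sum_nonneg fun A _ => by
    split_ifs
    · exact hw.1 A
    · exact le_rfl

lemma sround_prI_le [Fintype V] {w : Finset V → ℝ} (hw : IsDist w) (u : V) :
    prI w u ≤ 1 := by
  rw [← hw.2]
  refine sum_le_sum fun A _ => ?_
  split_ifs
  · exact le_rfl
  · exact hw.1 A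

lemma sround_min_le {m a b : ℝ} (hm : 0 ≤ m) (ha : 0 ≤ a) (ha' : a ≤ 1) (hb : 0 ≤ b)
    (hb' : b ≤ 1) :
    min (m * a + m * b) (2 * m - m * a - m * b) ≤ 2 * (m * (a * (1 - b) + b * (1 - a))) := by
  rcases le_total (a + b) 1 with h | h
  · refine (min_le_left _ _).trans ?_
    have h1 : a + b ≤ 2 * (a * (1 - b) + b * (1 - a)) := by
      nlinarith [sq_nonneg (a - b), mul_nonneg (add_nonneg ha hb) (sub_nonneg.2 h)]
    have h2 := mul_le_mul_of_nonneg_left h1 hm
    linarith
  · refine (min_le_right _ _).trans ?_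
    have h0 : 0 ≤ 2 - a - b := by linarith
    have h1 : 2 - a - b ≤ 2 * (a * (1 - b) + b * (1 - a)) := by
      nlinarith [sq_nonneg (a - b), mul_nonneg h0 (sub_nonneg.2 h)]
    have h2 := mul_le_mul_of_nonneg_left h1 hm
    linarith

lemma sround_volR_nonneg {c len : V → V → ℝ} (hc : ∀ x y, 0 ≤ c x y) (hlen : ∀ x y, 0 ≤ len x y)
    (U : Finset V) : 0 ≤ volR c len U :=
  sum_nonneg fun x _ => sum_nonneg fun y _ => mul_nonneg (hc x y) (hlen x y)

/-- sets with at most one element -/
lemma sround_small [Fintype V] {k : ℕ} {μ : Finset V → Finset V → ℝ} (hμ : SA k μ)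
    (c : V → V → ℝ) {U Q : Finset V} (hU : U.card ≤ 1) (hQ : Q.card + 1 ≤ k) {K : ℝ}
    (hK : 0 ≤ K) : ∃ w, SroundGood μ c U Q K w := by
  have hF : ∀ (w : Finset V → Finset V → ℝ) (u : V), sroundF μ Q w u u = 0 := fun w u => by
    simp [sroundF, sround_prS_self]
  rcases U.eq_empty_or_nonempty with rfl | ⟨u, hu⟩
  · obtain ⟨w, hw⟩ := sround_exists_dist (V := V)
    exact ⟨fun _ => w, fun _ => hw, by simp, by simp, by simpa using hK⟩
  · have hU' : U = {u} := by
      refine eq_singleton_iff_unique_mem.2 ⟨hu, fun x hx => ?_⟩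
      exact card_le_one.1 hU x hx u hu
    subst hU'
    have key : ∀ s : Finset V, ∃ w : Finset V → ℝ, IsDist w ∧
        (s ∈ Q.powerset → μ Q s * prI w u = mSA μ Q s u) := by
      intro s
      by_cases hs : s ∈ Q.powerset
      · have h0 := hμ.m_nonneg hQ s u
        have h1 := hμ.m_le hQ hs u
        have h2 : 0 ≤ μ Q s := h0.trans h1
        obtain ⟨w, hw, hp⟩ := exists_bernoulli u (mSA μ Q s u / μ Q s) (div_nonneg h0 h2)
          (div_le_one_of_le₀ h1 h2)
        refine ⟨w, hw, fun _ => ?_⟩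
        rw [hp]
        rcases h2.eq_or_lt with h3 | h3
        · rw [← h3, zero_mul]
          linarith
        · field_simp
      · obtain ⟨w, hw⟩ := sround_exists_dist (V := V)
        exact ⟨w, hw, fun h => absurd h hs⟩
    choose w hw1 hw2 using key
    refine ⟨w, hw1, fun s hs x hx => ?_, fun x hx y hy => ?_, ?_⟩
    · rw [mem_singleton.1 hx]
      exact hw2 s hs
    · rw [mem_singleton.1 hx, mem_singleton.1 hy, dSA_self, hF]
      norm_num
    · simpa [hF] using hK

/-- forgetting part of the trace -/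
lemma sround_descend [Fintype V] {k : ℕ} {μ : Finset V → Finset V → ℝ} (hμ : SA k μ)
    (c : V → V → ℝ) {U Q Q' : Finset V} (hQ : Q ⊆ Q') (hk : Q'.card + 1 ≤ k) {K : ℝ}
    {w' : Finset V → Finset V → ℝ} (h : SroundGood μ c U Q' K w') :
    ∃ w, SroundGood μ c U Q K w := by
  have hk' : Q'.card ≤ k := by omega
  have hkQ : Q.card ≤ k := (card_le_card hQ).trans hk'
  have key : ∀ s : Finset V, ∃ w : Finset V → ℝ, IsDist w ∧ (s ∈ Q.powerset → ∀ A,
      μ Q s * w A = ∑ s' ∈ Q'.powerset, (if s' ∩ Q = s then μ Q' s' * w' s' A else 0)) := by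
    intro s
    by_cases hs : s ∈ Q.powerset
    · have hc := hμ.cons Q Q' hQ hk' s hs
      rcases (hμ.nonneg Q hkQ s hs).eq_or_lt with h0 | h0
      · obtain ⟨w, hw⟩ := sround_exists_dist (V := V)
        refine ⟨w, hw, fun _ A => ?_⟩
        rw [← h0, zero_mul]
        have hz := (sum_eq_zero_iff_of_nonneg (s := Q'.powerset)
          (f := fun A => if A ∩ Q = s then μ Q' A else 0) (fun B hB => by
            split_ifs
            · exact hμ.nonneg Q' hk' B hB
            · exact le_rfl)).1 (hc.symm.trans h0.symm)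
        refine (sum_eq_zero fun B hB => ?_).symm
        have := hz B hB
        split_ifs with e
        · rw [if_pos e] at this
          rw [this, zero_mul]
        · rfl
      · refine ⟨fun A => (∑ s' ∈ Q'.powerset, (if s' ∩ Q = s then μ Q' s' * w' s' A else 0)) /
          μ Q s, ⟨fun A => div_nonneg (sum_nonneg fun B hB => ?_) h0.le, ?_⟩, fun _ A => ?_⟩
        · split_ifs
          · exact mul_nonneg (hμ.nonneg Q' hk' B hB) ((h.dist B).1 A)
          · exact le_rfl
        · rw [← sum_div, sum_comm, div_eq_one_iff_eq h0.ne', hc]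
          refine sum_congr rfl fun B _ => ?_
          split_ifs
          · rw [← mul_sum, (h.dist B).2, mul_one]
          · simp
        · field_simp
    · obtain ⟨w, hw⟩ := sround_exists_dist (V := V)
      exact ⟨w, hw, fun h => absurd h hs⟩
  choose w hw1 hw2 using key
  have hI : ∀ s ∈ Q.powerset, ∀ u, μ Q s * prI (w s) u =
      ∑ s' ∈ Q'.powerset, (if s' ∩ Q = s then μ Q' s' * prI (w' s') u else 0) := by
    intro s hs u
    have e1 : μ Q s * prI (w s) u = ∑ A, (if u ∈ A then
        ∑ s' ∈ Q'.powerset, (if s' ∩ Q = s then μ Q' s' * w' s' A else 0) else 0) := by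
      rw [prI, mul_sum]
      refine sum_congr rfl fun A _ => ?_
      split_ifs
      · exact hw2 s hs A
      · simp
    have e2 : ∀ A : Finset V, (if u ∈ A then
        ∑ s' ∈ Q'.powerset, (if s' ∩ Q = s then μ Q' s' * w' s' A else 0) else 0) =
        ∑ s' ∈ Q'.powerset, (if s' ∩ Q = s then μ Q' s' * (if u ∈ A then w' s' A else 0)
          else 0) := by
      intro A
      split_ifs <;> simp
    rw [e1, sum_congr rfl fun A _ => e2 A, sum_comm]
    refine sum_congr rfl fun B _ => ?_
    split_ifs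
    · rw [prI, mul_sum]
    · simp
  have hS : ∀ s ∈ Q.powerset, ∀ u v, μ Q s * prS (w s) u v =
      ∑ s' ∈ Q'.powerset, (if s' ∩ Q = s then μ Q' s' * prS (w' s') u v else 0) := by
    intro s hs u v
    have e1 : μ Q s * prS (w s) u v = ∑ A, (if (u ∈ A ↔ v ∈ A) then 0 else
        ∑ s' ∈ Q'.powerset, (if s' ∩ Q = s then μ Q' s' * w' s' A else 0)) := by
      rw [prS, mul_sum]
      refine sum_congr rfl fun A _ => ?_
      split_ifs
      · simp
      · exact hw2 s hs A
    have e2 : ∀ A : Finset V, (if (u ∈ A ↔ v ∈ A) then 0 else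
        ∑ s' ∈ Q'.powerset, (if s' ∩ Q = s then μ Q' s' * w' s' A else 0)) =
        ∑ s' ∈ Q'.powerset, (if s' ∩ Q = s then
          μ Q' s' * (if (u ∈ A ↔ v ∈ A) then 0 else w' s' A) else 0) := by
      intro A
      split_ifs <;> simp
    rw [e1, sum_congr rfl fun A _ => e2 A, sum_comm]
    refine sum_congr rfl fun B _ => ?_
    split_ifs
    · rw [prS, mul_sum]
    · simp
  have hF : ∀ u v, sroundF μ Q w u v = sroundF μ Q' w' u v := by
    intro u v
    unfold sroundF
    rw [sum_congr rfl fun s hs => hS s hs u v, sum_comm]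
    refine sum_congr rfl fun B _ => ?_
    rw [sum_ite_eq, if_pos (mem_powerset.2 inter_subset_right)]
  refine ⟨w, hw1, fun s hs u hu => ?_, fun u hu v hv => ?_, ?_⟩
  · rw [hI s hs u, hμ.m_refine hQ hk hs u]
    refine sum_congr rfl fun B hB => ?_
    rw [h.marg B hB u hu]
  · rw [hF]
    exact h.low u hu v hv
  · simp only [hF]
    exact h.cost

/-- splitting a double sum according to the labels -/
lemma sround_split {ι : Type} [Fintype ι] [DecidableEq ι] (lab : V → ι) (U : Finset V)
    (f : ι → V → V → ℝ) :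
    ∑ u ∈ U, ∑ v ∈ U, (if lab u = lab v then f (lab u) u v else 0) =
      ∑ i, ∑ u ∈ U.filter (fun x => lab x = i), ∑ v ∈ U.filter (fun x => lab x = i), f i u v := by
  rw [← sum_fiberwise U lab]
  refine sum_congr rfl fun i _ => sum_congr rfl fun u hu => ?_
  have e : lab u = i := (mem_filter.1 hu).2
  rw [sum_filter, e]
  refine sum_congr rfl fun v _ => ?_
  by_cases h : lab v = i
  · rw [if_pos h, if_pos h.symm]
  · rw [if_neg h, if_neg (Ne.symm h)]

/-- gluing independent roundings of the parts -/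
lemma sround_glue [Fintype V] {k : ℕ} {μ : Finset V → Finset V → ℝ} (hμ : SA k μ)
    {c : V → V → ℝ} (hc : ∀ x y, 0 ≤ c x y) {U Q : Finset V} (hk : Q.card + 2 ≤ k)
    (lab : V → Finset V) (π : V → V → V)
    (hπ : ∀ u ∈ U, ∀ v ∈ U, lab u ≠ lab v → c u v ≠ 0 → π u v ∈ Q)
    (K : Finset V → ℝ) (W : Finset V → Finset V → Finset V → ℝ)
    (hW : ∀ i, SroundGood μ c (U.filter fun x => lab x = i) Q (K i) (W i)) :
    ∃ w, SroundGood μ c U Q (∑ i, K i + ∑ u ∈ U, ∑ v ∈ U,
      (if lab u = lab v then 0 else c u v * (dSA μ u (π u v) + dSA μ (π u v) v))) w := by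
  have hk1 : Q.card + 1 ≤ k := by omega
  have hk0 : Q.card ≤ k := by omega
  choose w hw1 hw2 hw3 hw4 using fun s : Finset V =>
    exists_prod lab (fun i => W i s) fun i => (hW i).dist s
  have hmem : ∀ u ∈ U, u ∈ U.filter fun x => lab x = lab u := fun u hu => mem_filter.2 ⟨hu, rfl⟩
  have hm : ∀ s ∈ Q.powerset, ∀ u ∈ U, μ Q s * prI (W (lab u) s) u = mSA μ Q s u :=
    fun s hs u hu => (hW (lab u)).marg s hs u (hmem u hu)
  have hsame : ∀ u v, lab u = lab v → sroundF μ Q w u v = sroundF μ Q (W (lab u)) u v := by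
    intro u v e
    unfold sroundF
    exact sum_congr rfl fun s _ => by rw [hw3 s u v e]
  refine ⟨w, hw1, fun s hs u hu => ?_, fun u hu v hv => ?_, ?_⟩
  · rw [hw2]
    exact hm s hs u hu
  · by_cases e : lab u = lab v
    · rw [hsame u v e]
      exact (hW (lab u)).low u (hmem u hu) v (mem_filter.2 ⟨hv, e.symm⟩)
    · refine (hμ.d_le_sum_min hk u v).trans ?_
      unfold sroundF
      rw [mul_sum]
      refine sum_le_sum fun s hs => ?_
      rw [← hm s hs u hu, ← hm s hs v hv, hw4 s u v e]
      exact sround_min_le (hμ.nonneg Q hk0 s hs) (sround_prI_nonneg ((hW _).dist s) u)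
        (sround_prI_le ((hW _).dist s) u) (sround_prI_nonneg ((hW _).dist s) v)
        (sround_prI_le ((hW _).dist s) v)
  · have h1 : ∑ u ∈ U, ∑ v ∈ U,
        (if lab u = lab v then c u v * sroundF μ Q (W (lab u)) u v else 0) ≤ ∑ i, K i := by
      rw [sround_split lab U fun i u v => c u v * sroundF μ Q (W i) u v]
      exact sum_le_sum fun i _ => (hW i).cost
    refine le_trans ?_ (add_le_add h1 le_rfl)
    rw [← sum_add_distrib]
    refine sum_le_sum fun u hu => ?_
    rw [← sum_add_distrib]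
    refine sum_le_sum fun v hv => ?_
    by_cases e : lab u = lab v
    · rw [if_pos e, if_pos e, hsame u v e, add_zero]
    · rw [if_neg e, if_neg e, zero_add]
      by_cases h0 : c u v = 0
      · rw [h0, zero_mul, zero_mul]
      refine mul_le_mul_of_nonneg_left ?_ (hc u v)
      have hp := hπ u hu v hv e h0
      rw [dSA_symm μ (π u v) v, ← hμ.sum_portal hk1 hp u, ← hμ.sum_portal hk1 hp v,
        ← sum_add_distrib]
      unfold sroundF
      refine sum_le_sum fun s hs => ?_
      rw [← hm s hs u hu, ← hm s hs v hv, hw4 s u v e]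
      have a0 := sround_prI_nonneg ((hW (lab u)).dist s) u
      have a1 := sround_prI_le ((hW (lab u)).dist s) u
      have b0 := sround_prI_nonneg ((hW (lab v)).dist s) v
      have b1 := sround_prI_le ((hW (lab v)).dist s) v
      have m0 := hμ.nonneg Q hk0 s hs
      generalize prI (W (lab u) s) u = a at *
      generalize prI (W (lab v) s) v = b at *
      generalize μ Q s = m at *
      split_ifs
      · have := mul_nonneg m0 (mul_nonneg (sub_nonneg.2 a1) (sub_nonneg.2 b1))
        nlinarith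
      · have := mul_nonneg m0 (mul_nonneg a0 b0)
        nlinarith

lemma sround_aux [Fintype V] {k : ℕ} {μ : Finset V → Finset V → ℝ} (hμ : SA k μ)
    (c len : V → V → ℝ) (hc : ∀ x y, 0 ≤ c x y) (hlen : ∀ x y, 0 ≤ len x y) (p : ℕ) (ε : ℝ)
    (hε : 0 ≤ ε)
    (hsep : ∀ U : Finset V, 2 ≤ U.card → Sep c len (dSA μ) U p (ε * volR c len U)) (j : ℕ) :
    ∀ U Q : Finset V, U.card ≤ 2 ^ j → Q.card + p * j + 2 ≤ k →
      ∃ w, SroundGood μ c U Q ((1 + j * ε) * volR c len U) w := by
  induction j with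
  | zero =>
    intro U Q hU hQ
    refine sround_small hμ c (by simpa using hU) (by omega) ?_
    have := sround_volR_nonneg hc hlen U
    positivity
  | succ j ih =>
    intro U Q hU hQ
    have hv := sround_volR_nonneg hc hlen U
    by_cases h1 : U.card ≤ 1
    · exact sround_small hμ c h1 (by omega) (by positivity)
    obtain ⟨lab, P, π, hP, hl, hπ, hcost⟩ := hsep U (by omega)
    have hQ' : (Q ∪ P).card + p * j + 2 ≤ k := by
      have := card_union_le Q P
      rw [mul_add, mul_one] at hQ
      omega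
    have hcard : ∀ i : Finset V, (U.filter fun x => lab x = i).card ≤ 2 ^ j := by
      intro i
      rcases (U.filter fun x => lab x = i).eq_empty_or_nonempty with e | ⟨y, hy⟩
      · rw [e]
        simp
      · have h2 : (U.filter fun x => lab x = i) ⊆ i := fun z hz => by
          have := (hl z (mem_filter.1 hz).1).1
          rwa [(mem_filter.1 hz).2] at this
        have h3 := (hl y (mem_filter.1 hy).1).2
        rw [(mem_filter.1 hy).2] at h3
        have h4 := card_le_card h2
        rw [pow_succ] at hU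
        omega
    choose W hW using fun i : Finset V => ih (U.filter fun x => lab x = i) (Q ∪ P) (hcard i) hQ'
    obtain ⟨w', hw'⟩ := sround_glue hμ hc (Q := Q ∪ P) (by omega) lab π
      (fun u hu v hv e h0 => mem_union_right _ (hπ u hu v hv e h0)) _ W hW
    obtain ⟨w, hw⟩ := sround_descend hμ c (subset_union_left (s₁ := Q) (s₂ := P)) (by omega) hw'
    refine ⟨w, hw.dist, hw.marg, hw.low, hw.cost.trans ?_⟩
    have e1 : ∑ i : Finset V, volR c len (U.filter fun x => lab x = i) =
        ∑ u ∈ U, ∑ v ∈ U, (if lab u = lab v then c u v * len u v else 0) :=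
      (sround_split lab U fun _ u v => c u v * len u v).symm
    have e2 : volR c len U = ∑ u ∈ U, ∑ v ∈ U, (if lab u = lab v then c u v * len u v else 0) +
        ∑ u ∈ U, ∑ v ∈ U, (if lab u = lab v then 0 else c u v * len u v) := by
      rw [← sum_add_distrib]
      refine sum_congr rfl fun u _ => ?_
      rw [← sum_add_distrib]
      refine sum_congr rfl fun v _ => ?_
      split_ifs <;> simp
    have h0 : 0 ≤ ∑ u ∈ U, ∑ v ∈ U, (if lab u = lab v then 0 else c u v * len u v) :=
      sum_nonneg fun u _ => sum_nonneg fun v _ => by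
        split_ifs
        · exact le_rfl
        · exact mul_nonneg (hc u v) (hlen u v)
    rw [← mul_sum, e1]
    have h5 : 0 ≤ (j : ℝ) * ε * ∑ u ∈ U, ∑ v ∈ U,
        (if lab u = lab v then 0 else c u v * len u v) := by positivity
    push_cast
    rw [e2] at hcost ⊢
    nlinarith

theorem rounding [Fintype V] {k : ℕ} {μ : Finset V → Finset V → ℝ} (hμ : SA k μ)
    (c len : V → V → ℝ) (hc : ∀ x y, 0 ≤ c x y) (hlen : ∀ x y, 0 ≤ len x y) (p j : ℕ) (ε : ℝ)
    (hε : 0 ≤ ε) (hj : Fintype.card V ≤ 2 ^ j) (hk : p * j + 2 ≤ k)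
    (hsep : ∀ U : Finset V, 2 ≤ U.card → Sep c len (dSA μ) U p (ε * volR c len U)) :
    ∃ w : Finset V → ℝ, IsDist w ∧ (∀ u v, dSA μ u v ≤ 2 * prS w u v) ∧
      ∑ u, ∑ v, c u v * prS w u v ≤ (1 + j * ε) * volR c len univ := by
  obtain ⟨w, hw⟩ := sround_aux hμ c len hc hlen p ε hε hsep j univ ∅ (by simpa using hj)
    (by simpa using hk)
  have h1 : μ ∅ ∅ = 1 := by simpa using hμ.total ∅ (by simp)
  have hF : ∀ u v, sroundF μ ∅ w u v = prS (w ∅) u v := fun u v => by
    simp [sroundF, h1]
  refine ⟨w ∅, hw.dist ∅, fun u v => ?_, ?_⟩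
  · rw [← hF]
    exact hw.low u (mem_univ u) v (mem_univ v)
  · simpa only [hF] using hw.cost

end Pool.Agent.MP_d3be90_lc
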