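import Pool.Agent.MP_d3be90_lc.SSep
import Pool.Agent.MP_d3be90_lc.SRound

set_option autoImplicit false

open Finset
open scoped Classical

namespace Pool.Agent.MP_d3be90_lc

/-- bounded lengths -/
theorem core_len (t : ℕ) (ht : 2 ≤ t) (b T : ℕ) (hT : 1 ≤ T) :
    ∀ (V : Type) [Fintype V] (G : SimpleGraph V), ¬ KMinor G t →
      ∀ lam : ℕ, 1 ≤ lam → Fintype.card V < 2 ^ lam →
      ∀ (k : ℕ) (μ : Finset V → Finset V → ℝ), SA k μ → 3 ≤ k →
        10 ^ 14 * (t + 1) ^ 6 * (b + 2) ^ 3 * T * lam ^ 8 ≤ k →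
      ∀ (c : V → V → ℝ), (∀ x y, 0 ≤ c x y) → (∀ x y, c x y = c y x) →
        (∀ x y, ¬ G.Adj x y → c x y = 0) →
      ∀ η : ℝ, 0 < η → (∀ x y, G.Adj x y → dSA μ x y / η + 1 ≤ 2 ^ (b * lam)) →
      ∀ dem : V → V → ℝ, (∀ x y, 0 ≤ dem x y) → (∀ A, cutW dem A ≤ cutW c A) →
        ∑ u, ∑ v, dem u v * dSA μ u v ≤
          2 * (1 + 1 / (T : ℝ)) * (∑ u, ∑ v, c u v * dSA μ u v + η * ∑ u, ∑ v, c u v) := by
  have h0 := exists_sep t ht b T hT
  intro V _ G hG lam hlam hn k μ hμ hk3 hk c c1 c2 c3 η hη hb dem hd hcut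
  obtain ⟨p, hp, h1⟩ := h0 V G hG lam hlam hn
  have d0 : ∀ u v, 0 ≤ dSA μ u v := hμ.d_nonneg (by omega)
  obtain ⟨l, hl⟩ : ∃ l : V → V → ℕ, l = fun x y => ⌊dSA μ x y / η⌋₊ + 1 := ⟨_, rfl⟩
  have l1 : ∀ x y, dSA μ x y / η ≤ (l x y : ℝ) := fun x y => by
    rw [hl]; push_cast; exact (Nat.lt_floor_add_one _).le
  have l2 : ∀ x y, (l x y : ℝ) ≤ dSA μ x y / η + 1 := fun x y => by
    rw [hl]; push_cast
    exact add_le_add_left (Nat.floor_le (div_nonneg (d0 x y) hη.le)) _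
  have hN : Net G c l fun x y => dSA μ x y / η := by
    refine ⟨c1, c2, fun x y e => by_contra fun h => e (c3 x y h), fun x y => ?_, fun x => ?_,
      fun x y => ?_, fun x y z => ?_, fun x y _ => l1 x y⟩
    · rw [hl]; simp only [dSA_symm μ x y]
    · rw [dSA_self, zero_div]
    · rw [dSA_symm]
    · rw [← add_div]; exact div_le_div_of_nonneg_right (hμ.d_tri hk3 x y z) hη.le
  have lT : (0 : ℝ) < lam := by positivity
  have T0 : (0 : ℝ) < T := by positivity
  obtain ⟨w, w1, w2, w3⟩ := rounding hμ c (fun x y => η * (l x y : ℝ)) c1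
    (fun x y => by positivity) p lam (1 / (lam * T)) (by positivity) hn.le (by omega)
    fun U hU => by
      refine (h1 c _ l hN (fun x y e => ⟨by rw [hl]; exact Nat.le_add_left _ _, ?_⟩) U hU).scale η
        hη.le (fun _ _ => rfl) (fun x y => by field_simp) ?_
      · have := (l2 x y).trans (hb x y e)
        exact_mod_cast this
      · simp only [volR, vol, mul_sum]
        exact sum_congr rfl fun x _ => sum_congr rfl fun y _ => by ring
  have e1 : (1 : ℝ) + lam * (1 / (lam * T)) = 1 + 1 / T := by field_simp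
  rw [e1] at w3
  have e2 : volR c (fun x y => η * (l x y : ℝ)) univ ≤
      ∑ u, ∑ v, c u v * dSA μ u v + η * ∑ u, ∑ v, c u v := by
    simp only [volR, mul_sum, ← sum_add_distrib]
    refine sum_le_sum fun x _ => sum_le_sum fun y _ => ?_
    have : η * (l x y : ℝ) ≤ dSA μ x y + η := by
      have := mul_le_mul_of_nonneg_left (l2 x y) hη.le
      rwa [mul_add, mul_div_cancel₀ _ hη.ne', mul_one] at this
    nlinarith [c1 x y]
  calc ∑ u, ∑ v, dem u v * dSA μ u v ≤ ∑ u, ∑ v, 2 * (dem u v * prS w u v) :=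
        sum_le_sum fun u _ => sum_le_sum fun v _ => by nlinarith [hd u v, w2 u v]
    _ = 2 * ∑ u, ∑ v, dem u v * prS w u v := by simp only [mul_sum]
    _ ≤ 2 * ∑ u, ∑ v, c u v * prS w u v := by
        rw [sum_prS, sum_prS]
        exact mul_le_mul_of_nonneg_left
          (sum_le_sum fun A _ => mul_le_mul_of_nonneg_left (hcut A) (w1.1 A)) (by norm_num)
    _ ≤ 2 * ((1 + 1 / (T : ℝ)) *
          (∑ u, ∑ v, c u v * dSA μ u v + η * ∑ u, ∑ v, c u v)) :=
        mul_le_mul_of_nonneg_left (w3.trans (mul_le_mul_of_nonneg_left e2 (by positivity)))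
          (by norm_num)
    _ = _ := by ring

/-- bounded capacity ratio -/
theorem core (t : ℕ) (ht : 2 ≤ t) (b T : ℕ) (hT : 1 ≤ T) :
    ∀ (V : Type) [Fintype V] (G : SimpleGraph V), ¬ KMinor G t →
      ∀ lam : ℕ, 1 ≤ lam → Fintype.card V < 2 ^ lam →
      ∀ (k : ℕ) (μ : Finset V → Finset V → ℝ), SA k μ → 3 ≤ k →
        10 ^ 14 * (t + 1) ^ 6 * (b + 2 + T + 2) ^ 3 * T * lam ^ 8 ≤ k →
      ∀ (c : V → V → ℝ) (lo : ℝ), 0 < lo → (∀ x y, c x y = c y x) →
        (∀ x y, ¬ G.Adj x y → c x y = 0) →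
        (∀ x y, G.Adj x y → lo ≤ c x y ∧ c x y ≤ lo * 2 ^ (b * lam)) →
      ∀ dem : V → V → ℝ, (∀ x y, 0 ≤ dem x y) → (∀ A, cutW dem A ≤ cutW c A) →
        ∑ u, ∑ v, dem u v * dSA μ u v ≤
          2 * (1 + 1 / (T : ℝ)) ^ 2 * ∑ u, ∑ v, c u v * dSA μ u v := by
  have h0 := core_len t ht (b + 2 + T) T hT
  intro V _ G hG lam hlam hn k μ hμ hk3 hk c lo hlo c2 c3 c4 dem hd hcut
  have c1 : ∀ x y, 0 ≤ c x y := fun x y => by
    by_cases e : G.Adj x y
    · exact hlo.le.trans (c4 x y e).1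
    · rw [c3 x y e]
  have c5 : ∀ x y, c x y ≤ lo * 2 ^ (b * lam) := fun x y => by
    by_cases e : G.Adj x y
    · exact (c4 x y e).2
    · rw [c3 x y e]; positivity
  have d0 : ∀ u v, 0 ≤ dSA μ u v := hμ.d_nonneg (by omega)
  have h1 := h0 V G hG lam hlam hn k μ hμ hk3 hk c c1 c2 c3
  have T0 : (0 : ℝ) < T := by positivity
  obtain ⟨Vol, hVol⟩ : ∃ Vol, Vol = ∑ u, ∑ v, c u v * dSA μ u v := ⟨_, rfl⟩
  obtain ⟨C, hC⟩ : ∃ C, C = ∑ u, ∑ v, c u v := ⟨_, rfl⟩
  rw [← hVol, ← hC] at h1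
  rw [← hVol]
  have C0 : 0 ≤ C := by rw [hC]; exact sum_nonneg fun u _ => sum_nonneg fun v _ => c1 u v
  have e1 : ∀ x y, G.Adj x y → lo * dSA μ x y ≤ Vol := fun x y e => by
    have nn : ∀ u v, 0 ≤ c u v * dSA μ u v := fun u v => mul_nonneg (c1 u v) (d0 u v)
    calc lo * dSA μ x y ≤ c x y * dSA μ x y := mul_le_mul_of_nonneg_right (c4 x y e).1 (d0 x y)
      _ ≤ ∑ v, c x v * dSA μ x v := single_le_sum (fun v _ => nn x v) (mem_univ y)
      _ ≤ Vol := by
        rw [hVol]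
        exact single_le_sum (f := fun u => ∑ v, c u v * dSA μ u v)
          (fun u _ => sum_nonneg fun v _ => nn u v) (mem_univ x)
  have V0 : 0 ≤ Vol := by
    rw [hVol]; exact sum_nonneg fun u _ => sum_nonneg fun v _ => mul_nonneg (c1 u v) (d0 u v)
  rcases V0.eq_or_lt with hV | hV
  · rw [← hV, mul_zero]
    refine le_of_forall_pos_le_add fun δ hδ => ?_
    have hη : 0 < δ / (2 * (1 + 1 / (T : ℝ)) * (C + 1)) := by positivity
    refine (h1 _ hη (fun x y e => ?_) dem hd hcut).trans ?_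
    · have : dSA μ x y = 0 := by
        have := e1 x y e
        rw [← hV] at this
        exact le_antisymm (by by_contra hc; push Not at hc; nlinarith [mul_pos hlo hc]) (d0 x y)
      rw [this, zero_div, zero_add]
      exact one_le_pow₀ (by norm_num)
    · rw [← hV, zero_add, zero_add]
      calc 2 * (1 + 1 / (T : ℝ)) * (δ / (2 * (1 + 1 / (T : ℝ)) * (C + 1)) * C)
          ≤ 2 * (1 + 1 / (T : ℝ)) * (δ / (2 * (1 + 1 / (T : ℝ)) * (C + 1)) * (C + 1)) := by
            gcongr; linarith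
        _ = δ := by field_simp
  · have Cp : 0 < C := by
      refine C0.lt_of_ne fun h => hV.ne' ?_
      have z : ∀ u v, c u v = 0 := fun u v =>
        (sum_eq_zero_iff_of_nonneg fun y _ => c1 u y).1
          ((sum_eq_zero_iff_of_nonneg fun x _ => sum_nonneg fun y _ => c1 x y).1
            (hC ▸ h.symm) u (mem_univ _)) v (mem_univ _)
      rw [hVol]
      simp [z]
    have hη : 0 < Vol / (T * C) := by positivity
    refine (h1 _ hη (fun x y e => ?_) dem hd hcut).trans_eq ?_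
    · have n1 : (Fintype.card V : ℝ) ≤ 2 ^ lam := by exact_mod_cast hn.le
      have f1 : C ≤ 2 ^ lam * (2 ^ lam * (lo * 2 ^ (b * lam))) := by
        rw [hC]
        calc ∑ u, ∑ v, c u v ≤ ∑ _u : V, ∑ _v : V, lo * 2 ^ (b * lam) :=
              sum_le_sum fun u _ => sum_le_sum fun v _ => c5 u v
          _ = Fintype.card V * (Fintype.card V * (lo * 2 ^ (b * lam))) := by simp
          _ ≤ _ := by gcongr
      have f2 : dSA μ x y / (Vol / (T * C)) ≤ T * (2 ^ lam * (2 ^ lam * 2 ^ (b * lam))) := by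
        rw [div_le_iff₀ hη]
        have g1 : dSA μ x y ≤ Vol / lo := by rw [le_div_iff₀ hlo, mul_comm]; exact e1 x y e
        refine g1.trans ?_
        rw [div_le_iff₀ hlo]
        calc Vol = Vol / C * C := by field_simp
          _ ≤ Vol / C * (2 ^ lam * (2 ^ lam * (lo * 2 ^ (b * lam)))) := by gcongr
          _ = _ := by field_simp
      have f3 : (T : ℝ) + 1 ≤ 2 ^ (T * lam) := by
        have : T + 1 ≤ 2 ^ (T * lam) :=
          (Nat.lt_two_pow_self (n := T)).trans_le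
            (Nat.pow_le_pow_right (by norm_num) (Nat.le_mul_of_pos_right _ hlam))
        exact_mod_cast this
      have f4 : (1 : ℝ) ≤ 2 ^ lam * (2 ^ lam * 2 ^ (b * lam)) := by
        rw [← pow_add, ← pow_add]; exact one_le_pow₀ (by norm_num)
      calc dSA μ x y / (Vol / (T * C)) + 1
          ≤ (T + 1) * (2 ^ lam * (2 ^ lam * 2 ^ (b * lam))) := by linarith
        _ ≤ 2 ^ (T * lam) * (2 ^ lam * (2 ^ lam * 2 ^ (b * lam))) := by gcongr
        _ = _ := by ring
    · field_simp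

end Pool.Agent.MP_d3be90_lc
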