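import Pool.Agent.MP_d3be90_lc.SBase

set_option autoImplicit false

open Finset
open scoped Classical

namespace Pool.Agent.MP_d3be90_lc

variable {V : Type}

/-- connected graphs of large minimum degree have small diameter -/
lemma dense_diam {G : SimpleGraph V} {R : Finset V} {δ : ℕ} (hc : Conn G R)
    (hδ : ∀ x ∈ R, δ ≤ (R.filter (G.Adj x)).card) (hR : R.card < 3 * δ) {a b : V} (ha : a ∈ R)
    (hb : b ∈ R) : Reach G (fun _ _ => 1) R a b 5 := by
  by_contra hcon
  have ex : ∀ j ≤ 5, ∃ y, Reach G (fun _ _ => 1) R a y (j + 1) ∧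
      ¬ Reach G (fun _ _ => 1) R a y j := by
    intro j hj
    by_contra h
    push Not at h
    exact hcon (((hc a ha b hb).ind (P := fun z => Reach G (fun _ _ => 1) R a z j)
      (Reach.base _ ha) fun x y _ hxy hy ih => h y (ih.step hxy hy)).mono hj)
  obtain ⟨y, y1, y2⟩ := ex 2 (by norm_num)
  obtain ⟨z, z1, z2⟩ := ex 5 le_rfl
  have d1 : Disjoint (R.filter (G.Adj a)) (R.filter (G.Adj y)) := by
    refine disjoint_left.2 fun w hw hw' => y2 ?_
    exact ((Reach.base 0 ha).step (mem_filter.1 hw).2 (mem_filter.1 hw).1).step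
      (mem_filter.1 hw').2.symm y1.last
  have d2 : Disjoint (R.filter (G.Adj a) ∪ R.filter (G.Adj y)) (R.filter (G.Adj z)) := by
    refine disjoint_left.2 fun w hw hw' => z2 ?_
    have : Reach G (fun _ _ => 1) R a w 4 := by
      rcases mem_union.1 hw with e | e
      · exact ((Reach.base 0 ha).step (mem_filter.1 e).2 (mem_filter.1 e).1).mono (by norm_num)
      · exact y1.step (mem_filter.1 e).2 (mem_filter.1 e).1
    exact this.step (mem_filter.1 hw').2.symm z1.last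
  have e1 := card_union_of_disjoint d1
  have e2 := card_union_of_disjoint d2
  have e3 : (R.filter (G.Adj a) ∪ R.filter (G.Adj y) ∪ R.filter (G.Adj z)).card ≤ R.card :=
    card_le_card (union_subset (union_subset (filter_subset _ _) (filter_subset _ _))
      (filter_subset _ _))
  have := hδ a ha
  have := hδ y y1.last
  have := hδ z z1.last
  omega

/-- small connected dominating sets -/
lemma dense_dom {G : SimpleGraph V} {R : Finset V} {δ : ℕ} (hc : Conn G R) (hne : R.Nonempty)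
    (hδ : ∀ x ∈ R, δ ≤ (R.filter (G.Adj x)).card) (hR : R.card < 3 * δ) (k : ℕ) :
    ∃ D ⊆ R, D.Nonempty ∧ Conn G D ∧ D.card ≤ 1 + 6 * k ∧
      (R.filter fun x => ¬ ∃ y ∈ D, G.Adj y x).card * 3 ^ k ≤ R.card * 2 ^ k := by
  induction k with
  | zero =>
    obtain ⟨a, ha⟩ := hne
    exact ⟨{a}, singleton_subset_iff.2 ha, singleton_nonempty _, conn_singleton _ _, by simp,
      by simpa using card_filter_le _ _⟩
  | succ k ih =>
    obtain ⟨D, h1, ⟨a, ha⟩, h3, h4, h5⟩ := ih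
    set X := R.filter fun x => ¬ ∃ y ∈ D, G.Adj y x with hX
    have hXR : X ⊆ R := filter_subset _ _
    obtain ⟨v, hv, hv'⟩ : ∃ v ∈ R, X.card ≤ 3 * (X.filter (G.Adj v)).card := by
      by_contra hcon
      push Not at hcon
      have e1 : ∑ v ∈ R, (X.filter (G.Adj v)).card = ∑ x ∈ X, (R.filter (G.Adj x)).card := by
        simp only [card_filter]
        rw [sum_comm]
        exact sum_congr rfl fun x _ => sum_congr rfl fun v _ => by simp only [G.adj_comm]
      have e2 : X.card * δ ≤ ∑ x ∈ X, (R.filter (G.Adj x)).card := by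
        rw [← smul_eq_mul]; exact card_nsmul_le_sum _ _ _ fun x hx => hδ x (hXR hx)
      have e3 : ∑ v ∈ R, 3 * (X.filter (G.Adj v)).card < ∑ _v ∈ R, X.card :=
        sum_lt_sum_of_nonempty hne hcon
      rw [← mul_sum, e1, sum_const, smul_eq_mul] at e3
      nlinarith
    obtain ⟨Y, y1, y2, y3, y4, y5⟩ := (dense_diam hc hδ hR (h1 ha) hv).exists_set
    refine ⟨D ∪ Y, union_subset h1 y1, ⟨a, mem_union_left _ ha⟩, h3.union_of_mem y5 ha y2,
      (card_union_le _ _).trans (by omega), ?_⟩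
    have e1 : (R.filter fun x => ¬ ∃ y ∈ D ∪ Y, G.Adj y x) ⊆ X \ X.filter (G.Adj v) := by
      intro x hx
      obtain ⟨p1, p2⟩ := mem_filter.1 hx
      refine mem_sdiff.2 ⟨mem_filter.2 ⟨p1, fun ⟨y, hy, e⟩ => p2 ⟨y, mem_union_left _ hy, e⟩⟩,
        fun e => p2 ⟨v, mem_union_right _ y3, (mem_filter.1 e).2⟩⟩
    have e2 := card_le_card e1
    have e3 := card_sdiff_add_card_eq_card (filter_subset (G.Adj v) X)
    have e4 : (R.filter fun x => ¬ ∃ y ∈ D ∪ Y, G.Adj y x).card * 3 ≤ X.card * 2 := by omega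
    calc _ = (R.filter fun x => ¬ ∃ y ∈ D ∪ Y, G.Adj y x).card * 3 * 3 ^ k := by ring
      _ ≤ X.card * 2 * 3 ^ k := Nat.mul_le_mul_right _ e4
      _ = X.card * 3 ^ k * 2 := by ring
      _ ≤ R.card * 2 ^ k * 2 := Nat.mul_le_mul_right _ h5
      _ = _ := by ring

lemma dense_aux (G : SimpleGraph V) (m j δ : ℕ) (hj : m < 2 ^ j) (hδ : m < 3 * δ) (t : ℕ) :
    ∀ R : Finset V, R.Nonempty → R.card ≤ m →
      (∀ x ∈ R, δ + t * (1 + 12 * j) ≤ (R.filter (G.Adj x)).card) →
      ∃ C : Fin t → Finset V, (∀ a, (C a).Nonempty ∧ Conn G (C a) ∧ C a ⊆ R) ∧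
        ∀ a b, a ≠ b → Disjoint (C a) (C b) ∧ Touch G (C a) (C b) := by
  induction t with
  | zero => exact fun _ _ _ _ => ⟨Fin.elim0, fun a => a.elim0, fun a => a.elim0⟩
  | succ t ih =>
    intro R ⟨x0, hx0⟩ hm hd
    set R' := comp G R x0 with hR'
    have s1 : R' ⊆ R := comp_subset
    have c1 := card_le_card s1
    have hd' : ∀ x ∈ R', δ + (t + 1) * (1 + 12 * j) ≤ (R'.filter (G.Adj x)).card := fun x hx =>
      (hd x (s1 hx)).trans (card_le_card fun y hy => mem_filter.2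
        ⟨comp_closed hx (mem_filter.1 hy).2 (mem_filter.1 hy).1, (mem_filter.1 hy).2⟩)
    have n1 : x0 ∈ R' := mem_comp.2 (WkM.refl hx0)
    obtain ⟨D, h1, h2, h3, h4, h5⟩ := dense_dom (δ := δ) (conn_comp G R x0) ⟨x0, n1⟩
      (fun x hx => le_trans (Nat.le_add_right _ _) (hd' x hx)) ((c1.trans hm).trans_lt hδ) (2 * j)
    have h6 : ∀ x ∈ R', ∃ y ∈ D, G.Adj y x := by
      by_contra hcon
      push Not at hcon
      obtain ⟨x, hx, hx'⟩ := hcon
      have p1 : 0 < (R'.filter fun x => ¬ ∃ y ∈ D, G.Adj y x).card :=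
        card_pos.2 ⟨x, mem_filter.2 ⟨hx, fun ⟨y, hy, e⟩ => hx' y hy e⟩⟩
      have p2 : 2 ^ j * 2 ^ (2 * j) ≤ 3 ^ (2 * j) := by
        rw [pow_mul, pow_mul, ← mul_pow]
        exact Nat.pow_le_pow_left (by norm_num) _
      have p3 : R'.card * 2 ^ (2 * j) < 2 ^ j * 2 ^ (2 * j) :=
        Nat.mul_lt_mul_of_pos_right (by omega) (by positivity)
      have p4 : 3 ^ (2 * j) ≤ (R'.filter fun x => ¬ ∃ y ∈ D, G.Adj y x).card * 3 ^ (2 * j) :=
        Nat.le_mul_of_pos_left _ p1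
      rw [← hR'] at h5
      omega
    have hd'' : ∀ x ∈ R', δ + t * (1 + 12 * j) ≤ ((R' \ D).filter (G.Adj x)).card := fun x hx => by
      have p1 := hd' x hx
      have p2 : R'.filter (G.Adj x) ⊆ (R' \ D).filter (G.Adj x) ∪ D := fun y hy => by
        by_cases e : y ∈ D
        · exact mem_union_right _ e
        · exact mem_union_left _ (mem_filter.2
            ⟨mem_sdiff.2 ⟨(mem_filter.1 hy).1, e⟩, (mem_filter.1 hy).2⟩)
      have p3 := (card_le_card p2).trans (card_union_le _ _)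
      rw [add_mul] at p1
      omega
    obtain ⟨C, k1, k2⟩ := ih (R' \ D) (by
      have := hd'' x0 n1
      exact (card_pos.1 (show 0 < ((R' \ D).filter (G.Adj x0)).card by omega)).mono
        (filter_subset _ _)) ((card_le_card sdiff_subset).trans (by omega))
      fun x hx => hd'' x (mem_sdiff.1 hx).1
    have k3 : ∀ a, Disjoint D (C a) ∧ Touch G D (C a) := fun a => by
      obtain ⟨⟨x, hx⟩, -, e⟩ := k1 a
      obtain ⟨y, hy, e'⟩ := h6 x (mem_sdiff.1 (e hx)).1
      exact ⟨disjoint_sdiff.mono_right e, y, hy, x, hx, e'⟩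
    refine ⟨Fin.cons D C, fun a => ?_, fun a b hab => ?_⟩
    · refine Fin.cases ?_ (fun a => ?_) a
      · exact ⟨h2, h3, h1.trans s1⟩
      · exact ⟨(k1 a).1, (k1 a).2.1, (k1 a).2.2.trans (sdiff_subset.trans s1)⟩
    · revert hab
      refine Fin.cases ?_ (fun a => ?_) a <;> refine Fin.cases ?_ (fun b => ?_) b
      · exact fun h => (h rfl).elim
      · exact fun _ => k3 b
      · exact fun _ => ⟨(k3 a).1.symm, (k3 a).2.symm⟩
      · exact fun h => k2 a b fun e => h (by rw [e])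

/-- dense graphs have complete minors -/
theorem dense_minor (G : SimpleGraph V) (t d : ℕ) (hd : 22500 * (t + 1) ^ 2 ≤ d) (N : Finset V)
    (hN : N.Nonempty) (hc : N.card ≤ 2 * d + 1) (hδ : ∀ x ∈ N, d ≤ (N.filter (G.Adj x)).card) :
    ∃ C : Fin t → Finset V, (∀ a, (C a).Nonempty ∧ Conn G (C a) ∧ C a ⊆ N) ∧
      ∀ a b, a ≠ b → Disjoint (C a) (C b) ∧ Touch G (C a) (C b) := by
  obtain ⟨y, hy⟩ : ∃ y, y = Nat.sqrt d := ⟨_, rfl⟩
  have y1 : y * y ≤ d := hy ▸ Nat.sqrt_le d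
  have y2 : d < (y + 1) * (y + 1) := hy ▸ Nat.lt_succ_sqrt d
  have y3 : 150 * (t + 1) ≤ y := by
    rw [hy, Nat.le_sqrt]
    calc 150 * (t + 1) * (150 * (t + 1)) = 22500 * (t + 1) ^ 2 := by ring
      _ ≤ d := hd
  have y4 : y + 1 ≤ 2 ^ y := Nat.lt_two_pow_self
  have y5 : t * (1 + 12 * (2 * y + 1)) * 3 + 2 ≤ y * y := by nlinarith
  refine dense_aux G (2 * d + 1) (2 * y + 1) (d - t * (1 + 12 * (2 * y + 1))) ?_ (by omega) t N
    hN hc fun x hx => le_trans (by omega) (hδ x hx)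
  calc 2 * d + 1 < 2 * ((y + 1) * (y + 1)) := by omega
    _ ≤ 2 * (2 ^ y * 2 ^ y) := by gcongr
    _ = _ := by ring

end Pool.Agent.MP_d3be90_lc
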