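import Pool.Agent.MP_d3be90_lc.SLayer

set_option autoImplicit false

open Finset
open scoped Classical

namespace Pool.Agent.MP_d3be90_lc

variable {V : Type}

/-- the quotient graph on the centres -/
def SDichQ (G : SimpleGraph V) (W : Finset V) (ctr : V → V) : SimpleGraph V :=
  SimpleGraph.fromRel fun a b => ∃ x ∈ W, ∃ y ∈ W, ctr x = a ∧ ctr y = b ∧ G.Adj x y

lemma SDich_adj {G : SimpleGraph V} {W : Finset V} {ctr : V → V} {a b : V} :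
    (SDichQ G W ctr).Adj a b ↔
      a ≠ b ∧ ∃ x ∈ W, ∃ y ∈ W, ctr x = a ∧ ctr y = b ∧ G.Adj x y := by
  rw [SDichQ, SimpleGraph.fromRel_adj]
  refine and_congr_right fun _ => ⟨fun h => h.elim id ?_, Or.inl⟩
  rintro ⟨x, hx, y, hy, h1, h2, h3⟩
  exact ⟨y, hy, x, hx, h2, h1, h3.symm⟩

/-- the union of the classes with centre in `X` -/
noncomputable def SDichL (W : Finset V) (ctr : V → V) (X : Finset V) : Finset V :=
  W.filter fun x => ctr x ∈ X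

lemma SDich_mem {W X : Finset V} {ctr : V → V} {x : V} :
    x ∈ SDichL W ctr X ↔ x ∈ W ∧ ctr x ∈ X := mem_filter

lemma SDich_same {G : SimpleGraph V} {W X : Finset V} {ctr : V → V}
    (hc : ∀ x ∈ W, Conn G (cls W ctr x)) {x y : V} (hx : x ∈ W) (hy : y ∈ W)
    (e : ctr y = ctr x) (hX : ctr x ∈ X) : WkM G.Adj (SDichL W ctr X) x y :=
  (hc x hx x (mem_cls.2 ⟨hx, rfl⟩) y (mem_cls.2 ⟨hy, e⟩)).monoD fun z hz =>
    SDich_mem.2 ⟨(mem_cls.1 hz).1, (mem_cls.1 hz).2 ▸ hX⟩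

lemma SDich_conn {G : SimpleGraph V} {W X : Finset V} {ctr : V → V}
    (hc : ∀ x ∈ W, Conn G (cls W ctr x)) (hX : Conn (SDichQ G W ctr) X) :
    Conn G (SDichL W ctr X) := by
  intro x hx y hy
  obtain ⟨hx1, hx2⟩ := SDich_mem.1 hx
  obtain ⟨hy1, hy2⟩ := SDich_mem.1 hy
  refine (hX _ hx2 _ hy2).ind
    (P := fun z => ∀ y ∈ W, ctr y = z → WkM G.Adj (SDichL W ctr X) x y) ?_ ?_ y hy1 rfl
  · exact fun y hy e => SDich_same hc hx1 hy e hx2
  · intro a b _ hab hb ih y hy e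
    obtain ⟨-, x', hx', y', hy', e1, e2, h3⟩ := SDich_adj.1 hab
    exact ((ih x' hx' e1).tail h3 (SDich_mem.2 ⟨hy', e2 ▸ hb⟩)).trans
      (SDich_same hc hy' hy (e.trans e2.symm) (e2 ▸ hb))

lemma SDich_minor {G : SimpleGraph V} {W : Finset V} {ctr : V → V}
    (hc : ∀ x ∈ W, Conn G (cls W ctr x)) {t : ℕ} (ht : 2 ≤ t)
    (h : KMinor (SDichQ G W ctr) t) : KMinor G t := by
  obtain ⟨B, -, h2, h3⟩ := h
  have ht' : ∀ i j, i ≠ j → Touch G (SDichL W ctr (B i)) (SDichL W ctr (B j)) := by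
    intro i j hij
    obtain ⟨a, ha, b, hb, hab⟩ := (h3 i j hij).2
    obtain ⟨-, x, hx, y, hy, e1, e2, h⟩ := SDich_adj.1 hab
    exact ⟨x, SDich_mem.2 ⟨hx, e1 ▸ ha⟩, y, SDich_mem.2 ⟨hy, e2 ▸ hb⟩, h⟩
  haveI : Nontrivial (Fin t) := Fin.nontrivial_iff_two_le.2 ht
  refine ⟨fun i => SDichL W ctr (B i), fun i => ?_, fun i => SDich_conn hc (h2 i),
    fun i j hij => ⟨?_, ht' i j hij⟩⟩
  · obtain ⟨j, hj⟩ := exists_ne i
    obtain ⟨x, hx, -⟩ := ht' i j hj.symm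
    exact ⟨x, hx⟩
  · exact disjoint_left.2 fun x hx hx' =>
      disjoint_left.1 (h3 i j hij).1 (SDich_mem.1 hx).2 (SDich_mem.1 hx').2

lemma SDich_proj [Fintype V] {G : SimpleGraph V} {W S Z : Finset V} {ctr : V → V}
    (hS : ∀ x ∈ S, x ∈ W ∧ ctr x ∉ Z) {x y : V} (h : WkM G.Adj S x y) :
    WkM (SDichQ G W ctr).Adj Zᶜ (ctr x) (ctr y) := by
  refine h.ind (P := fun z => WkM (SDichQ G W ctr).Adj Zᶜ (ctr x) (ctr z))
    (WkM.refl (mem_compl.2 (hS x h.1).2)) ?_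
  intro a b ha hab hb ih
  by_cases e : ctr a = ctr b
  · exact e ▸ ih
  · exact ih.tail (SDich_adj.2 ⟨e, a, (hS a ha.last).1, b, (hS b hb).1, rfl, rfl, hab⟩)
      (mem_compl.2 (hS b hb).2)

lemma SDich_cost {G : SimpleGraph V} {c ρ : V → V → ℝ} {W : Finset V} {τ : ℝ} (hτ : 0 ≤ τ)
    {u0 r : ℕ} {ctr : V → V} {rk : V → ℕ} {Hub : Finset V}
    (hU : Units G c ρ W W τ u0 r ctr rk Hub) (X : Finset V) (q : ℕ) (hq : X.card ≤ q) :
    SDichL W ctr X ⊆ W ∧ (∀ x ∈ W, ∀ y ∈ SDichL W ctr X, ctr x = ctr y → x ∈ SDichL W ctr X) ∧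
      (∀ y ∈ SDichL W ctr X, 2 * (cls W ctr y).card ≤ u0) ∧
      ((SDichL W ctr X).image ctr).card ≤ q ∧
      ∑ y ∈ SDichL W ctr X, ∑ x ∈ W, (if ctr x = ctr y then 0 else c y x * ρ y (ctr y)) ≤
        q * τ := by
  have hcard : ((SDichL W ctr X).image ctr).card ≤ q := by
    refine le_trans (card_le_card fun b hb => ?_) hq
    obtain ⟨y, hy, rfl⟩ := mem_image.1 hb
    exact (SDich_mem.1 hy).2
  refine ⟨filter_subset _ _, fun x hx y hy e => SDich_mem.2 ⟨hx, e ▸ (SDich_mem.1 hy).2⟩,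
    fun y hy => hU.light y (SDich_mem.1 hy).1, hcard, ?_⟩
  rw [← sum_fiberwise_of_maps_to (g := ctr) (t := (SDichL W ctr X).image ctr)
    fun y hy => mem_image_of_mem ctr hy]
  refine le_trans (sum_le_card_nsmul _ _ τ fun b hb => ?_) ?_
  · obtain ⟨x0, hx0, rfl⟩ := mem_image.1 hb
    obtain ⟨h1, h2⟩ := SDich_mem.1 hx0
    have e : (SDichL W ctr X).filter (fun y => ctr y = ctr x0) = cls W ctr x0 := by
      ext y
      rw [mem_filter, SDich_mem, mem_cls]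
      exact ⟨fun h => ⟨h.1.1, h.2⟩, fun h => ⟨⟨h.1, h.2 ▸ h2⟩, h.2⟩⟩
    rw [e]
    refine le_trans (le_of_eq (sum_congr rfl fun y hy => ?_)) (hU.cheap x0 h1)
    have e2 : W \ cls W ctr x0 = W.filter fun x => ¬ ctr x = ctr y := by
      ext z
      rw [mem_sdiff, mem_filter, mem_cls, (mem_cls.1 hy).2]
      tauto
    rw [e2, sum_filter]
    exact sum_congr rfl fun x _ => by rw [ite_not]
  · rw [nsmul_eq_mul]
    exact mul_le_mul_of_nonneg_right (Nat.cast_le.2 hcard) hτ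

theorem cover_of_units [Fintype V] {G : SimpleGraph V} {c ρ : V → V → ℝ} {l : V → V → ℕ}
    (hN : Net G c l ρ) (t : ℕ) (ht : 2 ≤ t) (hG : ¬ KMinor G t) (W : Finset V) (hW : W.Nonempty)
    (τ : ℝ) (hτ : 0 ≤ τ) (u0 r N m : ℕ) (ctr : V → V) (rk : V → ℕ) (Hub : Finset V)
    (hU : Units G c ρ W W τ u0 r ctr rk Hub) (hH : Hub.card ≤ N) (hr : 1 ≤ r) (hm : 1 ≤ m)
    (hmN : 2 * madD t * N ≤ m ^ 2) :
    Cover G c ρ W τ u0 (8 * (t + 1) * r * m) t := by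
  intro I A hA
  have hQ : ¬ KMinor (SDichQ G W ctr) t := fun h => hG (SDich_minor hU.conn ht h)
  have hhub : ∀ y z, (SDichQ G W ctr).Adj y z →
      rk y < r ∧ (y ∈ Hub ∨ ∃ y', (SDichQ G W ctr).Adj y y' ∧ rk y' < rk y) := by
    intro y z hyz
    obtain ⟨-, x, hx, -, -, rfl, -, -⟩ := SDich_adj.1 hyz
    refine ⟨hU.rk_lt x hx, (hU.hub x hx).imp id ?_⟩
    rintro ⟨x', hx', y', hy', e, h1, h2⟩
    exact ⟨ctr y', SDich_adj.2 ⟨fun e' => by rw [e'] at h2; exact lt_irrefl _ h2,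
      x', hx', y', hy', e, rfl, h1⟩, h2⟩
  choose Z hZ1 hZ2 using fun i : Fin t =>
    layer (SDichQ G W ctr) t hQ Hub rk r N m hr hm hH hhub hmN ((A i).image ctr)
  have hI : I.card ≤ t := by simpa using card_le_univ I
  have hrm : 1 ≤ r * m := Nat.mul_pos hr hm
  by_cases hc : ∃ x0 ∈ W, ∀ i ∈ I, Near (SDichQ G W ctr) ((A i).image ctr) (6 * r * m) (ctr x0)
  · obtain ⟨x0, hx0, hc⟩ := hc
    have hX : ∀ i : Fin t, ∃ X : Finset V, X.card ≤ 6 * r * m + 1 ∧ (i ∈ I →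
        ctr x0 ∈ X ∧ Conn (SDichQ G W ctr) X ∧ ∃ a ∈ A i, ctr a ∈ X) := by
      intro i
      by_cases hi : i ∈ I
      · obtain ⟨a, ha, h⟩ := hc i hi
        obtain ⟨X, -, h1, h2, h3, h4⟩ := h.exists_set
        obtain ⟨a0, ha0, rfl⟩ := mem_image.1 ha
        exact ⟨X, h3, fun _ => ⟨h2, h4, a0, ha0, h1⟩⟩
      · exact ⟨∅, by simp, fun h => absurd h hi⟩
    choose X hX1 hX2 using hX
    have hcard : (insert (ctr x0) (I.biUnion X)).card ≤ 8 * (t + 1) * r * m := by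
      have h1 := card_insert_le (ctr x0) (I.biUnion X)
      have h2 : (I.biUnion X).card ≤ t * (6 * r * m + 1) :=
        (card_biUnion_le_card_mul _ _ _ fun i _ => hX1 i).trans (Nat.mul_le_mul_right _ hI)
      have h3 : t ≤ t * (r * m) := Nat.le_mul_of_pos_right _ hrm
      nlinarith
    obtain ⟨k1, k2, k3, k4, k5⟩ := SDich_cost hτ hU _ _ hcard
    refine ⟨_, ctr, k1, k2, k3, k4, k5, Or.inl ⟨⟨x0, SDich_mem.2 ⟨hx0, mem_insert_self _ _⟩⟩,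
      SDich_conn hU.conn (conn_of_root (a := ctr x0) fun z hz => ?_), fun i hi hd => ?_⟩⟩
    · rcases mem_insert.1 hz with rfl | hz
      · exact WkM.refl (mem_insert_self _ _)
      · obtain ⟨i, hi, hz⟩ := mem_biUnion.1 hz
        exact ((hX2 i hi).2.1 _ (hX2 i hi).1 z hz).monoD
          ((subset_biUnion_of_mem X hi).trans (subset_insert _ _))
    · obtain ⟨a, ha, h⟩ := (hX2 i hi).2.2
      exact disjoint_left.1 hd
        (SDich_mem.2 ⟨hA i hi ha, mem_insert_of_mem (mem_biUnion.2 ⟨i, hi, h⟩)⟩) ha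
  · have hcard : (I.biUnion Z).card ≤ 8 * (t + 1) * r * m := by
      have h2 : (I.biUnion Z).card ≤ t * (8 * r * m) :=
        (card_biUnion_le_card_mul _ _ _ fun i _ => hZ1 i).trans (Nat.mul_le_mul_right _ hI)
      nlinarith
    obtain ⟨k1, k2, k3, k4, k5⟩ := SDich_cost hτ hU _ _ hcard
    refine ⟨_, ctr, k1, k2, k3, k4, k5, Or.inr fun S hS ⟨x0, hx0⟩ hSc => ?_⟩
    by_contra hn
    refine hc ⟨x0, (mem_sdiff.1 (hS hx0)).1, fun i hi => ?_⟩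
    obtain ⟨a, ha1, ha2⟩ := not_disjoint_iff.1 fun h => hn ⟨i, hi, h⟩
    refine hZ2 i _ (mem_image_of_mem ctr ha2) _ (SDich_proj (fun x hx => ?_) (hSc a ha1 x0 hx0))
    obtain ⟨h1, h2⟩ := mem_sdiff.1 (hS hx)
    exact ⟨h1, fun h => h2 (SDich_mem.2 ⟨h1, mem_biUnion.2 ⟨i, hi, h⟩⟩)⟩

end Pool.Agent.MP_d3be90_lc
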