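import Pool.Agent.MP_d3be90_lc.SMaderP
import Pool.Agent.MP_d3be90_lc.SColour

set_option autoImplicit false

open Finset
open scoped Classical

namespace Pool.Agent.MP_d3be90_lc

variable {V : Type}

lemma SFan_card {α : Type} [Fintype α] (P : α → Finset V)
    (hPd : ∀ i j, i ≠ j → Disjoint (P i) (P j)) (T : Finset V) (r : ℕ) (hT : T.card ≤ r + 1)
    (p0 : α) (h0 : ¬ Disjoint T (P p0)) :
    (univ.filter fun p => p ≠ p0 ∧ ¬ Disjoint T (P p)).card ≤ r := by
  obtain ⟨x0, hx0, hx0'⟩ := not_disjoint_iff.1 h0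
  have hch : ∀ p, ∃ x, ¬ Disjoint T (P p) → x ∈ T ∧ x ∈ P p := by
    intro p
    by_cases h : Disjoint T (P p)
    · exact ⟨x0, fun h' => absurd h h'⟩
    · obtain ⟨x, hx, hx'⟩ := not_disjoint_iff.1 h
      exact ⟨x, fun _ => ⟨hx, hx'⟩⟩
  choose f hf using hch
  have h1 : (univ.filter fun p => p ≠ p0 ∧ ¬ Disjoint T (P p)).card ≤ (T.erase x0).card := by
    refine card_le_card_of_injOn f ?_ ?_
    · intro p hp
      have hp' := (mem_filter.1 (mem_coe.1 hp)).2
      refine mem_coe.2 (mem_erase.2 ⟨?_, (hf p hp'.2).1⟩)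
      intro e
      exact disjoint_left.1 (hPd p p0 hp'.1) (hf p hp'.2).2 (e ▸ hx0')
    · intro p hp q hq e
      have hp' := (mem_filter.1 (mem_coe.1 hp)).2
      have hq' := (mem_filter.1 (mem_coe.1 hq)).2
      by_contra hne
      exact disjoint_left.1 (hPd p q hne) (hf p hp'.2).2 (e ▸ (hf q hq'.2).2)
  rw [card_erase_of_mem hx0] at h1
  omega

lemma SFan_pigeon (t r m : ℕ) (hr : 1 ≤ r) (hm : 1 ≤ m) (a b : Fin (2 * r) → ℕ)
    (ha : 2 * madD t * (8 * r * m) ≤ 2 * ∑ g, a g) (hb : ∑ g, b g = 8 * r * m) :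
    ∃ g, 2 * m + madD t * (b g + m) < 2 * a g := by
  by_contra hcon
  push Not at hcon
  have h1 : ∑ g, 2 * a g ≤ ∑ g, (2 * m + madD t * (b g + m)) := sum_le_sum fun g _ => hcon g
  rw [← mul_sum, sum_add_distrib, ← mul_sum, ← mul_sum, sum_add_distrib, hb] at h1
  simp only [sum_const, card_univ, Fintype.card_fin, smul_eq_mul] at h1
  have h2 : 1 ≤ madD t := madD_pos t
  have h3 : 1 ≤ r * m := Nat.mul_pos hr hm
  have h4 := ha.trans h1
  have h5 : r * m ≤ madD t * (r * m) := Nat.le_mul_of_pos_left _ h2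
  have e1 : 2 * madD t * (8 * r * m) = 16 * (madD t * (r * m)) := by ring
  have e2 : 2 * (2 * r * m) + madD t * (8 * r * m + 2 * r * m) =
      4 * (r * m) + 10 * (madD t * (r * m)) := by ring
  rw [e1, e2] at h4
  omega

lemma SFan_touch (Q : SimpleGraph V) (Pp US Zz T : Finset V) (h x0 : V) (hT : T ⊆ Zz)
    (hc : Conn Q T) (hh : h ∈ T) (hx0 : x0 ∈ T) (hx0' : x0 ∈ US) (hhU : h ∉ US)
    (hU : ∀ y ∈ T, y ∈ US → y ∈ Pp) : Touch Q Pp (comp Q (Zz \ US) h) := by
  have key : WkM Q.Adj (Zz \ US) h x0 ∨ Touch Q Pp (comp Q (Zz \ US) h) := by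
    refine (hc h hh x0 hx0).ind
      (P := fun y => WkM Q.Adj (Zz \ US) h y ∨ Touch Q Pp (comp Q (Zz \ US) h))
      (Or.inl (WkM.refl (mem_sdiff.2 ⟨hT hh, hhU⟩))) ?_
    intro x y _ hxy hy ih
    rcases ih with e | e
    · by_cases hyU : y ∈ US
      · exact Or.inr ⟨y, hU y hy hyU, x, mem_comp.2 e, hxy.symm⟩
      · exact Or.inl (e.tail hxy (mem_sdiff.2 ⟨hT hy, hyU⟩))
    · exact Or.inr e
  rcases key with e | e
  · exact absurd hx0' (mem_sdiff.1 e.last).2
  · exact e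

/-- the one-colour step -/
lemma SFan_colour {α β : Type} [Fintype β] (Q : SimpleGraph V) (t : ℕ)
    (P : α → Finset V) (hP : ∀ i, (P i).Nonempty ∧ Conn Q (P i))
    (hPd : ∀ i j, i ≠ j → Disjoint (P i) (P j))
    (Z : β → Finset V) (hZ : ∀ y z, y ≠ z → Disjoint (Z y) (Z z)) (hub : β → V)
    (S : Finset α) (E : Finset (α × β)) (T : α × β → Finset V)
    (hT : ∀ e ∈ E, T e ⊆ Z e.2 ∧ Conn Q (T e) ∧ hub e.2 ∈ T e ∧ ¬ Disjoint (T e) (P e.1))
    (hS : ∀ e ∈ E, e.1 ∈ S)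
    (hgood : ∀ e ∈ E, ∀ p ∈ S, ¬ Disjoint (T e) (P p) → p = e.1)
    (hE : 2 * Fintype.card β + madD t * (S.card + Fintype.card β) < 2 * E.card) : KMinor Q t := by
  set US := S.biUnion P with hUS
  have hU : ∀ e ∈ E, ∀ y ∈ T e, y ∈ US → y ∈ P e.1 := by
    intro e he y hy hyU
    obtain ⟨p, hp, hyp⟩ := mem_biUnion.1 hyU
    have := hgood e he p hp (not_disjoint_iff.2 ⟨y, hy, hyp⟩)
    exact this ▸ hyp
  set E' := E.filter fun e => hub e.2 ∉ US with hE'
  have hc1 : (E.filter fun e => ¬ hub e.2 ∉ US).card ≤ Fintype.card β := by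
    rw [← card_univ]
    refine card_le_card_of_injOn Prod.snd (fun _ _ => mem_coe.2 (mem_univ _)) ?_
    intro e he e' he' h
    obtain ⟨h1, h2⟩ := mem_filter.1 (mem_coe.1 he)
    obtain ⟨h1', h2'⟩ := mem_filter.1 (mem_coe.1 he')
    have a1 := hU e h1 _ (hT e h1).2.2.1 (not_not.1 h2)
    have a2 := hU e' h1' _ (hT e' h1').2.2.1 (not_not.1 h2')
    refine Prod.ext ?_ h
    by_contra hne
    have h' : e.2 = e'.2 := h
    exact disjoint_left.1 (hPd _ _ hne) a1 (h' ▸ a2)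
  have hc2 : E'.card + (E.filter fun e => ¬ hub e.2 ∉ US).card = E.card :=
    card_filter_add_card_filter_not _
  have hE'pos : 0 < E'.card := by omega
  set Zs := E'.image Prod.snd with hZs
  have hZc : Zs.card ≤ Fintype.card β := card_le_univ _
  let B : α ⊕ β → Finset V := Sum.elim P fun z => comp Q (Z z \ US) (hub z)
  have hPU : ∀ p ∈ S, P p ⊆ US := fun p hp => subset_biUnion_of_mem P hp
  have htouch : ∀ e ∈ E', Touch Q (P e.1) (comp Q (Z e.2 \ US) (hub e.2)) := by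
    intro e he
    obtain ⟨h1, h2⟩ := mem_filter.1 he
    obtain ⟨x0, hx0, hx0'⟩ := not_disjoint_iff.1 (hT e h1).2.2.2
    exact SFan_touch Q _ US _ (T e) _ x0 (hT e h1).1 (hT e h1).2.1 (hT e h1).2.2.1 hx0
      (hPU _ (hS e h1) hx0') h2 (hU e h1)
  refine maderP Q t (S.disjSum Zs) B ?_ ?_ ?_ ?_ ?_
  · obtain ⟨e, he⟩ := card_pos.1 hE'pos
    exact ⟨Sum.inr e.2, inr_mem_disjSum.2 (mem_image_of_mem _ he)⟩
  · rintro (p | z) hi
    · exact (hP p).1
    · obtain ⟨e, he, rfl⟩ := mem_image.1 (inr_mem_disjSum.1 hi)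
      obtain ⟨h1, h2⟩ := mem_filter.1 he
      exact ⟨hub e.2, mem_comp.2 (WkM.refl (mem_sdiff.2 ⟨(hT e h1).1 (hT e h1).2.2.1, h2⟩))⟩
  · rintro (p | z) _
    · exact (hP p).2
    · exact conn_comp _ _ _
  · have hmix : ∀ p ∈ S, ∀ z, Disjoint (P p) (comp Q (Z z \ US) (hub z)) := by
      intro p hp z
      refine disjoint_left.2 fun x hx hx' => ?_
      exact (mem_sdiff.1 (comp_subset hx')).2 (hPU p hp hx)
    rintro (p | z) hi (p' | z') hj hne
    · exact hPd p p' fun e => hne (e ▸ rfl)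
    · exact hmix p (inl_mem_disjSum.1 hi) z'
    · exact (hmix p' (inl_mem_disjSum.1 hj) z).symm
    · refine (hZ z z' fun e => hne (e ▸ rfl)).mono ?_ ?_
      · exact comp_subset.trans sdiff_subset
      · exact comp_subset.trans sdiff_subset
  · rw [card_disjSum]
    have h1 : madD t * (S.card + Zs.card) ≤ madD t * (S.card + Fintype.card β) :=
      Nat.mul_le_mul_left _ (by omega)
    refine h1.trans (le_trans (show _ ≤ (E'.disjSum E').card by rw [card_disjSum]; omega) ?_)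
    let f : (α × β) ⊕ (α × β) → (α ⊕ β) × (α ⊕ β) :=
      Sum.elim (fun e => (Sum.inl e.1, Sum.inr e.2)) fun e => (Sum.inr e.2, Sum.inl e.1)
    refine card_le_card_of_injOn f ?_ ?_
    · rintro (e | e) he
      · have he' := inl_mem_disjSum.1 (mem_coe.1 he)
        simp only [mem_coe, mem_filter]
        refine ⟨mem_product.2 ⟨?_, ?_⟩, ?_, ?_⟩
        · exact inl_mem_disjSum.2 (hS e (mem_filter.1 he').1)
        · exact inr_mem_disjSum.2 (mem_image_of_mem _ he')
        · exact Sum.inl_ne_inr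
        · exact htouch e he'
      · have he' := inr_mem_disjSum.1 (mem_coe.1 he)
        simp only [mem_coe, mem_filter]
        refine ⟨mem_product.2 ⟨?_, ?_⟩, ?_, ?_⟩
        · exact inr_mem_disjSum.2 (mem_image_of_mem _ he')
        · exact inl_mem_disjSum.2 (hS e (mem_filter.1 he').1)
        · exact Sum.inr_ne_inl
        · exact (htouch e he').symm
    · rintro (e | e) _ (e' | e') _ h
      · simp only [f, Sum.elim_inl, Prod.mk.injEq, Sum.inl.injEq, Sum.inr.injEq] at h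
        rw [Prod.ext h.1 h.2]
      · simp [f] at h
      · simp [f] at h
      · simp only [f, Sum.elim_inr, Prod.mk.injEq, Sum.inl.injEq, Sum.inr.injEq] at h
        rw [Prod.ext h.2 h.1]

theorem fan_minor (Q : SimpleGraph V) (t r m : ℕ) (hr : 1 ≤ r) (hm : 1 ≤ m)
    (P : Fin (8 * r * m) → Finset V) (hP : ∀ i, (P i).Nonempty ∧ Conn Q (P i))
    (hPd : ∀ i j, i ≠ j → Disjoint (P i) (P j))
    (Z : Fin m → Finset V) (hZ : ∀ y z, y ≠ z → Disjoint (Z y) (Z z)) (hub : Fin m → V)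
    (E : Finset (Fin (8 * r * m) × Fin m)) (T : Fin (8 * r * m) × Fin m → Finset V)
    (hT : ∀ e ∈ E, T e ⊆ Z e.2 ∧ Conn Q (T e) ∧ (T e).card ≤ r + 1 ∧ hub e.2 ∈ T e ∧
      ¬ Disjoint (T e) (P e.1))
    (hE : 2 * madD t * (8 * r * m) ≤ E.card) : KMinor Q t := by
  let T' : Fin (8 * r * m) × Fin m → Finset (Fin (8 * r * m)) := fun e =>
    univ.filter fun p => p ≠ e.1 ∧ ¬ Disjoint (T e) (P p)
  have hT' : ∀ e ∈ E, e.1 ∉ T' e ∧ (T' e).card ≤ r := by
    intro e he
    refine ⟨fun h => (mem_filter.1 h).2.1 rfl, ?_⟩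
    convert SFan_card P hPd (T e) r (hT e he).2.2.1 e.1 (hT e he).2.2.2.2
  obtain ⟨col, hcol⟩ := exists_colouring (2 * r) (by omega) E Prod.fst T' r hT'
  set good := E.filter fun e => ¬ ∃ p ∈ T' e, col p = col e.1 with hgood
  have hgc : E.card ≤ 2 * good.card := by
    have h1 : (E.filter fun e => ∃ p ∈ T' e, col p = col e.1).card + good.card = E.card :=
      card_filter_add_card_filter_not _
    have h2 : r * (2 * (E.filter fun e => ∃ p ∈ T' e, col p = col e.1).card) ≤ r * E.card := by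
      rw [← mul_assoc, mul_comm r 2]
      convert hcol
    have h3 := Nat.le_of_mul_le_mul_left h2 (by omega)
    omega
  have ha : ∑ g, (good.filter fun e => col e.1 = g).card = good.card :=
    (card_eq_sum_card_fiberwise (f := fun e => col e.1) (s := good) (t := univ)
      fun _ _ => mem_coe.2 (mem_univ _)).symm
  have hb : ∑ g, (univ.filter fun p => col p = g).card = 8 * r * m := by
    rw [← card_eq_sum_card_fiberwise (f := col) (s := univ) (t := univ)
      fun _ _ => mem_coe.2 (mem_univ _)]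
    simp
  obtain ⟨g, hg⟩ := SFan_pigeon t r m hr hm (fun g => (good.filter fun e => col e.1 = g).card)
    (fun g => (univ.filter fun p => col p = g).card) (by rw [ha]; omega) hb
  refine SFan_colour Q t P hP hPd Z hZ hub (univ.filter fun p => col p = g)
    (good.filter fun e => col e.1 = g) T ?_ ?_ ?_ ?_
  · intro e he
    have h := hT e (mem_filter.1 (mem_filter.1 he).1).1
    exact ⟨h.1, h.2.1, h.2.2.2.1, h.2.2.2.2⟩
  · intro e he
    exact mem_filter.2 ⟨mem_univ _, (mem_filter.1 he).2⟩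
  · intro e he p hp hd
    by_contra hne
    obtain ⟨h1, h2⟩ := mem_filter.1 he
    refine (mem_filter.1 h1).2 ⟨p, mem_filter.2 ⟨mem_univ _, hne, hd⟩, ?_⟩
    rw [h2, (mem_filter.1 hp).2]
  · rw [Fintype.card_fin]
    exact hg

end Pool.Agent.MP_d3be90_lc
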