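import Pool.Agent.MP_d3be90_lc.SState

set_option autoImplicit false

open Finset
open scoped Classical

namespace Pool.Agent.MP_d3be90_lc

variable {V : Type}

theorem State.finish {G : SimpleGraph V} {c ρ : V → V → ℝ} {l : V → V → ℕ} (hN : Net G c l ρ)
    {U : Finset V} {τ : ℝ} (hτ : 0 ≤ τ) {q t : ℕ} {W : Finset V} {I : Finset (Fin t)}
    {B P : Fin t → Finset V} {π : Fin t → V → V} (h : State G c ρ U τ q t W I B P π)
    {M : Finset V} {ctr : V → V} (hM : Marked c ρ W τ U.card q M ctr)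
    (hl : ∀ x ∈ W \ M, 2 * (comp G (W \ M) x).card ≤ U.card) :
    Sep c (fun x y => (l x y : ℝ)) ρ U ((t + 1) * q) (4 * (t + 1) * q * τ) := by
  have ρ0 := hN.ρ_nonneg
  have c0 := hN.c_nonneg
  obtain ⟨por, hpor⟩ : ∃ por : V → V, ∀ i ∈ I, ∀ y ∈ B i, por y = π i y := by
    refine ⟨fun y => if e : ∃ i ∈ I, y ∈ B i then π e.choose y else y, fun i hi y hy => ?_⟩
    have e : ∃ i ∈ I, y ∈ B i := ⟨i, hi, hy⟩
    dsimp only
    rw [dif_pos e]
    by_cases q : e.choose = i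
    · rw [q]
    · exact absurd hy (disjoint_left.1 (h.bpair _ e.choose_spec.1 _ hi q).1 e.choose_spec.2)
  obtain ⟨lab, hlab⟩ : ∃ lab : V → Finset V, lab = fun x =>
      if x ∉ W then U \ W else if x ∈ M then cls W ctr x else comp G (W \ M) x := ⟨_, rfl⟩
  obtain ⟨g, hg⟩ : ∃ g : V → V → ℝ, g = fun u v =>
      if u ∉ W ∧ v ∈ W then c u v * ρ u (por u) else 0 := ⟨_, rfl⟩
  obtain ⟨g', hg'⟩ : ∃ g' : V → V → ℝ, g' = fun u v =>
      if u ∈ M ∧ v ∈ W ∧ ctr v ≠ ctr u then c u v * ρ u (ctr u) else 0 := ⟨_, rfl⟩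
  have g0 : ∀ u v, 0 ≤ g u v := fun u v => by
    rw [hg]; dsimp only; split_ifs
    · exact mul_nonneg (c0 _ _) (ρ0 _ _)
    · exact le_rfl
  have g0' : ∀ u v, 0 ≤ g' u v := fun u v => by
    rw [hg']; dsimp only; split_ifs
    · exact mul_nonneg (c0 _ _) (ρ0 _ _)
    · exact le_rfl
  have l1 : ∀ u, u ∉ W → lab u = U \ W := fun u hu => by rw [hlab]; exact if_pos hu
  have l2 : ∀ u ∈ M, lab u = cls W ctr u := fun u hu => by
    rw [hlab]; dsimp only; rw [if_neg (not_not.2 (hM.sub hu)), if_pos hu]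
  have l3 : ∀ u ∈ W, u ∉ M → lab u = comp G (W \ M) u := fun u hu hu' => by
    rw [hlab]; dsimp only; rw [if_neg (not_not.2 hu), if_neg hu']
  have k1 : ∀ u ∈ M, ∀ v ∈ W, lab u ≠ lab v → ctr v ≠ ctr u := fun u hu v hv e e' =>
    e (by rw [l2 u hu, l2 v (hM.closed v hv u hu e'), cls, cls, e'])
  have k2 : ∀ u ∈ W, u ∉ M → ∀ v ∈ W, lab u ≠ lab v → G.Adj u v → v ∈ M :=
    fun u hu hu' v hv e a => by_contra fun hv' => e (by
      rw [l3 u hu hu', l3 v hv hv']
      exact comp_eq_of_wk ((WkM.refl (mem_sdiff.2 ⟨hu, hu'⟩)).tail a (mem_sdiff.2 ⟨hv, hv'⟩)))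
  have t1 : ∀ u v p, G.Adj u v → c u v * (ρ u p + ρ p v) ≤ c u v * l u v + 2 * (c u v * ρ u p) :=
    fun u v p a => by
      have e1 := hN.ρ_tri p u v
      have e2 := hN.ρ_le u v a
      rw [hN.ρ_symm p u] at e1
      nlinarith [c0 u v]
  have t2 : ∀ u v p, G.Adj u v → c u v * (ρ u p + ρ p v) ≤ c u v * l u v + 2 * (c v u * ρ v p) :=
    fun u v p a => by
      have e1 := hN.ρ_tri u v p
      have e2 := hN.ρ_le u v a
      rw [hN.ρ_symm p v, hN.c_symm v u]
      nlinarith [c0 u v]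
  refine ⟨lab, I.biUnion P ∪ M.image ctr, fun u v =>
    if u ∉ W then por u else if v ∉ W then por v else if u ∈ M then ctr u else ctr v,
    ?_, fun y hy => ?_, fun u hu v hv e hc => ?_, ?_⟩
  · have e1 : (I.biUnion P).card ≤ I.card * q := card_biUnion_le_card_mul _ _ _ h.pcard
    have e2 : I.card ≤ t := (card_le_univ _).trans_eq (Fintype.card_fin _)
    have e3 := hM.card
    have e4 := card_union_le (I.biUnion P) (M.image ctr)
    have e5 : I.card * q ≤ t * q := Nat.mul_le_mul_right _ e2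
    rw [add_mul]
    omega
  · by_cases h1 : y ∈ W
    · by_cases h2 : y ∈ M
      · rw [l2 y h2]; exact ⟨mem_cls.2 ⟨h1, rfl⟩, hM.light y h2⟩
      · rw [l3 y h1 h2]
        exact ⟨mem_comp.2 (WkM.refl (mem_sdiff.2 ⟨h1, h2⟩)), hl y (mem_sdiff.2 ⟨h1, h2⟩)⟩
    · rw [l1 y h1]
      have := card_sdiff_add_card_eq_card h.sub
      have := h.heavy
      exact ⟨mem_sdiff.2 ⟨hy, h1⟩, by omega⟩
  · have a := hN.c_adj u v hc
    dsimp only
    by_cases h1 : u ∈ W
    · rw [if_neg (not_not.2 h1)]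
      by_cases h2 : v ∈ W
      · rw [if_neg (not_not.2 h2)]
        refine mem_union_right _ ?_
        split_ifs with h3
        · exact mem_image_of_mem _ h3
        · exact mem_image_of_mem _ (k2 u h1 h3 v h2 e a)
      · rw [if_pos h2]
        obtain ⟨i, hi, hv'⟩ := h.edge u h1 v (mem_sdiff.2 ⟨hv, h2⟩) a
        rw [hpor i hi v hv']
        exact mem_union_left _ (mem_biUnion.2 ⟨i, hi, h.pmem i hi v hv' u h1 a.symm⟩)
    · rw [if_pos h1]
      have h2 : v ∈ W := by_contra fun h2 => e (by rw [l1 u h1, l1 v h2])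
      obtain ⟨i, hi, hu'⟩ := h.edge v h2 u (mem_sdiff.2 ⟨hu, h1⟩) a.symm
      rw [hpor i hi u hu']
      exact mem_union_left _ (mem_biUnion.2 ⟨i, hi, h.pmem i hi u hu' v h2 a⟩)
  have s1 : ∑ u ∈ U, ∑ v ∈ U, g u v ≤ t * (q * τ) := by
    have e1 : ∀ u ∈ U, ∀ v ∈ U, g u v ≤
        ∑ i ∈ I, (if u ∈ B i ∧ v ∈ W then c u v * ρ u (π i u) else 0) := by
      intro u hu v _
      have nn : ∀ i ∈ I, 0 ≤ (if u ∈ B i ∧ v ∈ W then c u v * ρ u (π i u) else 0) := by
        intro i _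
        split_ifs
        · exact mul_nonneg (c0 _ _) (ρ0 _ _)
        · exact le_rfl
      rw [hg]; dsimp only
      split_ifs with h1
      · by_cases hc : c u v = 0
        · rw [hc, zero_mul]; rw [hc] at nn; exact sum_nonneg nn
        · obtain ⟨i, hi, hu'⟩ := h.edge v h1.2 u (mem_sdiff.2 ⟨hu, h1.1⟩) (hN.c_adj u v hc).symm
          refine le_trans ?_ (single_le_sum nn hi)
          rw [if_pos ⟨hu', h1.2⟩, hpor i hi u hu']
      · exact sum_nonneg nn
    have e2 : ∀ i ∈ I, ∑ u ∈ U, ∑ v ∈ U,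
        (if u ∈ B i ∧ v ∈ W then c u v * ρ u (π i u) else 0) ≤ q * τ := by
      intro i hi
      refine le_trans ?_ (h.pcost i hi)
      simp only [ite_and, sum_ite_irrel, sum_const_zero, ← sum_filter]
      refine (sum_le_sum fun u _ => sum_le_sum_of_subset_of_nonneg
        (fun v hv => (mem_filter.1 hv).2) fun v _ _ => mul_nonneg (c0 _ _) (ρ0 _ _)).trans ?_
      exact sum_le_sum_of_subset_of_nonneg (fun u hu => (mem_filter.1 hu).2) fun u _ _ =>
        sum_nonneg fun v _ => mul_nonneg (c0 _ _) (ρ0 _ _)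
    calc ∑ u ∈ U, ∑ v ∈ U, g u v ≤ ∑ u ∈ U, ∑ v ∈ U,
          ∑ i ∈ I, (if u ∈ B i ∧ v ∈ W then c u v * ρ u (π i u) else 0) :=
          sum_le_sum fun u hu => sum_le_sum fun v hv => e1 u hu v hv
      _ = ∑ i ∈ I, ∑ u ∈ U, ∑ v ∈ U,
          (if u ∈ B i ∧ v ∈ W then c u v * ρ u (π i u) else 0) := by
          simp only [sum_comm (s := U) (t := I)]
      _ ≤ ∑ _i ∈ I, (q * τ : ℝ) := sum_le_sum e2
      _ = I.card * (q * τ) := by rw [sum_const, nsmul_eq_mul]
      _ ≤ t * (q * τ) := by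
          have : I.card ≤ t := (card_le_univ _).trans_eq (Fintype.card_fin _)
          have : (I.card : ℝ) ≤ t := by exact_mod_cast this
          gcongr
  have s2 : ∑ u ∈ U, ∑ v ∈ U, g' u v ≤ q * τ := by
    refine le_trans ?_ hM.cost
    have nn : ∀ u v, 0 ≤ (if ctr v = ctr u then 0 else c u v * ρ u (ctr u)) := fun u v => by
      split_ifs
      · exact le_rfl
      · exact mul_nonneg (c0 _ _) (ρ0 _ _)
    rw [hg']
    simp only [ite_and, sum_ite_irrel, sum_const_zero, ← sum_filter, ne_eq, ite_not]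
    refine (sum_le_sum fun u _ => sum_le_sum_of_subset_of_nonneg
      (fun v hv => (mem_filter.1 hv).2) fun v _ _ => nn u v).trans ?_
    exact sum_le_sum_of_subset_of_nonneg (fun u hu => (mem_filter.1 hu).2) fun u _ _ =>
      sum_nonneg fun v _ => nn u v
  have s3 : ∑ u ∈ U, ∑ v ∈ U, g v u = ∑ u ∈ U, ∑ v ∈ U, g u v := sum_comm
  have s4 : ∑ u ∈ U, ∑ v ∈ U, g' v u = ∑ u ∈ U, ∑ v ∈ U, g' u v := sum_comm
  refine le_trans (b := ∑ u ∈ U, ∑ v ∈ U, ((if lab u = lab v then 0 else c u v * (l u v : ℝ)) +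
    2 * (g u v + g v u + g' u v + g' v u))) (sum_le_sum fun u _ => sum_le_sum fun v _ => ?_) ?_
  · have p1 := g0 u v
    have p2 := g0 v u
    have p3 := g0' u v
    have p4 := g0' v u
    by_cases e : lab u = lab v
    · rw [if_pos e, if_pos e]; linarith
    rw [if_neg e, if_neg e]
    by_cases hc : c u v = 0
    · rw [hc, zero_mul, zero_mul]; linarith
    have a := hN.c_adj u v hc
    dsimp only
    by_cases h1 : u ∈ W
    · rw [if_neg (not_not.2 h1)]
      by_cases h2 : v ∈ W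
      · rw [if_neg (not_not.2 h2)]
        split_ifs with h3
        · have : g' u v = c u v * ρ u (ctr u) := by
            rw [hg']; exact if_pos ⟨h3, h2, k1 u h3 v h2 e⟩
          linarith [t1 u v (ctr u) a]
        · have h4 := k2 u h1 h3 v h2 e a
          have : g' v u = c v u * ρ v (ctr v) := by
            rw [hg']; exact if_pos ⟨h4, h1, k1 v h4 u h1 (Ne.symm e)⟩
          linarith [t2 u v (ctr v) a]
      · rw [if_pos h2]
        have : g v u = c v u * ρ v (por v) := by rw [hg]; exact if_pos ⟨h2, h1⟩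
        linarith [t2 u v (por v) a]
    · rw [if_pos h1]
      have h2 : v ∈ W := by_contra fun h2 => e (by rw [l1 u h1, l1 v h2])
      have : g u v = c u v * ρ u (por u) := by rw [hg]; exact if_pos ⟨h1, h2⟩
      linarith [t1 u v (por u) a]
  · simp only [sum_add_distrib, ← mul_sum]
    rw [s3, s4]
    linarith

end Pool.Agent.MP_d3be90_lc
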