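import Pool.Agent.MP_d3be90_lc.SCarve

set_option autoImplicit false

open Finset
open scoped Classical

namespace Pool.Agent.MP_d3be90_lc

variable {V : Type}

lemma SHier_short {G : SimpleGraph V} {l : V → V → ℕ} {S : Finset V} {a x : V} {r m : ℕ}
    (hl : ∀ x y, G.Adj x y → m ≤ l x y) (h : Reach G l S a x r) (hr : r < m) : x = a := by
  cases h with
  | base _ _ => rfl
  | step _ hxy _ => have := hl _ _ hxy; omega

lemma SHier_cls {C : Finset V} {ctr : V → V} {x y : V} (h : ctr x = ctr y) :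
    cls C ctr x = cls C ctr y := by
  unfold cls
  rw [h]

lemma SHier_cls_subset (C : Finset V) (ctr : V → V) (x : V) : cls C ctr x ⊆ C :=
  filter_subset _ _

lemma SHier_bd_nonneg {c : V → V → ℝ} (hc : ∀ x y, 0 ≤ c x y) (S T : Finset V) :
    0 ≤ ∑ y ∈ S, ∑ z ∈ T, c y z :=
  sum_nonneg fun y _ => sum_nonneg fun z _ => hc y z

/-- the sum of the bounds of the children -/
lemma SHier_sum {c : V → V → ℝ} {l : V → V → ℕ} (hc : ∀ x y, 0 ≤ c x y) (W C : Finset V)
    (hC : C ⊆ W) (ctr : V → V) (hid : ∀ x ∈ C, ctr (ctr x) = ctr x) (α β γ : ℝ) (hα : 0 ≤ α) :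
    ∑ b ∈ C.image ctr, (α * vol c l (cls C ctr b) +
        β * ∑ y ∈ cls C ctr b, ∑ z ∈ W \ cls C ctr b, c y z + γ * (cls C ctr b).card) ≤
      α * vol c l C + β * (∑ y ∈ C, ∑ z ∈ W \ C, c y z +
        ∑ x ∈ C, ∑ y ∈ C, (if ctr x = ctr y then 0 else c x y)) + γ * C.card := by
  set f : V → ℝ := fun y => α * ∑ z ∈ cls C ctr y, c y z * (l y z : ℝ) +
    β * ∑ z ∈ W \ cls C ctr y, c y z + γ with hf
  have h1 : ∀ b ∈ C.image ctr, α * vol c l (cls C ctr b) +
      β * ∑ y ∈ cls C ctr b, ∑ z ∈ W \ cls C ctr b, c y z + γ * (cls C ctr b).card =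
      ∑ y ∈ C.filter (fun y => ctr y = b), f y := by
    intro b hb
    obtain ⟨x, hx, rfl⟩ := mem_image.1 hb
    have e : C.filter (fun y => ctr y = ctr x) = cls C ctr (ctr x) := by
      unfold cls
      rw [hid x hx]
    rw [e]
    have e2 : ∑ y ∈ cls C ctr (ctr x), f y = ∑ y ∈ cls C ctr (ctr x),
        (α * ∑ z ∈ cls C ctr (ctr x), c y z * (l y z : ℝ) +
          β * ∑ z ∈ W \ cls C ctr (ctr x), c y z + γ) := by
      refine sum_congr rfl fun y hy => ?_
      simp only [hf]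
      rw [SHier_cls (mem_cls.1 hy).2]
    rw [e2, sum_add_distrib, sum_add_distrib, ← mul_sum, ← mul_sum, sum_const, nsmul_eq_mul,
      mul_comm _ γ]
    rfl
  rw [sum_congr rfl h1, sum_fiberwise_of_maps_to fun x hx => mem_image_of_mem ctr hx]
  have h2 : ∀ y ∈ C, f y ≤ α * ∑ z ∈ C, c y z * (l y z : ℝ) +
      β * (∑ z ∈ W \ C, c y z + ∑ z ∈ C, (if ctr y = ctr z then 0 else c y z)) + γ := by
    intro y _
    have a1 : ∑ z ∈ cls C ctr y, c y z * (l y z : ℝ) ≤ ∑ z ∈ C, c y z * (l y z : ℝ) :=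
      sum_le_sum_of_subset_of_nonneg (SHier_cls_subset _ _ _) fun z _ _ =>
        mul_nonneg (hc y z) (Nat.cast_nonneg _)
    have a2 : ∑ z ∈ W \ cls C ctr y, c y z =
        ∑ z ∈ W \ C, c y z + ∑ z ∈ C, (if ctr y = ctr z then 0 else c y z) := by
      have e1 : W \ cls C ctr y = (W \ C) ∪ C.filter (fun z => ¬ ctr y = ctr z) := by
        ext z
        simp only [mem_sdiff, mem_cls, mem_union, mem_filter]
        constructor
        · rintro ⟨h1, h2⟩
          by_cases hz : z ∈ C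
          · exact Or.inr ⟨hz, fun e => h2 ⟨hz, e.symm⟩⟩
          · exact Or.inl ⟨h1, hz⟩
        · rintro (⟨h1, h2⟩ | ⟨h1, h2⟩)
          · exact ⟨h1, fun e => h2 e.1⟩
          · exact ⟨hC h1, fun e => h2 e.2.symm⟩
      rw [e1, sum_union (disjoint_left.2 fun z hz hz' => (mem_sdiff.1 hz).2 (mem_filter.1 hz').1),
        sum_filter]
      congr 1
      refine sum_congr rfl fun z _ => ?_
      by_cases e : ctr y = ctr z <;> simp [e]
    simp only [hf]
    rw [a2]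
    have := mul_le_mul_of_nonneg_left a1 hα
    linarith
  refine (sum_le_sum h2).trans (le_of_eq ?_)
  rw [sum_add_distrib, sum_add_distrib, ← mul_sum, ← mul_sum, sum_add_distrib, sum_const,
    nsmul_eq_mul, mul_comm _ γ]
  rfl

/-- gluing the units of the bad children with the good children -/
lemma SHier_glue {G : SimpleGraph V} {c ρ : V → V → ℝ} {l : V → V → ℕ} (hN : Net G c l ρ)
    (W C : Finset V) (τ : ℝ) (u0 r r' R : ℕ) (a : V) (ctr0 : V → V) (ph : V → ℕ)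
    (h0 : ∀ x ∈ C, ctr0 x ∈ C ∧ ctr0 (ctr0 x) = ctr0 x ∧ Rad G l (cls C ctr0 x) (ctr0 x) R ∧
      ph (ctr0 x) < r' ∧
      (ctr0 x = a ∨ ∃ x' ∈ C, ∃ y ∈ C, ctr0 x' = ctr0 x ∧ G.Adj x' y ∧ ph (ctr0 y) < ph (ctr0 x)))
    (cb : V → V → V) (rb : V → V → ℕ) (Hb : V → Finset V)
    (hb : ∀ b ∈ C, Units G c ρ W (cls C ctr0 b) τ u0 r (cb b) (rb b) (Hb b))
    (Bad : V → Prop)
    (hgood : ∀ b, ¬ Bad b → (R : ℝ) * ∑ y ∈ cls C ctr0 b, ∑ z ∈ W \ cls C ctr0 b, c y z ≤ τ ∧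
      2 * (cls C ctr0 b).card ≤ u0) :
    Units G c ρ W C τ u0 (r + r') (fun x => if Bad (ctr0 x) then cb (ctr0 x) x else ctr0 x)
      (fun y => if Bad (ctr0 y) then rb (ctr0 y) y else r + ph y)
      (insert a (((C.image ctr0).filter Bad).biUnion Hb)) := by
  set ctr : V → V := fun x => if Bad (ctr0 x) then cb (ctr0 x) x else ctr0 x with hctr
  set rk : V → ℕ := fun y => if Bad (ctr0 y) then rb (ctr0 y) y else r + ph y with hrk
  have hK : ∀ x ∈ C, x ∈ cls C ctr0 (ctr0 x) := fun x hx => mem_cls.2 ⟨hx, (h0 x hx).2.1.symm⟩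
  have hU : ∀ x ∈ C, Units G c ρ W (cls C ctr0 (ctr0 x)) τ u0 r (cb (ctr0 x)) (rb (ctr0 x))
      (Hb (ctr0 x)) := fun x hx => hb _ (h0 x hx).1
  have cB : ∀ x, Bad (ctr0 x) → ctr x = cb (ctr0 x) x := fun x h => if_pos h
  have cG : ∀ x, ¬ Bad (ctr0 x) → ctr x = ctr0 x := fun x h => if_neg h
  have F1 : ∀ x ∈ C, ctr x ∈ C ∧ ctr0 (ctr x) = ctr0 x := by
    intro x hx
    by_cases h : Bad (ctr0 x)
    · rw [cB x h]
      have := mem_cls.1 ((hU x hx).mem x (hK x hx))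
      exact ⟨this.1, this.2.trans (h0 x hx).2.1⟩
    · rw [cG x h]
      exact ⟨(h0 x hx).1, (h0 x hx).2.1⟩
  have rB : ∀ x ∈ C, Bad (ctr0 x) → rk (ctr x) = rb (ctr0 x) (cb (ctr0 x) x) := by
    intro x hx h
    simp only [hrk]
    rw [(F1 x hx).2, if_pos h, cB x h]
  have rG : ∀ x ∈ C, ¬ Bad (ctr0 x) → rk (ctr x) = r + ph (ctr0 x) := by
    intro x hx h
    simp only [hrk]
    rw [(F1 x hx).2, if_neg h, cG x h]
  have F2 : ∀ x ∈ C, ∀ y ∈ C, ctr y = ctr x → ctr0 y = ctr0 x := fun x hx y hy e => by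
    rw [← (F1 x hx).2, ← (F1 y hy).2, e]
  have clB : ∀ x ∈ C, Bad (ctr0 x) →
      cls C ctr x = cls (cls C ctr0 (ctr0 x)) (cb (ctr0 x)) x := by
    intro x hx h
    ext y
    simp only [mem_cls]
    constructor
    · rintro ⟨hy, e⟩
      have e0 := F2 x hx y hy e
      refine ⟨⟨hy, e0.trans (h0 x hx).2.1.symm⟩, ?_⟩
      rw [cB x h, cB y (e0 ▸ h), e0] at e
      exact e
    · rintro ⟨⟨hy, e0⟩, e⟩
      rw [(h0 x hx).2.1] at e0
      refine ⟨hy, ?_⟩
      rw [cB x h, cB y (e0 ▸ h), e0]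
      exact e
  have clG : ∀ x ∈ C, ¬ Bad (ctr0 x) → cls C ctr x = cls C ctr0 (ctr0 x) := by
    intro x hx h
    ext y
    simp only [mem_cls]
    rw [(h0 x hx).2.1]
    constructor
    · rintro ⟨hy, e⟩
      exact ⟨hy, F2 x hx y hy e⟩
    · rintro ⟨hy, e0⟩
      refine ⟨hy, ?_⟩
      rw [cG x h, cG y (e0 ▸ h), e0]
  have hrad : ∀ x ∈ C, Rad G l (cls C ctr0 (ctr0 x)) (ctr0 x) R := fun x hx => by
    rw [SHier_cls (h0 x hx).2.1]
    exact (h0 x hx).2.2.1
  refine ⟨fun x hx => (F1 x hx).1, fun x hx => ?_, fun x hx => ?_, fun x hx => ?_,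
    fun x hx => ?_, fun x hx => ?_, fun x hx => ?_⟩
  · by_cases h : Bad (ctr0 x)
    · rw [cB (ctr x) ((F1 x hx).2 ▸ h), (F1 x hx).2, cB x h]
      exact (hU x hx).idem x (hK x hx)
    · rw [cG (ctr x) ((F1 x hx).2 ▸ h), (F1 x hx).2, cG x h]
  · by_cases h : Bad (ctr0 x)
    · rw [clB x hx h]
      exact (hU x hx).conn x (hK x hx)
    · rw [clG x hx h]
      exact (hrad x hx).conn
  · by_cases h : Bad (ctr0 x)
    · rw [clB x hx h]
      exact (hU x hx).light x (hK x hx)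
    · rw [clG x hx h]
      exact (hgood _ h).2
  · by_cases h : Bad (ctr0 x)
    · rw [clB x hx h]
      refine le_of_eq_of_le (sum_congr rfl fun y hy => ?_) ((hU x hx).cheap x (hK x hx))
      have e0 : ctr0 y = ctr0 x := (mem_cls.1 (mem_cls.1 hy).1).2.trans (h0 x hx).2.1
      rw [cB y (e0 ▸ h), e0]
    · rw [clG x hx h]
      refine le_trans ?_ (hgood _ h).1
      rw [mul_sum]
      refine sum_le_sum fun y hy => ?_
      rw [mul_sum]
      refine sum_le_sum fun z _ => ?_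
      have e0 : ctr0 y = ctr0 x := (mem_cls.1 hy).2.trans (h0 x hx).2.1
      obtain ⟨-, r0, hr0, hr⟩ := hrad x hx
      have d1 := (hr y hy).dist_le hN
      have d2 : (r0 : ℝ) ≤ R := by exact_mod_cast hr0.le
      rw [cG y (e0 ▸ h), e0, hN.ρ_symm, mul_comm]
      exact mul_le_mul_of_nonneg_right (d1.trans d2) (hN.c_nonneg _ _)
  · by_cases h : Bad (ctr0 x)
    · rw [rB x hx h]
      have := (hU x hx).rk_lt x (hK x hx)
      omega
    · rw [rG x hx h]
      have := (h0 x hx).2.2.2.1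
      omega
  · by_cases h : Bad (ctr0 x)
    · rcases (hU x hx).hub x (hK x hx) with e | ⟨x', hx', y, hy, e1, e2, e3⟩
      · refine Or.inl (mem_insert_of_mem (mem_biUnion.2 ⟨ctr0 x,
          mem_filter.2 ⟨mem_image_of_mem _ hx, h⟩, ?_⟩))
        rw [cB x h]
        exact e
      · have a1 : ctr0 x' = ctr0 x := (mem_cls.1 hx').2.trans (h0 x hx).2.1
        have a2 : ctr0 y = ctr0 x := (mem_cls.1 hy).2.trans (h0 x hx).2.1
        refine Or.inr ⟨x', (mem_cls.1 hx').1, y, (mem_cls.1 hy).1, ?_, e2, ?_⟩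
        · rw [cB x h, cB x' (a1 ▸ h), a1]
          exact e1
        · rw [rB x hx h, rB y (mem_cls.1 hy).1 (a2 ▸ h), a2]
          exact e3
    · rcases (h0 x hx).2.2.2.2 with e | ⟨x', hx', y, hy, e1, e2, e3⟩
      · refine Or.inl ?_
        rw [cG x h, e]
        exact mem_insert_self _ _
      · refine Or.inr ⟨x', hx', y, hy, ?_, e2, ?_⟩
        · rw [cG x h, cG x' (e1 ▸ h), e1]
        · rw [rG x hx h]
          by_cases h' : Bad (ctr0 y)
          · rw [rB y hy h']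
            have := (hU y hy).rk_lt y (hK y hy)
            omega
          · rw [rG y hy h']
            omega

theorem hier {G : SimpleGraph V} {c ρ : V → V → ℝ} {l : V → V → ℕ} (hN : Net G c l ρ)
    (lam n : ℕ) (hlam : 1 ≤ lam) (hn : n < 2 ^ lam) (hl : ∀ x y, G.Adj x y → 18 * lam ≤ l x y)
    (W : Finset V) (hW : W.card ≤ n) (τ : ℝ) (hτ : 0 < τ) (u0 : ℕ) (hu : 2 ≤ u0) (i : ℕ) :
    ∀ C ⊆ W, ∀ a : V, Rad G l C a (18 * lam * 2 ^ (i + 1)) →
      ∃ (ctr : V → V) (rk : V → ℕ) (Hub : Finset V),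
        Units G c ρ W C τ u0 (111 * lam * (i + 1)) ctr rk Hub ∧
        τ * Hub.card ≤ τ + 72 * lam * i * vol c l C +
          18 * lam * 2 ^ (i + 1) * ∑ y ∈ C, ∑ z ∈ W \ C, c y z + 2 * i * τ * C.card / u0 := by
  induction i with
  | zero =>
    intro C hC a hR
    obtain ⟨ctr, ph, h0, -⟩ := carve hN lam n 1 hlam hn le_rfl C ((card_le_card hC).trans hW) a
      (by rw [show 36 * lam * 1 = 18 * lam * 2 ^ (0 + 1) by ring]; exact hR)
    have hs : ∀ x ∈ C, ∀ y ∈ cls C ctr x, y = ctr x := by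
      intro x hx y hy
      obtain ⟨-, r, hr, h⟩ := (h0 x hx).2.2.1
      exact SHier_short hl (h y hy) (by omega)
    refine ⟨ctr, ph, {a}, ⟨fun x hx => (h0 x hx).1, fun x hx => (h0 x hx).2.1,
      fun x hx => (h0 x hx).2.2.1.conn, fun x hx => ?_, fun x hx => ?_, fun x hx => ?_,
      fun x hx => ?_⟩, ?_⟩
    · have : (cls C ctr x).card ≤ 1 :=
        card_le_one.2 fun y hy z hz => (hs x hx y hy).trans (hs x hx z hz).symm
      omega
    · refine le_trans (le_of_eq (sum_eq_zero fun y hy => sum_eq_zero fun z _ => ?_)) hτ.le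
      rw [(mem_cls.1 hy).2, ← hs x hx y hy, hN.ρ_self, mul_zero]
    · have := (h0 x hx).2.2.2.1
      omega
    · exact (h0 x hx).2.2.2.2.imp (fun e => mem_singleton.2 e) id
    · have := SHier_bd_nonneg hN.c_nonneg C (W \ C)
      have e : (0 : ℝ) ≤ 18 * lam * 2 ^ (0 + 1) * ∑ y ∈ C, ∑ z ∈ W \ C, c y z := by positivity
      simp only [card_singleton, Nat.cast_one, Nat.cast_zero, mul_zero, zero_mul, zero_div]
      linarith
  | succ i ih =>
    intro C hC a hR
    obtain ⟨ctr0, ph, h0, hcut⟩ := carve hN lam n (2 ^ (i + 1)) hlam hn Nat.one_le_two_pow C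
      ((card_le_card hC).trans hW) a
      (by rw [show 36 * lam * 2 ^ (i + 1) = 18 * lam * 2 ^ (i + 1 + 1) by ring]; exact hR)
    have hch : ∀ b : V, ∃ (cb : V → V) (rb : V → ℕ) (Hb : Finset V), b ∈ C →
        Units G c ρ W (cls C ctr0 b) τ u0 (111 * lam * (i + 1)) cb rb Hb ∧
        τ * Hb.card ≤ τ + 72 * lam * i * vol c l (cls C ctr0 b) +
          18 * lam * 2 ^ (i + 1) * ∑ y ∈ cls C ctr0 b, ∑ z ∈ W \ cls C ctr0 b, c y z +
          2 * i * τ * (cls C ctr0 b).card / u0 := by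
      intro b
      by_cases hb : b ∈ C
      · obtain ⟨cb, rb, Hb, h⟩ := ih (cls C ctr0 b) ((SHier_cls_subset _ _ _).trans hC) (ctr0 b)
          (h0 b hb).2.2.1
        exact ⟨cb, rb, Hb, fun _ => h⟩
      · exact ⟨id, fun _ => 0, ∅, fun h => absurd h hb⟩
    choose cb rb Hb hb using hch
    obtain ⟨Bad, hBad⟩ : ∃ Bad : V → Prop, ∀ b, Bad b ↔
        (τ < ((18 * lam * 2 ^ (i + 1) : ℕ) : ℝ) *
          ∑ y ∈ cls C ctr0 b, ∑ z ∈ W \ cls C ctr0 b, c y z ∨ u0 < 2 * (cls C ctr0 b).card) :=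
      ⟨_, fun _ => Iff.rfl⟩
    have hg := SHier_glue hN W C τ u0 (111 * lam * (i + 1)) (111 * lam) (18 * lam * 2 ^ (i + 1)) a
      ctr0 ph h0 cb rb Hb (fun b h => (hb b h).1) Bad (fun b h => by
        rw [hBad, not_or, not_lt, not_lt] at h
        exact h)
    rw [show 111 * lam * (i + 1) + 111 * lam = 111 * lam * (i + 1 + 1) by ring] at hg
    refine ⟨_, _, _, hg, ?_⟩
    have hu0 : (0 : ℝ) < u0 := by exact_mod_cast (by omega : 0 < u0)
    have c1 : ((insert a (((C.image ctr0).filter Bad).biUnion Hb)).card : ℝ) ≤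
        1 + ∑ b ∈ (C.image ctr0).filter Bad, ((Hb b).card : ℝ) := by
      have := (card_insert_le a (((C.image ctr0).filter Bad).biUnion Hb)).trans
        (Nat.add_le_add_right card_biUnion_le 1)
      rw [add_comm (1 : ℝ)]
      exact_mod_cast this
    have hα : (0 : ℝ) ≤ 72 * lam * i := by positivity
    have hβ : (0 : ℝ) ≤ 18 * lam * 2 ^ (i + 1 + 1) := by positivity
    have hγ : (0 : ℝ) ≤ 2 * (i + 1) * τ / u0 := by positivity
    have c2 : ∀ b ∈ (C.image ctr0).filter Bad, τ * ((Hb b).card : ℝ) ≤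
        72 * lam * i * vol c l (cls C ctr0 b) +
          18 * lam * 2 ^ (i + 1 + 1) * ∑ y ∈ cls C ctr0 b, ∑ z ∈ W \ cls C ctr0 b, c y z +
          2 * (i + 1) * τ / u0 * (cls C ctr0 b).card := by
      intro b hbm
      obtain ⟨hb1, hb2⟩ := mem_filter.1 hbm
      obtain ⟨x, hx, rfl⟩ := mem_image.1 hb1
      have h1 := (hb _ (h0 x hx).1).2
      set bd := ∑ y ∈ cls C ctr0 (ctr0 x), ∑ z ∈ W \ cls C ctr0 (ctr0 x), c y z with hbd
      set k : ℝ := ((cls C ctr0 (ctr0 x)).card : ℝ) with hk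
      have b0 : 0 ≤ bd := SHier_bd_nonneg hN.c_nonneg _ _
      have k0 : 0 ≤ k := Nat.cast_nonneg _
      have p1 : (0 : ℝ) ≤ 18 * lam * 2 ^ (i + 1) * bd := by positivity
      have p2 : 0 ≤ 2 * τ * k / u0 := by positivity
      have h2 : τ ≤ 18 * lam * 2 ^ (i + 1) * bd + 2 * τ * k / u0 := by
        rcases (hBad _).1 hb2 with e | e
        · push_cast at e
          linarith
        · have e' : (u0 : ℝ) ≤ 2 * k := by
            rw [hk]
            exact_mod_cast e.le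
          have : τ ≤ 2 * τ * k / u0 := by
            rw [le_div_iff₀ hu0]
            nlinarith
          linarith
      have e1 : (18 : ℝ) * lam * 2 ^ (i + 1 + 1) * bd = 2 * (18 * lam * 2 ^ (i + 1) * bd) := by
        ring
      have e2 : 2 * ((i : ℝ) + 1) * τ / u0 * k = 2 * i * τ * k / u0 + 2 * τ * k / u0 := by
        ring
      rw [e1, e2]
      linarith
    have c3 := (sum_le_sum c2).trans ((sum_le_sum_of_subset_of_nonneg (filter_subset _ _)
      fun b _ _ => by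
        have := vol_nonneg (l := l) hN.c_nonneg (cls C ctr0 b)
        have := SHier_bd_nonneg hN.c_nonneg (cls C ctr0 b) (W \ cls C ctr0 b)
        positivity).trans
      (SHier_sum (l := l) hN.c_nonneg W C hC ctr0 (fun x hx => (h0 x hx).2.1) _ _ _ hα))
    rw [← mul_sum] at c3
    have c4 := mul_le_mul_of_nonneg_left c1 hτ.le
    have c5 := mul_le_mul_of_nonneg_left hcut (show (0 : ℝ) ≤ 36 * lam by positivity)
    push_cast at c5 ⊢
    have e3 : 2 * ((i : ℝ) + 1) * τ / u0 * C.card = 2 * (i + 1) * τ * C.card / u0 := by ring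
    rw [e3] at c3
    set cut := ∑ x ∈ C, ∑ y ∈ C, (if ctr0 x = ctr0 y then 0 else c x y)
    set bd := ∑ y ∈ C, ∑ z ∈ W \ C, c y z
    have e4 : (18 : ℝ) * lam * 2 ^ (i + 1 + 1) * (bd + cut) =
        18 * lam * 2 ^ (i + 1 + 1) * bd + 36 * lam * (2 ^ (i + 1) * cut) := by ring
    rw [e4] at c3
    rw [mul_add, mul_one] at c4
    linarith

end Pool.Agent.MP_d3be90_lc
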