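import Pool.Agent.MP_d3be90_lc.SFan

set_option autoImplicit false

open Finset
open scoped Classical

namespace Pool.Agent.MP_d3be90_lc

variable {V : Type}

lemma SLayer_near_trans [Fintype V] {Q : SimpleGraph V} {A : Finset V} {D k : ℕ} {x y : V}
    (h : Near Q A D x) (h' : Reach Q (fun _ _ => 1) univ x y k) : Near Q A (D + k) y := by
  obtain ⟨a, ha, e⟩ := h
  exact ⟨a, ha, e.trans h'⟩

lemma SLayer_near_mono [Fintype V] {Q : SimpleGraph V} {A : Finset V} {D D' : ℕ} {x : V}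
    (h : Near Q A D x) (h' : D ≤ D') : Near Q A D' x := by
  obtain ⟨a, ha, e⟩ := h
  exact ⟨a, ha, e.mono h'⟩

/-- the distance from `A` -/
noncomputable def SLayer_f [Fintype V] (Q : SimpleGraph V) (A : Finset V) (y : V) : ℕ :=
  sInf {D | Near Q A D y}

lemma SLayer_f_le [Fintype V] {Q : SimpleGraph V} {A : Finset V} {D : ℕ} {y : V}
    (h : Near Q A D y) : SLayer_f Q A y ≤ D := Nat.sInf_le h

lemma SLayer_f_near [Fintype V] {Q : SimpleGraph V} {A : Finset V} {y : V}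
    (h : ∃ D, Near Q A D y) : Near Q A (SLayer_f Q A y) y :=
  Nat.sInf_mem (s := {D | Near Q A D y}) h

lemma SLayer_f_reach [Fintype V] {Q : SimpleGraph V} {A : Finset V} {x y : V} {k : ℕ}
    (h : ∃ D, Near Q A D x) (h' : Reach Q (fun _ _ => 1) univ x y k) :
    (∃ D, Near Q A D y) ∧ SLayer_f Q A y ≤ SLayer_f Q A x + k ∧
      SLayer_f Q A x ≤ SLayer_f Q A y + k := by
  have h1 := SLayer_near_trans (SLayer_f_near h) h'
  have h2 : ∃ D, Near Q A D y := ⟨_, h1⟩
  exact ⟨h2, SLayer_f_le h1,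
    SLayer_f_le (SLayer_near_trans (SLayer_f_near h2) (h'.symm fun _ _ => rfl))⟩

lemma SLayer_cross [Fintype V] {Q : SimpleGraph V} {A D : Finset V} {a b : V} {L : ℕ}
    (ha : a ∈ A) (hw : WkM Q.Adj D a b) (hb : ¬ Near Q A L b) :
    ∃ x ∈ comp Q D a, (∃ D, Near Q A D x) ∧ SLayer_f Q A x = L ∧ ∃ x', Q.Adj x x' := by
  have key : (∃ D, Near Q A D b) ∧ (SLayer_f Q A b ≤ L ∨
      ∃ x ∈ comp Q D a, (∃ D, Near Q A D x) ∧ SLayer_f Q A x = L ∧ ∃ x', Q.Adj x x') := by
    refine hw.ind (P := fun b => (∃ D, Near Q A D b) ∧ (SLayer_f Q A b ≤ L ∨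
      ∃ x ∈ comp Q D a, (∃ D, Near Q A D x) ∧ SLayer_f Q A x = L ∧ ∃ x', Q.Adj x x')) ?_ ?_
    · have h0 : Near Q A 0 a := ⟨a, ha, Reach.base _ (mem_univ _)⟩
      exact ⟨⟨0, h0⟩, Or.inl ((SLayer_f_le h0).trans (Nat.zero_le _))⟩
    · rintro x y hx hxy - ⟨h1, h2⟩
      have h3 := SLayer_f_reach h1
        (Reach.single (G := Q) (l := fun _ _ => 1) (mem_univ x) hxy (mem_univ y))
      refine ⟨h3.1, ?_⟩
      rcases h2 with h2 | h2
      · by_cases hy : SLayer_f Q A y ≤ L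
        · exact Or.inl hy
        · refine Or.inr ⟨x, mem_comp.2 hx, h1, ?_, y, hxy⟩
          have := h3.2.1
          omega
      · exact Or.inr h2
  rcases key with ⟨h1, h2 | h2⟩
  · exact absurd (SLayer_near_mono (SLayer_f_near h1) h2) hb
  · exact h2

lemma SLayer_tree [Fintype V] {Q : SimpleGraph V} {Hub : Finset V} {rk : V → ℕ} {r : ℕ}
    (hhub : ∀ y z, Q.Adj y z → rk y < r ∧ (y ∈ Hub ∨ ∃ y', Q.Adj y y' ∧ rk y' < rk y)) (n : ℕ) :
    ∀ y, rk y ≤ n → (∃ z, Q.Adj y z) → ∃ T : Finset V, Conn Q T ∧ T.card ≤ n + 1 ∧ y ∈ T ∧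
      (∃ h ∈ Hub, h ∈ T) ∧ ∀ z ∈ T, Reach Q (fun _ _ => 1) univ y z n := by
  have hs : ∀ n y, y ∈ Hub → ∃ T : Finset V, Conn Q T ∧ T.card ≤ n + 1 ∧ y ∈ T ∧
      (∃ h ∈ Hub, h ∈ T) ∧ ∀ z ∈ T, Reach Q (fun _ _ => 1) univ y z n := by
    intro n y hy
    refine ⟨{y}, conn_singleton _ _, by simp, mem_singleton_self _,
      ⟨y, hy, mem_singleton_self _⟩, fun z hz => ?_⟩
    rw [mem_singleton.1 hz]
    exact Reach.base _ (mem_univ _)
  induction n with
  | zero =>
    rintro y hy ⟨z, hz⟩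
    rcases (hhub y z hz).2 with h | ⟨y', -, h⟩
    · exact hs 0 y h
    · omega
  | succ n ih =>
    rintro y hy ⟨z, hz⟩
    rcases (hhub y z hz).2 with h | ⟨y', hy', h⟩
    · exact hs _ y h
    · obtain ⟨T, h1, h2, h3, ⟨h0, h4, h5⟩, h6⟩ := ih y' (by omega) ⟨y, hy'.symm⟩
      refine ⟨{y} ∪ T, (conn_singleton _ _).union_of_touch h1
        ⟨y, mem_singleton_self _, y', h3, hy'⟩, ?_, mem_union_left _ (mem_singleton_self _),
        ⟨h0, h4, mem_union_right _ h5⟩, fun w hw => ?_⟩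
      · have := card_union_le {y} T
        rw [card_singleton] at this
        omega
      · rcases mem_union.1 hw with hw | hw
        · rw [mem_singleton.1 hw]
          exact Reach.base _ (mem_univ _)
        · rw [add_comm]
          exact (Reach.single (G := Q) (l := fun _ _ => 1) (mem_univ y) hy' (mem_univ y')).trans
            (h6 w hw)

lemma SLayer_good (m N : ℕ) (hm : 1 ≤ m) (n : ℕ → ℕ) (hn : ∑ z ∈ range (2 * m), n z ≤ N) :
    ∃ g : Fin m → ℕ, Function.Injective g ∧ ∀ j, g j < 2 * m ∧ n (g j) * m ≤ N := by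
  have h1 : m ≤ ((range (2 * m)).filter fun z => n z * m ≤ N).card := by
    by_contra hc
    have h2 := card_filter_add_card_filter_not (s := range (2 * m)) (fun z => n z * m ≤ N)
    rw [card_range] at h2
    set B := (range (2 * m)).filter fun z => ¬ n z * m ≤ N with hB
    have h3 : B.card * (N + 1) ≤ ∑ z ∈ B, n z * m := by
      have := card_nsmul_le_sum B (fun z => n z * m) (N + 1) fun z hz => by
        have := (mem_filter.1 hz).2
        omega
      simpa using this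
    have h4 : ∑ z ∈ B, n z ≤ N :=
      (sum_le_sum_of_subset (filter_subset _ _)).trans hn
    rw [← sum_mul] at h3
    have h5 : (∑ z ∈ B, n z) * m ≤ N * m := Nat.mul_le_mul_right _ h4
    have h6 : m * (N + 1) ≤ B.card * (N + 1) := Nat.mul_le_mul_right _ (by omega)
    nlinarith
  obtain ⟨f⟩ : Nonempty (Fin m ↪ ↥((range (2 * m)).filter fun z => n z * m ≤ N)) :=
    Function.Embedding.nonempty_of_card_le (by rwa [Fintype.card_fin, Fintype.card_coe])
  exact ⟨fun j => f j, fun i j e => f.injective (Subtype.ext e), fun j =>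
    ⟨mem_range.1 (mem_filter.1 (f j).2).1, (mem_filter.1 (f j).2).2⟩⟩

lemma SLayer_popular {k : ℕ} (hk : 1 ≤ k) (S : Finset V) (h : Fin k → V) (hS : ∀ i, h i ∈ S) :
    ∃ v, k ≤ S.card * (univ.filter fun i => h i = v).card := by
  obtain ⟨v, -, hv⟩ := exists_max_image S (fun v => (univ.filter fun i => h i = v).card)
    ⟨h ⟨0, hk⟩, hS _⟩
  refine ⟨v, ?_⟩
  have h1 := card_eq_sum_card_fiberwise (s := univ) (t := S) (f := h) fun i _ => hS i
  rw [card_univ, Fintype.card_fin] at h1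
  have h2 := sum_le_card_nsmul S _ _ hv
  rw [smul_eq_mul] at h2
  exact h1.le.trans h2

theorem layer [Fintype V] (Q : SimpleGraph V) (t : ℕ) (hQ : ¬ KMinor Q t) (Hub : Finset V)
    (rk : V → ℕ) (r N m : ℕ) (hr : 1 ≤ r) (hm : 1 ≤ m) (hN : Hub.card ≤ N)
    (hhub : ∀ y z, Q.Adj y z → rk y < r ∧ (y ∈ Hub ∨ ∃ y', Q.Adj y y' ∧ rk y' < rk y))
    (hmN : 2 * madD t * N ≤ m ^ 2) (A : Finset V) :
    ∃ Z : Finset V, Z.card ≤ 8 * r * m ∧
      ∀ a ∈ A, ∀ y, WkM Q.Adj Zᶜ a y → Near Q A (6 * r * m) y := by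
  by_contra hc
  push Not at hc
  obtain ⟨a, b, D, h1, h2⟩ := menger_aux (8 * r * m)
    (univ.filter fun p : V × V => Q.Adj p.1 p.2) A (univ.filter fun y => ¬ Near Q A (6 * r * m) y)
    fun S hS => by
      obtain ⟨a, ha, y, h1, h2⟩ := hc S hS.le
      exact ⟨a, ha, y, mem_filter.2 ⟨mem_univ _, h2⟩,
        h1.mono (fun x y e => mem_filter.2 ⟨mem_univ _, e⟩) Subset.rfl⟩
  have hw : ∀ i, WkM Q.Adj (D i) (a i) (b i) := fun i =>
    (h1 i).2.2.mono (fun x y e => (mem_filter.1 e).2) Subset.rfl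
  have hk : 1 ≤ 8 * r * m := by nlinarith
  set Zn : ℕ → Finset V := fun z => univ.filter fun y =>
    z * (2 * r + 1) ≤ SLayer_f Q A y ∧ SLayer_f Q A y ≤ z * (2 * r + 1) + 2 * r with hZn
  have hZd : ∀ y z, y ≠ z → Disjoint (Zn y) (Zn z) := by
    have aux : ∀ y z, y < z → Disjoint (Zn y) (Zn z) := fun y z hyz =>
      disjoint_left.2 fun v hv hv' => by
        have p1 := (mem_filter.1 hv).2.2
        have p2 := (mem_filter.1 hv').2.1
        have p3 : (y + 1) * (2 * r + 1) ≤ z * (2 * r + 1) := Nat.mul_le_mul_right _ hyz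
        rw [add_mul, one_mul] at p3
        omega
    intro y z hyz
    rcases lt_or_gt_of_ne hyz with e | e
    · exact aux y z e
    · exact (aux z y e).symm
  have hT : ∀ (i : Fin (8 * r * m)) (z : ℕ), z < 2 * m → ∃ (T : Finset V) (h : V),
      T ⊆ Zn z ∧ Conn Q T ∧ T.card ≤ r + 1 ∧ h ∈ Hub ∧ h ∈ T ∧
        ¬ Disjoint T (comp Q (D i) (a i)) := by
    intro i z hz
    have hL : z * (2 * r + 1) + r ≤ 6 * r * m := by
      have p3 : (z + 1) * (2 * r + 1) ≤ 2 * m * (2 * r + 1) := Nat.mul_le_mul_right _ hz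
      have p4 : 1 * m ≤ r * m := Nat.mul_le_mul_right _ hr
      nlinarith
    obtain ⟨x, hx, q1, q2, q3⟩ := SLayer_cross (L := z * (2 * r + 1) + r) (h1 i).1 (hw i)
      fun e => (mem_filter.1 (h1 i).2.1).2 (SLayer_near_mono e hL)
    obtain ⟨T, t1, t2, t3, ⟨h, t4, t5⟩, t6⟩ := SLayer_tree hhub r x
      (by obtain ⟨x', e⟩ := q3; exact (hhub x x' e).1.le) q3
    refine ⟨T, h, fun w hw => ?_, t1, t2, t4, t5, fun e => disjoint_left.1 e t3 hx⟩
    obtain ⟨-, p1, p2⟩ := SLayer_f_reach q1 (t6 w hw)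
    refine mem_filter.2 ⟨mem_univ _, ?_, ?_⟩ <;> omega
  have hsum : ∑ z ∈ range (2 * m), (Hub ∩ Zn z).card ≤ N := by
    rw [← card_biUnion fun y _ z _ hyz =>
      (hZd y z hyz).mono inter_subset_right inter_subset_right]
    exact (card_le_card (biUnion_subset.2 fun z _ => inter_subset_left)).trans hN
  obtain ⟨g, hg, hg'⟩ := SLayer_good m N hm (fun z => (Hub ∩ Zn z).card) hsum
  choose T h t1 t2 t3 t4 t5 t6 using fun (i : Fin (8 * r * m)) (j : Fin m) =>
    hT i (g j) (hg' j).1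
  choose H hH using fun j : Fin m => SLayer_popular hk (Hub ∩ Zn (g j)) (fun i => h i j)
    fun i => mem_inter.2 ⟨t4 i j, t1 i j (t5 i j)⟩
  have hN1 : 1 ≤ N := (card_pos.2 ⟨_, t4 ⟨0, hk⟩ ⟨0, hm⟩⟩).trans_le hN
  refine hQ (fan_minor Q t r m hr hm (fun i => comp Q (D i) (a i))
    (fun i => ⟨⟨a i, mem_comp.2 (WkM.refl (hw i).1)⟩, conn_comp _ _ _⟩)
    (fun i j hij => (h2 i j hij).mono comp_subset comp_subset) (fun j => Zn (g j))
    (fun y z hyz => hZd _ _ (hg.ne hyz)) H (univ.filter fun e => h e.1 e.2 = H e.2)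
    (fun e => T e.1 e.2) (fun e he => ⟨t1 _ _, t2 _ _, t3 _ _, ?_, t6 _ _⟩) ?_)
  · rw [← (mem_filter.1 he).2]
    exact t5 _ _
  · have e1 : (univ.filter fun e : Fin (8 * r * m) × Fin m => h e.1 e.2 = H e.2).card =
        ∑ j : Fin m, (univ.filter fun i => h i j = H j).card := by
      simp only [card_filter]
      exact Fintype.sum_prod_type_right _
    have e2 : ∀ j : Fin m, 8 * r * m * m ≤ (univ.filter fun i => h i j = H j).card * N := by
      intro j
      have p1 := Nat.mul_le_mul_right m (hH j)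
      have p2 := Nat.mul_le_mul_left (univ.filter fun i => h i j = H j).card (hg' j).2
      calc 8 * r * m * m ≤ _ := p1
        _ = (univ.filter fun i => h i j = H j).card * ((Hub ∩ Zn (g j)).card * m) := by ring
        _ ≤ _ := p2
    have e3 : m * (8 * r * m * m) ≤ (∑ j : Fin m, (univ.filter fun i => h i j = H j).card) * N := by
      rw [sum_mul]
      have := card_nsmul_le_sum univ _ _ fun j _ => e2 j
      rwa [card_univ, Fintype.card_fin, smul_eq_mul] at this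
    rw [e1]
    refine Nat.le_of_mul_le_mul_right ?_ hN1
    calc 2 * madD t * (8 * r * m) * N = 8 * r * m * (2 * madD t * N) := by ring
      _ ≤ 8 * r * m * m ^ 2 := Nat.mul_le_mul_left _ hmN
      _ = m * (8 * r * m * m) := by ring
      _ ≤ _ := e3

end Pool.Agent.MP_d3be90_lc
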