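import Pool.Agent.MP_d3be90_lc.SState

set_option autoImplicit false

open Finset
open scoped Classical

namespace Pool.Agent.MP_d3be90_lc

variable {V : Type}

lemma SStep_cost {G : SimpleGraph V} {c ρ : V → V → ℝ} {l : V → V → ℕ} (hN : Net G c l ρ)
    {W W' M B' : Finset V} {τ : ℝ} {u0 q : ℕ} {ctr : V → V} (hM : Marked c ρ W τ u0 q M ctr)
    (hW : W' ⊆ W) (hB : ∀ y ∈ B', ∀ x ∈ W', G.Adj y x → y ∈ M ∧ x ∉ M) :
    ∑ y ∈ B', ∑ x ∈ W', c y x * ρ y (ctr y) ≤ q * τ := by
  have h0 : ∀ y x, 0 ≤ (if ctr x = ctr y then 0 else c y x * ρ y (ctr y)) := fun y x => by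
    split_ifs
    · exact le_rfl
    · exact mul_nonneg (hN.c_nonneg _ _) (hN.ρ_nonneg _ _)
  refine le_trans ?_ hM.cost
  calc ∑ y ∈ B', ∑ x ∈ W', c y x * ρ y (ctr y)
      = ∑ y ∈ B'.filter (· ∈ M), ∑ x ∈ W', c y x * ρ y (ctr y) := by
        refine (sum_filter_of_ne fun y hy hne => ?_).symm
        obtain ⟨x, hx, hx'⟩ := exists_ne_zero_of_sum_ne_zero hne
        exact (hB y hy x hx (hN.c_adj _ _ (left_ne_zero_of_mul hx'))).1
    _ ≤ ∑ y ∈ B'.filter (· ∈ M), ∑ x ∈ W, (if ctr x = ctr y then 0 else c y x * ρ y (ctr y)) := by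
        refine sum_le_sum fun y hy => ?_
        obtain ⟨hy, hyM⟩ := mem_filter.1 hy
        refine le_trans (sum_le_sum fun x hx => ?_)
          (sum_le_sum_of_subset_of_nonneg hW fun x _ _ => h0 y x)
        split_ifs with e
        · by_cases hc : c y x = 0
          · rw [hc, zero_mul]
          · exact absurd (hM.closed x (hW hx) y hyM e) (hB y hy x hx (hN.c_adj _ _ hc)).2
        · exact le_rfl
    _ ≤ _ := sum_le_sum_of_subset_of_nonneg (fun y hy => (mem_filter.1 hy).2)
        fun y _ _ => sum_nonneg fun x _ => h0 y x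

lemma SStep_mono {G : SimpleGraph V} {c ρ : V → V → ℝ} {l : V → V → ℕ} (hN : Net G c l ρ)
    {W W' B : Finset V} (hW : W' ⊆ W) (p : V → V) :
    ∑ y ∈ B, ∑ x ∈ W', c y x * ρ y (p y) ≤ ∑ y ∈ B, ∑ x ∈ W, c y x * ρ y (p y) :=
  sum_le_sum fun y _ => sum_le_sum_of_subset_of_nonneg hW fun x _ _ =>
    mul_nonneg (hN.c_nonneg y x) (hN.ρ_nonneg _ _)

lemma SStep_out {G : SimpleGraph V} {W M : Finset V} {w x y : V} (hx : x ∈ comp G (W \ M) w)
    (hxy : G.Adj x y) (hy : y ∈ W) (hy' : y ∉ comp G (W \ M) w) : y ∈ M := by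
  by_contra h
  exact hy' (comp_closed hx hxy (mem_sdiff.2 ⟨hy, h⟩))

theorem State.step_tree {G : SimpleGraph V} {c ρ : V → V → ℝ} {l : V → V → ℕ} (hN : Net G c l ρ)
    {U : Finset V} {τ : ℝ} {q t : ℕ} {W : Finset V} {I : Finset (Fin t)}
    {B P : Fin t → Finset V} {π : Fin t → V → V} (h : State G c ρ U τ q t W I B P π)
    {M : Finset V} {ctr : V → V} (hM : Marked c ρ W τ U.card q M ctr)
    (hne : M.Nonempty) (hc : Conn G M) (hA : ∀ i ∈ I, ¬ Disjoint M (att G W (B i)))
    {j : Fin t} (hj : j ∉ I) {w : V} (hw : U.card < 2 * (comp G (W \ M) w).card) :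
    ∃ (B' P' : Fin t → Finset V) (π' : Fin t → V → V),
      State G c ρ U τ q t (comp G (W \ M) w) (insert j I) B' P' π' := by
  have hs : comp G (W \ M) w ⊆ W \ M := comp_subset
  have hW : comp G (W \ M) w ⊆ W := hs.trans sdiff_subset
  have hne' : ∀ i ∈ I, i ≠ j := fun i hi e => hj (e ▸ hi)
  have hp : ∀ i ∈ I, Disjoint M (B i) ∧ Touch G M (B i) := fun i hi => by
    refine ⟨((h.bW i hi).mono_right hM.sub).symm, ?_⟩
    obtain ⟨z, hz, hz'⟩ := not_disjoint_iff.1 (hA i hi)
    obtain ⟨y, hy, e⟩ := (mem_filter.1 hz').2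
    exact ⟨z, hz, y, hy, e.symm⟩
  refine ⟨Function.update B j M, Function.update P j (M.image ctr), Function.update π j ctr,
    hW.trans h.sub, hw, conn_comp _ _ _, ?_, ?_, ?_, ?_, ?_, ?_, ?_, ?_⟩
  · intro i hi
    rcases mem_insert.1 hi with rfl | hi
    · rwa [Function.update_self]
    · rw [Function.update_of_ne (hne' i hi)]; exact h.bne i hi
  · intro i hi
    rcases mem_insert.1 hi with rfl | hi
    · rwa [Function.update_self]
    · rw [Function.update_of_ne (hne' i hi)]; exact h.bconn i hi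
  · intro i hi
    rcases mem_insert.1 hi with rfl | hi
    · rw [Function.update_self]; exact disjoint_sdiff.mono_right hs
    · rw [Function.update_of_ne (hne' i hi)]; exact (h.bW i hi).mono_right hW
  · intro i hi0 k hk0 hik
    rcases mem_insert.1 hi0 with rfl | hi <;> rcases mem_insert.1 hk0 with rfl | hk
    · exact absurd rfl hik
    · rw [Function.update_self, Function.update_of_ne (hne' k hk)]; exact hp k hk
    · rw [Function.update_self, Function.update_of_ne (hne' i hi)]
      exact ⟨(hp i hi).1.symm, (hp i hi).2.symm⟩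
    · rw [Function.update_of_ne (hne' i hi), Function.update_of_ne (hne' k hk)]
      exact h.bpair i hi k hk hik
  · intro x hx y hy hxy
    obtain ⟨hyU, hy'⟩ := mem_sdiff.1 hy
    by_cases hyW : y ∈ W
    · exact ⟨j, mem_insert_self _ _, by rw [Function.update_self]; exact SStep_out hx hxy hyW hy'⟩
    · obtain ⟨i, hi, e⟩ := h.edge x (hW hx) y (mem_sdiff.2 ⟨hyU, hyW⟩) hxy
      exact ⟨i, mem_insert_of_mem hi, by rwa [Function.update_of_ne (hne' i hi)]⟩
  · intro i hi
    rcases mem_insert.1 hi with rfl | hi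
    · rw [Function.update_self]; exact hM.card
    · rw [Function.update_of_ne (hne' i hi)]; exact h.pcard i hi
  · intro i hi
    rcases mem_insert.1 hi with rfl | hi
    · simp only [Function.update_self]
      exact fun y hy _ _ _ => mem_image_of_mem _ hy
    · simp only [Function.update_of_ne (hne' i hi)]
      exact fun y hy x hx e => h.pmem i hi y hy x (hW hx) e
  · intro i hi
    rcases mem_insert.1 hi with rfl | hi
    · simp only [Function.update_self]
      exact SStep_cost hN hM hW fun y hy x hx _ => ⟨hy, (mem_sdiff.1 (hs hx)).2⟩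
    · simp only [Function.update_of_ne (hne' i hi)]
      exact (SStep_mono hN hW _).trans (h.pcost i hi)

theorem State.step_sep {G : SimpleGraph V} {c ρ : V → V → ℝ} {l : V → V → ℕ} (hN : Net G c l ρ)
    {U : Finset V} {τ : ℝ} {q t : ℕ} {W : Finset V} {I : Finset (Fin t)}
    {B P : Fin t → Finset V} {π : Fin t → V → V} (h : State G c ρ U τ q t W I B P π)
    {M : Finset V} {ctr : V → V} (hM : Marked c ρ W τ U.card q M ctr)
    {i : Fin t} (hi : i ∈ I) (hA : (att G W (B i)).Nonempty) {w : V}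
    (hw : U.card < 2 * (comp G (W \ M) w).card)
    (hd : Disjoint (comp G (W \ M) w) (att G W (B i))) :
    ∃ (W' : Finset V) (B' P' : Fin t → Finset V) (π' : Fin t → V → V),
      W'.card < W.card ∧ State G c ρ U τ q t W' I B' P' π' := by
  obtain ⟨W1, hW1⟩ : ∃ W1, W1 = comp G (W \ M) w := ⟨_, rfl⟩
  obtain ⟨E, hE⟩ : ∃ E : Finset V, ∀ x, x ∈ E ↔ ∃ a ∈ att G W (B i), WkM G.Adj (W \ W1) a x :=
    ⟨(W \ W1).filter fun x => ∃ a ∈ att G W (B i), WkM G.Adj (W \ W1) a x, fun x =>
      mem_filter.trans ⟨And.right, fun e => ⟨e.choose_spec.2.last, e⟩⟩⟩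
  have hs : W1 ⊆ W \ M := hW1 ▸ comp_subset
  have h1W : W1 ⊆ W := hs.trans sdiff_subset
  have hEs : E ⊆ W \ W1 := fun x hx => ((hE x).1 hx).choose_spec.2.last
  have hEW : E ⊆ W := hEs.trans sdiff_subset
  have hatt : att G W (B i) ⊆ E := fun a ha =>
    (hE a).2 ⟨a, ha, WkM.refl (mem_sdiff.2 ⟨(mem_filter.1 ha).1, fun e =>
      disjoint_left.1 hd (hW1 ▸ e) ha⟩)⟩
  have hcl : ∀ y ∈ E, ∀ x ∈ W \ W1, G.Adj y x → x ∈ E := fun y hy x hx e => by
    obtain ⟨a, ha, hk⟩ := (hE y).1 hy
    exact (hE x).2 ⟨a, ha, hk.tail e hx⟩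
  have h1 : W1 ⊆ W \ E := fun x hx =>
    mem_sdiff.2 ⟨h1W hx, fun e => (mem_sdiff.1 (hEs e)).2 hx⟩
  have hW' : W \ E ⊆ W := sdiff_subset
  have hw1 : w ∈ W1 := by
    obtain ⟨x, hx⟩ : (comp G (W \ M) w).Nonempty := card_pos.1 (by omega)
    exact hW1 ▸ mem_comp.2 (WkM.refl (mem_comp.1 hx).1)
  have hc1 : Conn G W1 := hW1 ▸ conn_comp _ _ _
  have key : ∀ y ∈ B i ∪ E, ∀ x ∈ W \ E, G.Adj y x → y ∈ M ∧ x ∉ M := fun y hy x hx e => by
    obtain ⟨hxW, hxE⟩ := mem_sdiff.1 hx
    rcases mem_union.1 hy with hy | hy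
    · exact absurd (hatt (mem_filter.2 ⟨hxW, y, hy, e⟩)) hxE
    · have hx1 : x ∈ W1 := by
        by_contra h'
        exact hxE (hcl y hy x (mem_sdiff.2 ⟨hxW, h'⟩) e)
      exact ⟨SStep_out (hW1 ▸ hx1) e.symm (hEW hy) (hW1 ▸ (mem_sdiff.1 (hEs hy)).2),
        (mem_sdiff.1 (hs hx1)).2⟩
  have hsub : ∀ k, B k ⊆ Function.update B i (B i ∪ E) k := fun k => by
    by_cases e : k = i
    · rw [e, Function.update_self]; exact subset_union_left
    · rw [Function.update_of_ne e]
  have hdis : ∀ k ∈ I, i ≠ k → Disjoint (B i ∪ E) (B k) := fun k hk e =>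
    disjoint_union_left.2 ⟨(h.bpair i hi k hk e).1, ((h.bW k hk).mono_right hEW).symm⟩
  refine ⟨W \ E, Function.update B i (B i ∪ E), Function.update P i (M.image ctr),
    Function.update π i ctr, ?_, hW'.trans h.sub, ?_, ?_, fun k hk => (h.bne k hk).mono (hsub k),
    ?_, ?_, ?_, ?_, ?_, ?_, ?_⟩
  · obtain ⟨a, ha⟩ := hA
    exact card_lt_card ((ssubset_iff_of_subset hW').2
      ⟨a, hEW (hatt ha), fun e => (mem_sdiff.1 e).2 (hatt ha)⟩)
  · have := card_le_card h1
    rw [← hW1] at hw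
    omega
  · refine conn_of_root (a := w) fun x hx => WkM.symm' ?_
    have := (h.conn x (hW' hx) w (h1W hw1)).ind
      (P := fun z => WkM G.Adj (W \ E) x z ∨ WkM G.Adj (W \ E) x w) (Or.inl (WkM.refl hx)) ?_
    · exact this.elim id id
    · rintro z y - hzy hy (e | e)
      · by_cases hz : z ∈ W1
        · exact Or.inr (e.trans ((hc1 z hz w hw1).monoD h1))
        · refine Or.inl (e.tail hzy (mem_sdiff.2 ⟨hy, fun hyE => ?_⟩))
          have hz' := mem_sdiff.1 e.last
          exact hz'.2 (hcl y hyE z (mem_sdiff.2 ⟨hz'.1, hz⟩) hzy.symm)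
      · exact Or.inr e
  · intro k hk
    by_cases e : k = i
    · rw [e, Function.update_self]
      obtain ⟨b, hb⟩ := h.bne i hi
      refine conn_of_root (a := b) fun x hx => (mem_union.1 hx).elim
        (fun hx => (h.bconn i hi b hb x hx).monoD subset_union_left) fun hx => ?_
      obtain ⟨a, ha, hk⟩ := (hE x).1 hx
      obtain ⟨y, hy, hya⟩ := (mem_filter.1 ha).2
      refine hk.ind (P := fun z => WkM G.Adj (B i ∪ E) b z)
        (((h.bconn i hi b hb y hy).monoD subset_union_left).tail hya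
          (mem_union_right _ (hatt ha))) fun u v hu huv hv ih => ?_
      exact ih.tail huv (mem_union_right _ ((hE v).2 ⟨a, ha, hu.tail huv hv⟩))
    · rw [Function.update_of_ne e]; exact h.bconn k hk
  · intro k hk
    by_cases e : k = i
    · rw [e, Function.update_self]
      exact disjoint_union_left.2 ⟨(h.bW i hi).mono_right hW', disjoint_sdiff⟩
    · rw [Function.update_of_ne e]; exact (h.bW k hk).mono_right hW'
  · intro k hk m hm hkm
    refine ⟨?_, ?_⟩
    · by_cases e : k = i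
      · subst e
        rw [Function.update_self, Function.update_of_ne hkm.symm]; exact hdis m hm hkm
      · by_cases e' : m = i
        · subst e'
          rw [Function.update_self, Function.update_of_ne e]; exact (hdis k hk hkm.symm).symm
        · rw [Function.update_of_ne e, Function.update_of_ne e']; exact (h.bpair k hk m hm hkm).1
    · obtain ⟨x, hx, y, hy, e⟩ := (h.bpair k hk m hm hkm).2
      exact ⟨x, hsub k hx, y, hsub m hy, e⟩
  · intro x hx y hy hxy
    obtain ⟨hyU, hy'⟩ := mem_sdiff.1 hy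
    by_cases hyW : y ∈ W
    · refine ⟨i, hi, ?_⟩
      rw [Function.update_self]
      by_contra h'
      exact hy' (mem_sdiff.2 ⟨hyW, fun e => h' (mem_union_right _ e)⟩)
    · obtain ⟨k, hk, e⟩ := h.edge x (hW' hx) y (mem_sdiff.2 ⟨hyU, hyW⟩) hxy
      exact ⟨k, hk, hsub k e⟩
  · intro k hk
    by_cases e : k = i
    · rw [e, Function.update_self]; exact hM.card
    · rw [Function.update_of_ne e]; exact h.pcard k hk
  · intro k hk
    by_cases e : k = i
    · simp only [e, Function.update_self]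
      exact fun y hy x hx e => mem_image_of_mem _ (key y hy x hx e).1
    · simp only [Function.update_of_ne e]
      exact fun y hy x hx e => h.pmem k hk y hy x (hW' hx) e
  · intro k hk
    by_cases e : k = i
    · simp only [e, Function.update_self]
      exact SStep_cost hN hM hW' key
    · simp only [Function.update_of_ne e]
      exact (SStep_mono hN hW' _).trans (h.pcost k hk)

end Pool.Agent.MP_d3be90_lc
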