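import Pool.Agent.MP_d3be90_lc.SFinish
import Pool.Agent.MP_d3be90_lc.SStep

set_option autoImplicit false

open Finset
open scoped Classical

namespace Pool.Agent.MP_d3be90_lc

variable {V : Type}

theorem State.sep {G : SimpleGraph V} {c ρ : V → V → ℝ} {l : V → V → ℕ}
    (hN : Net G c l ρ) {t : ℕ} (hG : ¬ KMinor G t) {U : Finset V} {τ : ℝ} (hτ : 0 ≤ τ) {q : ℕ}
    (hcov : ∀ W ⊆ U, W.Nonempty → Conn G W → Cover G c ρ W τ U.card q t) (n : ℕ) :
    ∀ (W : Finset V) (I : Finset (Fin t)) (B P : Fin t → Finset V) (π : Fin t → V → V),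
      2 * W.card + I.card < n → State G c ρ U τ q t W I B P π →
      Sep c (fun x y => (l x y : ℝ)) ρ U ((t + 1) * q) (4 * (t + 1) * q * τ) := by
  induction n with
  | zero => intro W I B P π hn; omega
  | succ n ih =>
    intro W I B P π hn h
    by_cases h1 : ∃ i ∈ I, ¬ (att G W (B i)).Nonempty
    · obtain ⟨i, hi, hA⟩ := h1
      have hc := card_erase_of_mem hi
      have hp : 0 < I.card := card_pos.2 ⟨i, hi⟩
      refine ih W (I.erase i) B P π (by omega) ⟨h.sub, h.heavy, h.conn,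
        fun j hj => h.bne j (mem_of_mem_erase hj), fun j hj => h.bconn j (mem_of_mem_erase hj),
        fun j hj => h.bW j (mem_of_mem_erase hj),
        fun j hj j' hj' => h.bpair j (mem_of_mem_erase hj) j' (mem_of_mem_erase hj'), ?_,
        fun j hj => h.pcard j (mem_of_mem_erase hj), fun j hj => h.pmem j (mem_of_mem_erase hj),
        fun j hj => h.pcost j (mem_of_mem_erase hj)⟩
      intro x hx y hy hxy
      obtain ⟨j, hj, hyj⟩ := h.edge x hx y hy hxy
      refine ⟨j, mem_erase.2 ⟨?_, hj⟩, hyj⟩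
      rintro rfl
      exact hA ⟨x, mem_filter.2 ⟨hx, y, hyj, hxy.symm⟩⟩
    push Not at h1
    obtain ⟨j, hj⟩ : ∃ j, j ∉ I := by
      by_contra hc
      push Not at hc
      exact hG ⟨B, fun i => h.bne i (hc i), fun i => h.bconn i (hc i),
        fun i j hij => h.bpair i (hc i) j (hc j) hij⟩
    have hWne : W.Nonempty := card_pos.1 (by have := h.heavy; omega)
    obtain ⟨M, ctr, m1, m2, m3, m4, m5, m6⟩ := hcov W h.sub hWne h.conn I
      (fun i => att G W (B i)) fun i _ => filter_subset _ _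
    have hM : Marked c ρ W τ U.card q M ctr := ⟨m1, m2, m3, m4, m5⟩
    by_cases h2 : ∀ x ∈ W \ M, 2 * (comp G (W \ M) x).card ≤ U.card
    · exact h.finish hN hτ hM h2
    push Not at h2
    obtain ⟨w, hw, hw'⟩ := h2
    rcases m6 with ⟨n1, n2, n3⟩ | m6
    · obtain ⟨B', P', π', h'⟩ := h.step_tree hN hM n1 n2 n3 hj hw'
      refine ih _ _ B' P' π' ?_ h'
      have e1 : (comp G (W \ M) w).card ≤ (W \ M).card := card_le_card comp_subset
      have e2 := card_sdiff_add_card_eq_card m1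
      have e3 := card_pos.2 n1
      have e4 := card_insert_of_notMem hj
      omega
    · obtain ⟨i, hi, hd⟩ := m6 _ comp_subset ⟨w, mem_comp.2 (WkM.refl hw)⟩ (conn_comp _ _ _)
      obtain ⟨W', B', P', π', h3, h'⟩ := h.step_sep hN hM hi (h1 i hi) hw' hd
      exact ih W' I B' P' π' (by omega) h'

theorem sep_of_cover {G : SimpleGraph V} {c ρ : V → V → ℝ} {l : V → V → ℕ}
    (hN : Net G c l ρ) (t : ℕ) (hG : ¬ KMinor G t) (U : Finset V) (τ : ℝ) (hτ : 0 ≤ τ) (q : ℕ)
    (hcov : ∀ W ⊆ U, W.Nonempty → Conn G W → Cover G c ρ W τ U.card q t) :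
    Sep c (fun x y => (l x y : ℝ)) ρ U ((t + 1) * q) (4 * (t + 1) * q * τ) := by
  by_cases h : ∀ x ∈ U, 2 * (comp G U x).card ≤ U.card
  · refine ⟨comp G U, ∅, fun u _ => u, by simp,
      fun y hy => ⟨mem_comp.2 (WkM.refl hy), h y hy⟩, fun u hu v hv h1 h2 => ?_, ?_⟩
    · exact absurd (comp_eq_of_wk ((WkM.refl hu).tail (hN.c_adj u v h2) hv)) h1
    · have e : ∀ f : V → V → ℝ, ∑ u ∈ U, ∑ v ∈ U,
          (if comp G U u = comp G U v then 0 else c u v * f u v) = 0 := fun f =>
        sum_eq_zero fun u hu => sum_eq_zero fun v hv => by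
          split_ifs with h1
          · rfl
          · by_cases h2 : c u v = 0
            · rw [h2, zero_mul]
            · exact absurd (comp_eq_of_wk ((WkM.refl hu).tail (hN.c_adj u v h2) hv)) h1
      rw [e fun u v => ρ u u + ρ u v, e fun u v => (l u v : ℝ)]
      positivity
  · push Not at h
    obtain ⟨x, -, hx⟩ := h
    refine State.sep hN hG hτ hcov _ (comp G U x) ∅ (fun _ => ∅) (fun _ => ∅) (fun _ y => y)
      (Nat.lt_succ_self _) ⟨comp_subset, hx, conn_comp _ _ _, by simp, by simp, by simp, by simp,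
        ?_, by simp, by simp, by simp⟩
    intro y hy z hz hyz
    exact absurd (comp_closed hy hyz (mem_sdiff.1 hz).1) (mem_sdiff.1 hz).2

end Pool.Agent.MP_d3be90_lc
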