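import Pool.Agent.MP_d3be90_lc.SBase

set_option autoImplicit false

open Finset
open scoped Classical

namespace Pool.Agent.MP_d3be90_lc

variable {V : Type}

lemma SMader_touch {G : SimpleGraph V} {A A' B B' : Finset V} (h : Touch G A B) (hA : A ⊆ A')
    (hB : B ⊆ B') : Touch G A' B' := by
  obtain ⟨x, hx, y, hy, e⟩ := h
  exact ⟨x, hA hx, y, hB hy, e⟩

lemma SMader_count {ι : Type} (I : Finset ι) (R R' : ι → ι → Prop) {u v : ι} (hu : u ∈ I)
    (huv : u ≠ v) (hs : ∀ i j, R i j → R j i)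
    (hR : ∀ i j, R i j → R' (if i = v then u else i) (if j = v then u else j)) :
    ((I ×ˢ I).filter fun p => p.1 ≠ p.2 ∧ R p.1 p.2).card ≤
      ((I.erase v ×ˢ I.erase v).filter fun p => p.1 ≠ p.2 ∧ R' p.1 p.2).card +
        (2 + 2 * (I.filter fun j => (j ≠ u ∧ R u j) ∧ j ≠ v ∧ R v j).card) := by
  set N := I.filter fun j => (j ≠ u ∧ R u j) ∧ j ≠ v ∧ R v j with hN
  set D : Finset (ι × ι) := ({(u, v), (v, u)} ∪ {v} ×ˢ N) ∪ N ×ˢ {v} with hD
  have hDc : D.card ≤ 2 + 2 * N.card := by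
    have h1 := card_union_le (({(u, v), (v, u)} : Finset (ι × ι)) ∪ {v} ×ˢ N) (N ×ˢ {v})
    have h2 := card_union_le ({(u, v), (v, u)} : Finset (ι × ι)) ({v} ×ˢ N)
    have h3 : ({(u, v), (v, u)} : Finset (ι × ι)).card ≤ 2 := card_le_two
    rw [card_product, card_singleton] at h1 h2
    rw [hD]
    omega
  refine (card_le_card_sdiff_add_card (t := D)).trans (add_le_add ?_ hDc)
  have hm : ∀ i j, (i, j) ∈ ((I ×ˢ I).filter fun p => p.1 ≠ p.2 ∧ R p.1 p.2) \ D →
      i ∈ I ∧ j ∈ I ∧ i ≠ j ∧ R i j ∧ ¬(i = u ∧ j = v) ∧ ¬(i = v ∧ j = u) ∧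
        ¬(i = v ∧ j ∈ N) ∧ ¬(i ∈ N ∧ j = v) := by
    intro i j h
    simp only [hD, mem_sdiff, mem_filter, mem_product, mem_union, mem_insert, mem_singleton,
      Prod.mk.injEq, not_or] at h
    tauto
  refine card_le_card_of_injOn (fun p => (if p.1 = v then u else p.1, if p.2 = v then u else p.2))
    ?_ ?_
  · rintro ⟨i, j⟩ h
    obtain ⟨h1, h2, h3, h4, h5, h6, -, -⟩ := hm i j (mem_coe.1 h)
    refine mem_coe.2 (mem_filter.2 ⟨mem_product.2 ⟨?_, ?_⟩, ?_, hR i j h4⟩)
    · dsimp only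
      split_ifs with e
      · exact mem_erase.2 ⟨huv, hu⟩
      · exact mem_erase.2 ⟨e, h1⟩
    · dsimp only
      split_ifs with e
      · exact mem_erase.2 ⟨huv, hu⟩
      · exact mem_erase.2 ⟨e, h2⟩
    · dsimp only
      split_ifs with e e' e'
      · exact (h3 (e.trans e'.symm)).elim
      · exact fun q => h6 ⟨e, q.symm⟩
      · exact fun q => h5 ⟨q, e'⟩
      · exact h3
  · rintro ⟨i, j⟩ h ⟨i', j'⟩ h' e
    obtain ⟨a1, a2, a3, a4, a5, a6, a7, a8⟩ := hm i j (mem_coe.1 h)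
    obtain ⟨b1, b2, b3, b4, b5, b6, b7, b8⟩ := hm i' j' (mem_coe.1 h')
    have key : ∀ a b : ι, (if a = v then u else a) = (if b = v then u else b) →
        a = b ∨ (a = u ∧ b = v) ∨ (a = v ∧ b = u) := by
      intro a b q
      split_ifs at q with p1 p2 p2
      · exact .inl (p1.trans p2.symm)
      · exact .inr (.inr ⟨p1, q.symm⟩)
      · exact .inr (.inl ⟨q, p2⟩)
      · exact .inl q
    obtain ⟨e1, e2⟩ := Prod.mk.inj e
    rcases key _ _ e1 with rfl | ⟨rfl, rfl⟩ | ⟨rfl, rfl⟩ <;>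
      rcases key _ _ e2 with rfl | ⟨p1, p2⟩ | ⟨p1, p2⟩
    · rfl
    · subst p1 p2
      exact (b8 ⟨mem_filter.2 ⟨a1, ⟨a3, hs _ _ a4⟩, b3, hs _ _ b4⟩, rfl⟩).elim
    · subst p1 p2
      exact (a8 ⟨mem_filter.2 ⟨a1, ⟨b3, hs _ _ b4⟩, a3, hs _ _ a4⟩, rfl⟩).elim
    · exact (b7 ⟨rfl, mem_filter.2 ⟨a2, ⟨a3.symm, a4⟩, b3.symm, b4⟩⟩).elim
    · exact (a3 p1.symm).elim
    · exact (a5 ⟨rfl, p1⟩).elim
    · exact (a7 ⟨rfl, mem_filter.2 ⟨a2, ⟨b3.symm, b4⟩, a3.symm, a4⟩⟩).elim
    · exact (a6 ⟨rfl, p1⟩).elim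
    · exact (a3 p1.symm).elim

lemma SMader_deg {ι : Type} (N : Finset ι) (R : ι → ι → Prop) (d : ℕ)
    (h : ∀ j ∈ N, d ≤ (N.filter fun i => i ≠ j ∧ R j i).card) :
    d * N.card ≤ ((N ×ˢ N).filter fun p => p.1 ≠ p.2 ∧ R p.1 p.2).card := by
  rw [card_filter, sum_product, mul_comm, ← smul_eq_mul, ← sum_const]
  refine sum_le_sum fun j hj => (h j hj).trans (le_of_eq ?_)
  rw [card_filter]
  exact sum_congr rfl fun i _ => by simp only [ne_comm]

lemma SMader_aux {ι : Type} (G : SimpleGraph V) (t : ℕ) : ∀ (n : ℕ) (I : Finset ι)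
    (B : ι → Finset V), I.card = n → I.Nonempty → (∀ i ∈ I, Conn G (B i)) →
    (∀ i ∈ I, ∀ j ∈ I, i ≠ j → Disjoint (B i) (B j)) →
    2 ^ t * I.card ≤ ((I ×ˢ I).filter fun p => p.1 ≠ p.2 ∧ Touch G (B p.1) (B p.2)).card →
    ∃ C : Fin t → Finset V, (∀ a, Conn G (C a) ∧ (∃ i ∈ I, B i ⊆ C a) ∧ C a ⊆ I.biUnion B) ∧
      ∀ a b, a ≠ b → Disjoint (C a) (C b) ∧ Touch G (C a) (C b) := by
  induction t with
  | zero => exact fun _ _ _ _ _ _ _ _ => ⟨Fin.elim0, fun a => a.elim0, fun a => a.elim0⟩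
  | succ t iht =>
    intro n
    induction n with
    | zero => exact fun I B hn hI => (hI.card_pos.ne' hn).elim
    | succ n ihn =>
      intro I B hn hI hc hd he
      by_cases hx : ∃ u ∈ I, ∃ v ∈ I, u ≠ v ∧ Touch G (B u) (B v) ∧
          (I.filter fun j => (j ≠ u ∧ Touch G (B u) (B j)) ∧ j ≠ v ∧ Touch G (B v) (B j)).card
            < 2 ^ t
      · obtain ⟨u, hu, v, hv, huv, ht, hlt⟩ := hx
        set B' : ι → Finset V := fun i => if i = u then B u ∪ B v else B i with hB'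
        have h1 : ∀ i, B i ⊆ B' i := fun i => by
          simp only [hB']
          split_ifs with e
          · rw [e]; exact subset_union_left
          · exact Subset.rfl
        have h2 : ∀ i, B i ⊆ B' (if i = v then u else i) := fun i => by
          split_ifs with e
          · simp only [hB', if_true, e]; exact subset_union_right
          · exact h1 i
        have h3 := SMader_count I (fun i j => Touch G (B i) (B j))
          (fun i j => Touch G (B' i) (B' j)) hu huv (fun _ _ h => h.symm)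
          fun i j h => SMader_touch h (h2 i) (h2 j)
        have h4 : (I.erase v).card = n := by rw [card_erase_of_mem hv, hn]; rfl
        have h5 : ∀ i ∈ I.erase v, i ≠ u → Disjoint (B u ∪ B v) (B i) := fun i hi e =>
          disjoint_union_left.2 ⟨hd u hu i (mem_of_mem_erase hi) e.symm,
            hd v hv i (mem_of_mem_erase hi) (ne_of_mem_erase hi).symm⟩
        obtain ⟨C, c1, c2⟩ := ihn (I.erase v) B' h4 ⟨u, mem_erase.2 ⟨huv, hu⟩⟩
          (fun i hi => by
            simp only [hB']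
            split_ifs
            · exact (hc u hu).union_of_touch (hc v hv) ht
            · exact hc i (mem_of_mem_erase hi))
          (fun i hi j hj hij => by
            simp only [hB']
            split_ifs with e e' e'
            · exact (hij (e.trans e'.symm)).elim
            · exact h5 j hj e'
            · exact (h5 i hi e).symm
            · exact hd i (mem_of_mem_erase hi) j (mem_of_mem_erase hj) hij)
          (by
            rw [hn, pow_succ, mul_add] at he
            rw [h4, pow_succ]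
            omega)
        refine ⟨C, fun a => ?_, c2⟩
        obtain ⟨d1, ⟨i, hi, d2⟩, d3⟩ := c1 a
        refine ⟨d1, ⟨i, mem_of_mem_erase hi, (h1 i).trans d2⟩, d3.trans ?_⟩
        refine biUnion_subset.2 fun j hj => ?_
        simp only [hB']
        split_ifs
        · exact union_subset (subset_biUnion_of_mem B hu) (subset_biUnion_of_mem B hv)
        · exact subset_biUnion_of_mem B (mem_of_mem_erase hj)
      · have h0 : 0 < ((I ×ˢ I).filter fun p => p.1 ≠ p.2 ∧ Touch G (B p.1) (B p.2)).card :=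
          lt_of_lt_of_le (Nat.mul_pos (Nat.two_pow_pos _) hI.card_pos) he
        obtain ⟨⟨u, v⟩, hp⟩ := card_pos.1 h0
        obtain ⟨hp, huv, ht⟩ := mem_filter.1 hp
        obtain ⟨hu, hv⟩ := mem_product.1 hp
        dsimp only at hu hv huv ht
        set N := I.filter fun j => j ≠ u ∧ Touch G (B u) (B j) with hN
        have hs : N ⊆ I := filter_subset _ _
        obtain ⟨C, c1, c2⟩ := iht N.card N B rfl ⟨v, mem_filter.2 ⟨hv, huv.symm, ht⟩⟩
          (fun i hi => hc i (hs hi)) (fun i hi j hj => hd i (hs hi) j (hs hj))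
          (SMader_deg N (fun i j => Touch G (B i) (B j)) _ fun j hj => by
            obtain ⟨a1, a2, a3⟩ := mem_filter.1 hj
            rw [hN, filter_filter]
            exact not_lt.1 fun h => hx ⟨u, hu, j, a1, a2.symm, a3, h⟩)
        have h1 : ∀ a, Disjoint (B u) (C a) ∧ Touch G (B u) (C a) := fun a => by
          obtain ⟨-, ⟨i, hi, d2⟩, d3⟩ := c1 a
          refine ⟨Disjoint.mono_right d3 ((disjoint_biUnion_right _ _ _).2 fun j hj => ?_),
            SMader_touch (mem_filter.1 hi).2.2 Subset.rfl d2⟩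
          exact hd u hu j (hs hj) (mem_filter.1 hj).2.1.symm
        refine ⟨Fin.cons (B u) C, fun a => ?_, fun a b hab => ?_⟩
        · refine Fin.cases ?_ (fun a => ?_) a
          · exact ⟨hc u hu, ⟨u, hu, Subset.rfl⟩, subset_biUnion_of_mem B hu⟩
          · obtain ⟨d1, ⟨i, hi, d2⟩, d3⟩ := c1 a
            exact ⟨d1, ⟨i, hs hi, d2⟩, d3.trans (biUnion_subset_biUnion_of_subset_left B hs)⟩
        · revert hab
          refine Fin.cases ?_ (fun a => ?_) a <;> refine Fin.cases ?_ (fun b => ?_) b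
          · exact fun h => (h rfl).elim
          · exact fun _ => h1 b
          · exact fun _ => ⟨(h1 a).1.symm, (h1 a).2.symm⟩
          · exact fun h => c2 a b fun e => h (by rw [e])

theorem mader {ι : Type} (G : SimpleGraph V) (t : ℕ) (I : Finset ι) (B : ι → Finset V)
    (hI : I.Nonempty) (hne : ∀ i ∈ I, (B i).Nonempty) (hc : ∀ i ∈ I, Conn G (B i))
    (hd : ∀ i ∈ I, ∀ j ∈ I, i ≠ j → Disjoint (B i) (B j))
    (he : 2 ^ t * I.card ≤
      ((I ×ˢ I).filter fun p => p.1 ≠ p.2 ∧ Touch G (B p.1) (B p.2)).card) :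
    KMinor G t := by
  obtain ⟨C, c1, c2⟩ := SMader_aux G t _ I B rfl hI hc hd he
  refine ⟨C, fun a => ?_, fun a => (c1 a).1, c2⟩
  obtain ⟨i, hi, h⟩ := (c1 a).2.1
  exact (hne i hi).mono h

end Pool.Agent.MP_d3be90_lc
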