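import Pool.Agent.MP_d3be90_lc.SMader
import Pool.Agent.MP_d3be90_lc.SDense

set_option autoImplicit false

open Finset
open scoped Classical

namespace Pool.Agent.MP_d3be90_lc

variable {V : Type}

/-- density forcing a complete minor on `t` vertices -/
def madD (t : ℕ) : ℕ := 45000 * (t + 1) ^ 2

lemma madD_pos (t : ℕ) : 1 ≤ madD t := by
  have : 0 < madD t := by unfold madD; positivity
  exact this

lemma kminor_lift {ι : Type} (G : SimpleGraph V) (Γ : SimpleGraph ι) (I : Finset ι)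
    (B : ι → Finset V) (hne : ∀ i ∈ I, (B i).Nonempty) (hc : ∀ i ∈ I, Conn G (B i))
    (hd : ∀ i ∈ I, ∀ j ∈ I, i ≠ j → Disjoint (B i) (B j))
    (hΓ : ∀ i j, Γ.Adj i j → Touch G (B i) (B j)) {t : ℕ} (C : Fin t → Finset ι)
    (h1 : ∀ a, (C a).Nonempty ∧ Conn Γ (C a) ∧ C a ⊆ I)
    (h2 : ∀ a b, a ≠ b → Disjoint (C a) (C b) ∧ Touch Γ (C a) (C b)) : KMinor G t := by
  refine ⟨fun a => (C a).biUnion B, fun a => ?_, fun a => ?_, fun a b hab => ⟨?_, ?_⟩⟩
  · obtain ⟨⟨i, hi⟩, -, e⟩ := h1 a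
    exact (hne i (e hi)).mono (subset_biUnion_of_mem B hi)
  · obtain ⟨⟨i, hi⟩, e1, e2⟩ := h1 a
    obtain ⟨x, hx⟩ := hne i (e2 hi)
    refine conn_of_root (a := x) fun z hz => ?_
    obtain ⟨j, hj, hz⟩ := mem_biUnion.1 hz
    refine (e1 i hi j hj).ind (P := fun j => ∀ z ∈ B j, WkM G.Adj ((C a).biUnion B) x z)
      (fun z hz => (hc i (e2 hi) x hx z hz).monoD (subset_biUnion_of_mem B hi))
      (fun p q _ hpq hq ih z hz => ?_) z hz
    obtain ⟨u, hu, v, hv, e⟩ := hΓ p q hpq
    exact ((ih u hu).tail e (subset_biUnion_of_mem B hq hv)).trans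
      ((hc q (e2 hq) v hv z hz).monoD (subset_biUnion_of_mem B hq))
  · refine (disjoint_biUnion_left _ _ _).2 fun i hi => (disjoint_biUnion_right _ _ _).2
      fun j hj => hd i ((h1 a).2.2 hi) j ((h1 b).2.2 hj) ?_
    rintro rfl
    exact disjoint_left.1 (h2 a b hab).1 hi hj
  · obtain ⟨i, hi, j, hj, e⟩ := (h2 a b hab).2
    exact SMader_touch (hΓ i j e) (subset_biUnion_of_mem B hi) (subset_biUnion_of_mem B hj)

lemma maderP_aux {ι : Type} (G : SimpleGraph V) (t : ℕ) (n : ℕ) : ∀ (I : Finset ι)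
    (B : ι → Finset V), I.card = n → I.Nonempty → (∀ i ∈ I, (B i).Nonempty) →
    (∀ i ∈ I, Conn G (B i)) → (∀ i ∈ I, ∀ j ∈ I, i ≠ j → Disjoint (B i) (B j)) →
    madD t * I.card ≤ ((I ×ˢ I).filter fun p => p.1 ≠ p.2 ∧ Touch G (B p.1) (B p.2)).card →
    KMinor G t := by
  induction n with
  | zero => exact fun I B hn hI => (hI.card_pos.ne' hn).elim
  | succ n ihn =>
    intro I B hn hI hne hc hd he
    obtain ⟨E, hE⟩ : ∃ E, E =
      ((I ×ˢ I).filter fun p => p.1 ≠ p.2 ∧ Touch G (B p.1) (B p.2)).card := ⟨_, rfl⟩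
    obtain ⟨d, hdd⟩ : ∃ d, d = E / (2 * (n + 1)) := ⟨_, rfl⟩
    rw [← hE, hn] at he
    have d1 : d * (2 * (n + 1)) ≤ E := hdd ▸ Nat.div_mul_le_self _ _
    have d2 : E < (d + 1) * (2 * (n + 1)) := by
      rw [hdd, mul_comm]; exact Nat.lt_mul_div_succ _ (by omega)
    have d3 : 22500 * (t + 1) ^ 2 ≤ d := by
      rw [hdd, Nat.le_div_iff_mul_le (by omega)]
      calc 22500 * (t + 1) ^ 2 * (2 * (n + 1)) = madD t * (n + 1) := by unfold madD; ring
        _ ≤ E := he
    have d4 : madD t ≤ 2 * d := by unfold madD; omega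
    by_cases hx : ∃ u ∈ I, ∃ v ∈ I, u ≠ v ∧ Touch G (B u) (B v) ∧
        (I.filter fun j => (j ≠ u ∧ Touch G (B u) (B j)) ∧ j ≠ v ∧ Touch G (B v) (B j)).card < d
    · obtain ⟨u, hu, v, hv, huv, ht, hlt⟩ := hx
      set B' : ι → Finset V := fun i => if i = u then B u ∪ B v else B i with hB'
      have h1 : ∀ i, B i ⊆ B' i := fun i => by
        simp only [hB']
        split_ifs with e
        · rw [e]; exact subset_union_left
        · exact Subset.rfl
      have h2 : ∀ i, B i ⊆ B' (if i = v then u else i) := fun i => by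
        split_ifs with e
        · simp only [hB', if_true, e]; exact subset_union_right
        · exact h1 i
      have h3 := SMader_count I (fun i j => Touch G (B i) (B j))
        (fun i j => Touch G (B' i) (B' j)) hu huv (fun _ _ h => h.symm)
        fun i j h => SMader_touch h (h2 i) (h2 j)
      have h4 : (I.erase v).card = n := by rw [card_erase_of_mem hv, hn]; rfl
      have h5 : ∀ i ∈ I.erase v, i ≠ u → Disjoint (B u ∪ B v) (B i) := fun i hi e =>
        disjoint_union_left.2 ⟨hd u hu i (mem_of_mem_erase hi) e.symm,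
          hd v hv i (mem_of_mem_erase hi) (ne_of_mem_erase hi).symm⟩
      refine ihn (I.erase v) B' h4 ⟨u, mem_erase.2 ⟨huv, hu⟩⟩
        (fun i hi => (hne i (mem_of_mem_erase hi)).mono (h1 i)) (fun i hi => ?_)
        (fun i hi j hj hij => ?_) ?_
      · simp only [hB']
        split_ifs
        · exact (hc u hu).union_of_touch (hc v hv) ht
        · exact hc i (mem_of_mem_erase hi)
      · simp only [hB']
        split_ifs with e e' e'
        · exact (hij (e.trans e'.symm)).elim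
        · exact h5 j hj e'
        · exact (h5 i hi e).symm
        · exact hd i (mem_of_mem_erase hi) j (mem_of_mem_erase hj) hij
      · rw [← hE] at h3
        have : madD t * n ≤ 2 * d * n := Nat.mul_le_mul_right _ d4
        have e : d * (2 * (n + 1)) = 2 * d * n + 2 * d := by ring
        rw [h4]
        omega
    obtain ⟨u, hu, hmin⟩ := exists_min_image I
      (fun u => (I.filter fun j => j ≠ u ∧ Touch G (B u) (B j)).card) hI
    set N := I.filter fun j => j ≠ u ∧ Touch G (B u) (B j) with hN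
    have hs : N ⊆ I := filter_subset _ _
    have n1 : N.card * (n + 1) ≤ E := by
      rw [hE, ← hn]
      exact SMader_deg I (fun i j => Touch G (B i) (B j)) _ hmin
    have n2 : N.card ≤ 2 * d + 1 := by
      by_contra h
      have : (2 * d + 2) * (n + 1) ≤ N.card * (n + 1) := Nat.mul_le_mul_right _ (by omega)
      have e : (d + 1) * (2 * (n + 1)) = (2 * d + 2) * (n + 1) := by ring
      omega
    rcases N.eq_empty_or_nonempty with h0 | h0
    · have h4 : (I.erase u).card = n := by rw [card_erase_of_mem hu, hn]; rfl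
      have h5 : E ≤ ((I.erase u ×ˢ I.erase u).filter
          fun p => p.1 ≠ p.2 ∧ Touch G (B p.1) (B p.2)).card := by
        rw [hE]
        refine card_le_card fun p hp => ?_
        obtain ⟨p1, p2, p3⟩ := mem_filter.1 hp
        obtain ⟨p4, p5⟩ := mem_product.1 p1
        refine mem_filter.2 ⟨mem_product.2 ⟨mem_erase.2 ⟨fun e => ?_, p4⟩,
          mem_erase.2 ⟨fun e => ?_, p5⟩⟩, p2, p3⟩
        · exact notMem_empty p.2 (h0 ▸ mem_filter.2 ⟨p5, e ▸ p2.symm, e ▸ p3⟩)
        · exact notMem_empty p.1 (h0 ▸ mem_filter.2 ⟨p4, e ▸ p2, e ▸ p3.symm⟩)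
      have h6 : 0 < E := lt_of_lt_of_le (Nat.mul_pos (madD_pos t) (by omega)) he
      refine ihn (I.erase u) B h4 ?_ (fun i hi => hne i (mem_of_mem_erase hi))
        (fun i hi => hc i (mem_of_mem_erase hi))
        (fun i hi j hj => hd i (mem_of_mem_erase hi) j (mem_of_mem_erase hj)) ?_
      · obtain ⟨p, hp⟩ := card_pos.1 (h6.trans_le h5)
        exact ⟨p.1, (mem_product.1 (mem_filter.1 hp).1).1⟩
      · rw [h4]
        exact ((Nat.mul_le_mul_left _ (Nat.le_succ n)).trans he).trans h5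
    · let Γ : SimpleGraph ι :=
        { Adj := fun i j => j ≠ i ∧ Touch G (B i) (B j)
          symm := ⟨fun i j h => ⟨h.1.symm, h.2.symm⟩⟩
          loopless := ⟨fun i h => h.1 rfl⟩ }
      obtain ⟨C, c1, c2⟩ := dense_minor Γ t d d3 N h0 n2 fun j hj => by
        obtain ⟨a1, a2, a3⟩ := mem_filter.1 hj
        have := not_lt.1 fun h => hx ⟨u, hu, j, a1, a2.symm, a3, h⟩
        refine this.trans (card_le_card fun i hi => ?_)
        obtain ⟨b1, b2, b3⟩ := mem_filter.1 hi
        exact (@mem_filter _ _ (fun a => Classical.propDecidable _) _ _).2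
          ⟨mem_filter.2 ⟨b1, b2⟩, b3⟩
      exact kminor_lift G Γ I B hne hc hd (fun _ _ h => h.2) C
        (fun a => ⟨(c1 a).1, (c1 a).2.1, (c1 a).2.2.trans hs⟩) c2

theorem maderP {ι : Type} (G : SimpleGraph V) (t : ℕ) (I : Finset ι) (B : ι → Finset V)
    (hI : I.Nonempty) (hne : ∀ i ∈ I, (B i).Nonempty) (hc : ∀ i ∈ I, Conn G (B i))
    (hd : ∀ i ∈ I, ∀ j ∈ I, i ≠ j → Disjoint (B i) (B j))
    (he : madD t * I.card ≤
      ((I ×ˢ I).filter fun p => p.1 ≠ p.2 ∧ Touch G (B p.1) (B p.2)).card) :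
    KMinor G t :=
  maderP_aux G t _ I B rfl hI hne hc hd he

end Pool.Agent.MP_d3be90_lc
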