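import Pool.Agent.MP_d3be90_lc.SBall

set_option autoImplicit false

open Finset
open scoped Classical

namespace Pool.Agent.MP_d3be90_lc

variable {V : Type}

theorem exists_phase {G : SimpleGraph V} {c ρ : V → V → ℝ} {l : V → V → ℕ} (hN : Net G c l ρ)
    (lam n s : ℕ) (hlam : 1 ≤ lam) (hn : n < 2 ^ lam) (hs : 1 ≤ s)
    (O : V → Finset V) (w : V → ℝ) (hw : ∀ v, 0 ≤ w v)
    (sV sW : ℝ) (hsV : 0 ≤ sV) (hsW : 0 ≤ sW)
    (Y F : Finset V) (hF : F ⊆ Y) (J : Finset V)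
    (hO : ∀ v ∈ J, O v ⊆ Y ∧ ∀ a ∈ O v, ∀ b ∈ O v, Reach G l (O v) a b s)
    (hOF : ∀ v ∈ J, ¬ Disjoint (O v) F)
    (hV : vol c l Y ≤ n * sV) (hW : ∑ v ∈ J, w v ≤ n * sW) :
    ∃ (X : Finset V) (ctr : V → V), F ⊆ X ∧ X ⊆ Y ∧
      (∀ x ∈ X, ctr x ∈ F ∧ ctr (ctr x) = ctr x ∧ Rad G l (cls X ctr x) (ctr x) (18 * lam * s)) ∧
      (s : ℝ) * ∑ x ∈ Y, ∑ y ∈ Y, (if l x y < s ∧ (x ∈ X ∨ y ∈ X) ∧
          ¬ (x ∈ X ∧ y ∈ X ∧ ctr x = ctr y) then c x y else 0) + vol c l (Y \ X) / 2 ≤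
        (vol c l Y + X.card * sV) / 2 ∧
      ∑ v ∈ J.filter (fun v => ¬ O v ⊆ X), w v ≤ (∑ v ∈ J, w v + X.card * sW) / 4 := by
  induction h : F.card using Nat.strong_induction_on generalizing Y F J with
  | _ m ih =>
  rcases F.eq_empty_or_nonempty with rfl | ⟨f, hf⟩
  · have hJ : J = ∅ := eq_empty_of_forall_notMem fun v hv => hOF v hv (disjoint_empty_right _)
    subst hJ
    exact ⟨∅, id, Subset.rfl, empty_subset _, by simp, by simp, by simp⟩
  obtain ⟨B, hBY, hR, hcut, hsp⟩ :=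
    exists_ball hN lam n s hlam hn hs Y f (hF hf) J O w hw hO sV sW hsV hsW hV hW
  have hfB : f ∈ B := hR.1
  have hcard : (F \ B).card < m := by
    rw [← h]
    exact card_lt_card ⟨sdiff_subset, fun e => (mem_sdiff.1 (e hf)).2 hfB⟩
  obtain ⟨X', ctr', h1, h2, h3, h4, h5⟩ := ih _ hcard (Y \ B) (F \ B)
    (sdiff_subset_sdiff hF Subset.rfl) (J.filter fun v => Disjoint (O v) B)
    (fun v hv => ⟨subset_sdiff.2 ⟨(hO v (mem_filter.1 hv).1).1, (mem_filter.1 hv).2⟩,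
      (hO v (mem_filter.1 hv).1).2⟩)
    (fun v hv e => by
      obtain ⟨a, ha, ha'⟩ := not_disjoint_iff.1 (hOF v (mem_filter.1 hv).1)
      exact disjoint_left.1 e ha
        (mem_sdiff.2 ⟨ha', disjoint_left.1 (mem_filter.1 hv).2 ha⟩))
    ((vol_mono hN.c_nonneg sdiff_subset).trans hV)
    ((sum_le_sum_of_subset_of_nonneg (filter_subset _ _) fun v _ _ => hw v).trans hW) rfl
  have hXB : ∀ x ∈ X', x ∉ B := fun x hx => (mem_sdiff.1 (h2 hx)).2
  have hmem : ∀ x, x ∉ B → (x ∈ B ∪ X' ↔ x ∈ X') := fun x hx =>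
    mem_union.trans ⟨fun e => e.resolve_left hx, Or.inr⟩
  have hne : ∀ x ∈ X', ctr' x ∉ B := fun x hx => (mem_sdiff.1 (h3 x hx).1).2
  have hc : ((X'.card : ℝ) + 1) ≤ ((B ∪ X').card : ℝ) := by
    have e : (B ∪ X').card = B.card + X'.card :=
      card_union_of_disjoint (disjoint_right.2 hXB)
    have e' : 1 ≤ B.card := card_pos.2 ⟨f, hfB⟩
    have : X'.card + 1 ≤ (B ∪ X').card := by omega
    exact_mod_cast this
  obtain ⟨ctr, c1, c2⟩ : ∃ ctr : V → V, (∀ y ∈ B, ctr y = f) ∧ ∀ y, y ∉ B → ctr y = ctr' y :=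
    ⟨fun y => if y ∈ B then f else ctr' y, fun y hy => if_pos hy, fun y hy => if_neg hy⟩
  refine ⟨B ∪ X', ctr, fun x hx => ?_, union_subset hBY (h2.trans sdiff_subset),
    fun x hx => ?_, ?_, ?_⟩
  · by_cases hB : x ∈ B
    · exact mem_union_left _ hB
    · exact mem_union_right _ (h1 (mem_sdiff.2 ⟨hx, hB⟩))
  · by_cases hB : x ∈ B
    · have e : cls (B ∪ X') ctr x = B := by
        ext y
        rw [mem_cls, c1 x hB]
        refine ⟨fun ⟨hy, e⟩ => ?_, fun hy => ⟨mem_union_left _ hy, c1 y hy⟩⟩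
        by_contra hy'
        rw [c2 y hy'] at e
        exact hne y ((hmem y hy').1 hy) (e ▸ hfB)
      rw [e, c1 x hB]
      exact ⟨hf, c1 f hfB, hR⟩
    · have hx' := (hmem x hB).1 hx
      have e : cls (B ∪ X') ctr x = cls X' ctr' x := by
        ext y
        rw [mem_cls, mem_cls, c2 x hB]
        refine ⟨fun ⟨hy, e⟩ => ?_, fun ⟨hy, e⟩ =>
          ⟨mem_union_right _ hy, (c2 y (hXB y hy)).trans e⟩⟩
        have hy' : y ∉ B := fun hy' => hne x hx' (e ▸ (c1 y hy').symm ▸ hfB)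
        exact ⟨(hmem y hy').1 hy, (c2 y hy').symm.trans e⟩
      rw [e, c2 x hB, c2 _ (hne x hx')]
      exact ⟨(mem_sdiff.1 (h3 x hx').1).1, (h3 x hx').2⟩
  · obtain ⟨g, hg⟩ : ∃ g : V → V → ℝ, ∀ x y, g x y = if l x y < s ∧ (x ∈ B ∪ X' ∨ y ∈ B ∪ X') ∧
        ¬ (x ∈ B ∪ X' ∧ y ∈ B ∪ X' ∧ ctr x = ctr y) then c x y else 0 := ⟨_, fun _ _ => rfl⟩
    simp only [← hg]
    have gle : ∀ x y, g x y ≤ if l x y < s then c x y else 0 := fun x y => by
      rw [hg]
      split_ifs with p q q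
      · exact le_rfl
      · exact absurd p.1 q
      · exact hN.c_nonneg x y
      · exact le_rfl
    have e0 : ∑ x ∈ B, ∑ y ∈ B, g x y = 0 :=
      sum_eq_zero fun x hx => sum_eq_zero fun y hy => by
        rw [hg, if_neg]
        exact fun p => p.2.2 ⟨mem_union_left _ hx, mem_union_left _ hy,
          (c1 x hx).trans (c1 y hy).symm⟩
    have e1 : ∑ x ∈ B, ∑ y ∈ Y \ B, g x y ≤
        ∑ x ∈ B, ∑ y ∈ Y \ B, (if l x y < s then c x y else 0) :=
      sum_le_sum fun x _ => sum_le_sum fun y _ => gle x y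
    have e2 : ∑ x ∈ Y \ B, ∑ y ∈ B, g x y ≤
        ∑ x ∈ B, ∑ y ∈ Y \ B, (if l x y < s then c x y else 0) := by
      rw [sum_comm]
      refine sum_le_sum fun x _ => sum_le_sum fun y _ => ?_
      rw [hN.l_symm x y, hN.c_symm x y]
      exact gle y x
    have e3 : ∑ x ∈ Y \ B, ∑ y ∈ Y \ B, g x y =
        ∑ x ∈ Y \ B, ∑ y ∈ Y \ B, (if l x y < s ∧ (x ∈ X' ∨ y ∈ X') ∧
          ¬ (x ∈ X' ∧ y ∈ X' ∧ ctr' x = ctr' y) then c x y else 0) :=
      sum_congr rfl fun x hx => sum_congr rfl fun y hy => by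
        have hx' := (mem_sdiff.1 hx).2
        have hy' := (mem_sdiff.1 hy).2
        rw [hg, c2 x hx', c2 y hy']
        exact if_congr (by rw [hmem x hx', hmem y hy']) rfl rfl
    have e4 : ∑ x ∈ Y, ∑ y ∈ Y, g x y = (∑ x ∈ Y \ B, ∑ y ∈ Y \ B, g x y +
        ∑ x ∈ Y \ B, ∑ y ∈ B, g x y) + (∑ x ∈ B, ∑ y ∈ Y \ B, g x y +
        ∑ x ∈ B, ∑ y ∈ B, g x y) := by
      rw [← sum_add_distrib, ← sum_add_distrib, ← sum_sdiff hBY]
      congr 1 <;> exact sum_congr rfl fun x _ => (sum_sdiff hBY).symm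
    have e5 : Y \ (B ∪ X') = (Y \ B) \ X' := by
      ext y
      simp only [mem_sdiff, mem_union, not_or, and_assoc]
    have e6 := vol_add_sdiff_le (l := l) hN.c_nonneg hBY
    have hs0 : (0 : ℝ) ≤ s := Nat.cast_nonneg _
    have e7 := mul_le_mul_of_nonneg_left e1 hs0
    have e8 := mul_le_mul_of_nonneg_left e2 hs0
    have e9 := mul_le_mul_of_nonneg_right hc hsV
    rw [e4, e5, e0, e3]
    linarith
  · have e1 : ∑ v ∈ J.filter (fun v => ¬ O v ⊆ B ∪ X'), w v ≤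
        ∑ v ∈ J.filter (fun v => ¬ Disjoint (O v) B ∧ ¬ O v ⊆ B), w v +
        ∑ v ∈ (J.filter fun v => Disjoint (O v) B).filter (fun v => ¬ O v ⊆ X'), w v := by
      rw [filter_filter, sum_filter, sum_filter, sum_filter, ← sum_add_distrib]
      refine sum_le_sum fun v _ => ?_
      have := hw v
      by_cases p : O v ⊆ B ∪ X'
      · rw [if_neg (not_not.2 p)]
        exact add_nonneg (by split_ifs <;> linarith) (by split_ifs <;> linarith)
      rw [if_pos p]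
      by_cases q : Disjoint (O v) B
      · rw [if_neg fun e => e.1 q, if_pos ⟨q, fun e => p (e.trans subset_union_right)⟩, zero_add]
      · rw [if_pos ⟨q, fun e => p (e.trans subset_union_left)⟩, if_neg fun e => q e.1, add_zero]
    have e2 : ∑ v ∈ J.filter (fun v => ¬ Disjoint (O v) B ∧ O v ⊆ B), w v +
        ∑ v ∈ J.filter (fun v => Disjoint (O v) B), w v ≤ ∑ v ∈ J, w v := by
      rw [sum_filter, sum_filter, ← sum_add_distrib]
      refine sum_le_sum fun v _ => ?_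
      have := hw v
      by_cases q : Disjoint (O v) B
      · rw [if_neg fun e => e.1 q, if_pos q, zero_add]
      · rw [if_neg q, add_zero]
        split_ifs <;> linarith
    have e9 := mul_le_mul_of_nonneg_right hc hsW
    linarith

end Pool.Agent.MP_d3be90_lc
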