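import Pool.Agent.MP_d3be90_lc.SBase

set_option autoImplicit false

open Finset
open scoped Classical

namespace Pool.Agent.MP_d3be90_lc

variable {V : Type}

/-- glue a family of cuts along a labelling -/
noncomputable def sprodGlue [Fintype V] {ι : Type} (lab : V → ι) (om : ι → Finset V) : Finset V :=
  univ.filter fun v => v ∈ om (lab v)

lemma mem_sprodGlue [Fintype V] {ι : Type} (lab : V → ι) (om : ι → Finset V) (v : V) :
    v ∈ sprodGlue lab om ↔ v ∈ om (lab v) := by
  simp [sprodGlue]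

/-- the glued distribution -/
noncomputable def sprodW [Fintype V] {ι : Type} [Fintype ι] (lab : V → ι)
    (w : ι → Finset V → ℝ) (A : Finset V) : ℝ :=
  ∑ om : ι → Finset V, if sprodGlue lab om = A then ∏ i, w i (om i) else 0

lemma sprod_exp [Fintype V] {ι : Type} [Fintype ι] (lab : V → ι)
    (w : ι → Finset V → ℝ) (f : Finset V → ℝ) :
    ∑ A, sprodW lab w A * f A = ∑ om : ι → Finset V, (∏ i, w i (om i)) * f (sprodGlue lab om) := by
  simp only [sprodW, sum_mul]
  rw [sum_comm]
  refine sum_congr rfl fun om _ => ?_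
  simp only [ite_mul, zero_mul]
  rw [sum_ite_eq]
  simp

lemma sprod_fact [Fintype V] {ι : Type} [Fintype ι] (w F : ι → Finset V → ℝ) :
    ∑ om : ι → Finset V, (∏ i, w i (om i)) * ∏ i, F i (om i) = ∏ i, ∑ A, w i A * F i A := by
  rw [prod_univ_sum, Fintype.piFinset_univ]
  exact sum_congr rfl fun om _ => prod_mul_distrib.symm

lemma sprod_one [Fintype V] {ι : Type} [Fintype ι] (w : ι → Finset V → ℝ)
    (hw : ∀ i, IsDist (w i)) (j : ι) (f : Finset V → ℝ) :
    ∑ om : ι → Finset V, (∏ i, w i (om i)) * f (om j) = ∑ A, w j A * f A := by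
  have h := sprod_fact w (fun i A => if i = j then f A else 1)
  simp only [prod_ite_eq', mem_univ, if_true] at h
  rw [h, ← mul_prod_erase univ _ (mem_univ j)]
  simp only [if_true]
  rw [prod_eq_one, mul_one]
  intro i hi
  simp only [if_neg (ne_of_mem_erase hi), mul_one]
  exact (hw i).2

lemma sprod_two [Fintype V] {ι : Type} [Fintype ι] (w : ι → Finset V → ℝ)
    (hw : ∀ i, IsDist (w i)) (j k : ι) (hjk : j ≠ k) (f g : Finset V → ℝ) :
    ∑ om : ι → Finset V, (∏ i, w i (om i)) * (f (om j) * g (om k)) =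
      (∑ A, w j A * f A) * ∑ A, w k A * g A := by
  have h := sprod_fact w (fun i A => (if i = j then f A else 1) * if i = k then g A else 1)
  simp only [prod_mul_distrib, prod_ite_eq', mem_univ, if_true] at h
  rw [h, ← mul_prod_erase univ _ (mem_univ j),
    ← mul_prod_erase (univ.erase j) _ (mem_erase.2 ⟨hjk.symm, mem_univ k⟩)]
  simp only [if_true, if_neg hjk, if_neg hjk.symm, mul_one, one_mul]
  rw [prod_eq_one, mul_one]
  intro i hi
  simp only [if_neg (ne_of_mem_erase hi), if_neg (ne_of_mem_erase (mem_of_mem_erase hi)), mul_one]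
  exact (hw i).2

lemma sprod_prI [Fintype V] (w : Finset V → ℝ) (u : V) :
    prI w u = ∑ A, w A * if u ∈ A then 1 else 0 := by
  simp [prI]

lemma sprod_prI' [Fintype V] (w : Finset V → ℝ) (hw : IsDist w) (u : V) :
    1 - prI w u = ∑ A, w A * if u ∈ A then 0 else 1 := by
  have h : 1 - prI w u = ∑ A, w A - prI w u := by rw [hw.2]
  rw [h, prI, ← sum_sub_distrib]
  refine sum_congr rfl fun A _ => ?_
  split_ifs <;> simp

lemma sprod_prS [Fintype V] (w : Finset V → ℝ) (u v : V) :
    prS w u v = ∑ A, w A * if (u ∈ A ↔ v ∈ A) then 0 else 1 := by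
  simp [prS]

theorem exists_prod [Fintype V] {ι : Type} [Fintype ι] (lab : V → ι) (w : ι → Finset V → ℝ)
    (hw : ∀ i, IsDist (w i)) :
    ∃ w' : Finset V → ℝ, IsDist w' ∧ (∀ u, prI w' u = prI (w (lab u)) u) ∧
      (∀ u v, lab u = lab v → prS w' u v = prS (w (lab u)) u v) ∧
      ∀ u v, lab u ≠ lab v → prS w' u v =
        prI (w (lab u)) u * (1 - prI (w (lab v)) v) +
          prI (w (lab v)) v * (1 - prI (w (lab u)) u) := by
  refine ⟨sprodW lab w, ⟨fun A => ?_, ?_⟩, fun u => ?_, fun u v huv => ?_, fun u v huv => ?_⟩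
  · refine sum_nonneg fun om _ => ?_
    split_ifs
    · exact prod_nonneg fun i _ => (hw i).1 _
    · exact le_rfl
  · have h := sprod_exp lab w (fun _ => 1)
    have h2 := sprod_fact w (fun _ _ => 1)
    simp only [mul_one, prod_const_one] at h h2
    rw [h, h2]
    exact prod_eq_one fun i _ => (hw i).2
  · rw [sprod_prI, sprod_prI, sprod_exp,
      ← sprod_one w hw (lab u) (fun A => if u ∈ A then 1 else 0)]
    simp only [mem_sprodGlue]
  · rw [sprod_prS, sprod_prS, sprod_exp,
      ← sprod_one w hw (lab u) (fun A => if (u ∈ A ↔ v ∈ A) then 0 else 1)]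
    simp only [mem_sprodGlue, huv]
  · rw [sprod_prI' _ (hw _), sprod_prI' _ (hw _), sprod_prI, sprod_prI, sprod_prS, sprod_exp,
      ← sprod_two w hw _ _ huv, ← sprod_two w hw _ _ (Ne.symm huv), ← sum_add_distrib]
    refine sum_congr rfl fun om _ => ?_
    simp only [mem_sprodGlue]
    by_cases h1 : u ∈ om (lab u) <;> by_cases h2 : v ∈ om (lab v) <;> simp [h1, h2]

theorem exists_bernoulli [Fintype V] (u : V) (p : ℝ) (h0 : 0 ≤ p) (h1 : p ≤ 1) :
    ∃ w : Finset V → ℝ, IsDist w ∧ prI w u = p := by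
  refine ⟨fun A => (if A = {u} then p else 0) + if A = ∅ then 1 - p else 0,
    ⟨fun A => ?_, ?_⟩, ?_⟩
  · refine add_nonneg ?_ ?_ <;> split_ifs <;> linarith
  · simp [sum_add_distrib]
  · rw [sprod_prI]
    simp only [add_mul, sum_add_distrib, ite_mul, zero_mul, sum_ite_eq', mem_univ, if_true]
    simp

theorem sum_prS [Fintype V] (w : Finset V → ℝ) (c : V → V → ℝ) :
    ∑ u, ∑ v, c u v * prS w u v = ∑ A, w A * cutW c A := by
  simp only [prS, cutW, mul_sum]
  rw [sum_comm (s := (univ : Finset (Finset V)))]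
  refine sum_congr rfl fun u _ => ?_
  rw [sum_comm (s := (univ : Finset (Finset V)))]
  refine sum_congr rfl fun v _ => sum_congr rfl fun A _ => ?_
  split_ifs <;> simp [mul_comm]

end Pool.Agent.MP_d3be90_lc
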