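import Pool.Agent.MP_d3be90_lc.SUnits
import Pool.Agent.MP_d3be90_lc.SDich
import Pool.Agent.MP_d3be90_lc.SLoop

set_option autoImplicit false

open Finset
open scoped Classical

namespace Pool.Agent.MP_d3be90_lc

theorem Sep.scale {V : Type} {c len ρ len' ρ' : V → V → ℝ} {U : Finset V} {p : ℕ} {δ δ' : ℝ}
    (h : Sep c len ρ U p δ) (s : ℝ) (hs : 0 ≤ s) (h1 : ∀ x y, len' x y = s * len x y)
    (h2 : ∀ x y, ρ' x y = s * ρ x y) (h3 : δ' = s * δ) : Sep c len' ρ' U p δ' := by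
  obtain ⟨lab, P, π, p1, p2, p3, p4⟩ := h
  refine ⟨lab, P, π, p1, p2, p3, ?_⟩
  have := mul_le_mul_of_nonneg_left p4 hs
  rw [mul_add, mul_sum, mul_sum] at this
  simp only [mul_sum] at this
  rw [h3]
  refine le_of_eq_of_le ?_ (this.trans_eq ?_)
  · refine sum_congr rfl fun u _ => sum_congr rfl fun v _ => ?_
    split_ifs
    · simp
    · rw [h2, h2]; ring
  · congr 1
    refine sum_congr rfl fun u _ => sum_congr rfl fun v _ => ?_
    split_ifs
    · simp
    · rw [h1]; ring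

theorem Net.scale {V : Type} {G : SimpleGraph V} {c ρ : V → V → ℝ} {l : V → V → ℕ}
    (h : Net G c l ρ) (K : ℕ) : Net G c (fun x y => K * l x y) (fun x y => K * ρ x y) := by
  have hK : (0 : ℝ) ≤ K := Nat.cast_nonneg K
  refine ⟨h.c_nonneg, h.c_symm, h.c_adj, fun x y => by rw [h.l_symm],
    fun x => by rw [h.ρ_self, mul_zero], fun x y => by rw [h.ρ_symm], fun x y z => ?_,
    fun x y e => ?_⟩
  · rw [← mul_add]; exact mul_le_mul_of_nonneg_left (h.ρ_tri x y z) hK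
  · push_cast; exact mul_le_mul_of_nonneg_left (h.ρ_le x y e) hK

theorem sep_of_vol_zero {V : Type} {G : SimpleGraph V} {c ρ : V → V → ℝ} {l : V → V → ℕ}
    (hN : Net G c l ρ) (hl : ∀ x y, G.Adj x y → 1 ≤ l x y) (U : Finset V) (hU : 2 ≤ U.card)
    (h0 : vol c l U = 0) (p : ℕ) : Sep c (fun x y => (l x y : ℝ)) ρ U p 0 := by
  have hc : ∀ u ∈ U, ∀ v ∈ U, c u v = 0 := by
    intro u hu v hv
    by_contra hne
    have nn : ∀ x y, 0 ≤ c x y * (l x y : ℝ) := fun x y =>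
      mul_nonneg (hN.c_nonneg x y) (Nat.cast_nonneg _)
    have e1 := (sum_eq_zero_iff_of_nonneg fun x _ => sum_nonneg fun y _ => nn x y).1 h0 u hu
    have e2 := (sum_eq_zero_iff_of_nonneg fun y _ => nn u y).1 e1 v hv
    rcases mul_eq_zero.1 e2 with e | e
    · exact hne e
    · have := hl u v (hN.c_adj u v hne)
      have : l u v = 0 := by exact_mod_cast e
      omega
  refine ⟨fun x => {x}, ∅, fun u _ => u, by simp, fun y _ => ⟨mem_singleton_self _, by simpa⟩,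
    fun u hu v hv _ h => absurd (hc u hu v hv) h, ?_⟩
  rw [add_zero]
  refine sum_le_sum fun u hu => sum_le_sum fun v hv => ?_
  rw [hc u hu v hv]
  simp

/-- balanced separators with few portals in graphs without a complete minor -/
theorem exists_sep (t : ℕ) (ht : 2 ≤ t) (b T : ℕ) (hT : 1 ≤ T) :
    ∀ (V : Type) [Fintype V] (G : SimpleGraph V), ¬ KMinor G t →
      ∀ lam : ℕ, 1 ≤ lam → Fintype.card V < 2 ^ lam →
      ∃ p : ℕ, p * lam + 3 ≤ 10 ^ 14 * (t + 1) ^ 6 * (b + 2) ^ 3 * T * lam ^ 8 ∧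
        ∀ (c ρ : V → V → ℝ) (l : V → V → ℕ), Net G c l ρ →
          (∀ x y, G.Adj x y → 1 ≤ l x y ∧ l x y ≤ 2 ^ (b * lam)) →
          ∀ U : Finset V, 2 ≤ U.card →
            Sep c (fun x y => (l x y : ℝ)) ρ U p (1 / (lam * T) * vol c l U) := by
  intro V _ G hG lam hlam hn
  obtain ⟨L, hL⟩ : ∃ L, L = (b + 1) * lam := ⟨_, rfl⟩
  obtain ⟨r, hr⟩ : ∃ r, r = 111 * lam * (L + 1) := ⟨_, rfl⟩
  obtain ⟨β, hβ⟩ : ∃ β, β = 32 * (t + 1) ^ 2 * r * lam * T := ⟨_, rfl⟩
  obtain ⟨m, hm⟩ : ∃ m, m = 2 * madD t * (75 * lam * L * β) := ⟨_, rfl⟩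
  have L1 : 1 ≤ L := by rw [hL]; exact Nat.mul_pos (by omega) hlam
  have r1 : 1 ≤ r := by rw [hr]; exact Nat.mul_pos (by omega) (by omega)
  have β1 : 0 < β := by rw [hβ]; positivity
  have m1 : 0 < m := by rw [hm, madD]; positivity
  refine ⟨(t + 1) * (8 * (t + 1) * r * m), ?_, ?_⟩
  · have e1 : r ≤ 111 * (b + 2) * lam ^ 2 := by
      rw [hr, hL]
      have : (b + 1) * lam + 1 ≤ (b + 2) * lam := by nlinarith
      calc 111 * lam * ((b + 1) * lam + 1) ≤ 111 * lam * ((b + 2) * lam) := by gcongr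
        _ = _ := by ring
    have e2 : (t + 1) * (8 * (t + 1) * r * m) * lam =
        1728000000 * (t + 1) ^ 6 * (b + 1) * T * r ^ 2 * lam ^ 4 := by
      rw [hm, hβ, hL, madD]; ring
    have e3 : 0 < (t + 1) ^ 6 * (b + 2) ^ 3 * T * lam ^ 8 := by positivity
    have e4 : 1728000000 * (t + 1) ^ 6 * (b + 1) * T * r ^ 2 * lam ^ 4
        ≤ 1728000000 * (t + 1) ^ 6 * (b + 2) * T * (111 * (b + 2) * lam ^ 2) ^ 2 * lam ^ 4 := by
      gcongr; omega
    have e5 : 1728000000 * (t + 1) ^ 6 * (b + 2) * T * (111 * (b + 2) * lam ^ 2) ^ 2 * lam ^ 4 =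
        21290688000000 * ((t + 1) ^ 6 * (b + 2) ^ 3 * T * lam ^ 8) := by ring
    have e6 : 10 ^ 14 * (t + 1) ^ 6 * (b + 2) ^ 3 * T * lam ^ 8 =
        100000000000000 * ((t + 1) ^ 6 * (b + 2) ^ 3 * T * lam ^ 8) := by ring
    omega
  intro c ρ l hN hl U hU
  rcases (vol_nonneg (l := l) hN.c_nonneg U).eq_or_lt with h0 | h0
  · rw [← h0, mul_zero]
    exact sep_of_vol_zero hN (fun x y e => (hl x y e).1) U hU h0.symm _
  have hN' := hN.scale (18 * lam)
  have hK : (0 : ℝ) < ((18 * lam : ℕ) : ℝ) := by positivity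
  have hvol : ∀ S, vol c (fun x y => 18 * lam * l x y) S = ((18 * lam : ℕ) : ℝ) * vol c l S := by
    intro S
    simp only [vol, mul_sum]
    refine sum_congr rfl fun x _ => sum_congr rfl fun y _ => ?_
    push_cast; ring
  have hβm : (0 : ℝ) < ((β * m : ℕ) : ℝ) := by positivity
  obtain ⟨τ, hτ⟩ : ∃ τ : ℝ, τ = ((18 * lam : ℕ) : ℝ) * vol c l U / ((β * m : ℕ) : ℝ) := ⟨_, rfl⟩
  have τ0 : 0 < τ := by rw [hτ]; positivity
  have key := sep_of_cover hN' t hG U τ τ0.le (8 * (t + 1) * r * m) fun W hW hne hc => by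
    obtain ⟨ctr, rk, Hub, h1, h2⟩ := exists_units hN' lam (Fintype.card V) (2 ^ (b * lam)) L
      (β * m) hlam hn (by
        rw [hL, add_mul, one_mul, pow_add, mul_comm]
        exact Nat.mul_le_mul_left _ hn.le)
      (fun x y e => ⟨Nat.le_mul_of_pos_right _ (hl x y e).1, Nat.mul_le_mul_left _ (hl x y e).2⟩)
      W (card_le_univ _) hne hc τ τ0 (by
        rw [hτ, mul_div_cancel₀ _ hβm.ne', ← hvol]
        exact vol_mono hN.c_nonneg hW) U.card hU (card_le_card hW)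
    rw [← hr] at h1
    refine cover_of_units hN' t ht hG W hne τ τ0.le U.card r _ m ctr rk Hub h1 h2 r1 m1 ?_
    have f0 : 1 ≤ β * m := Nat.mul_pos β1 m1
    have f1 : L ≤ lam * L * (β * m) := by
      calc L = 1 * L * 1 := by ring
        _ ≤ _ := by gcongr
    calc 2 * madD t * (1 + 72 * lam * L * (β * m) + 2 * L)
        ≤ 2 * madD t * (75 * (lam * L * (β * m))) := by
          refine Nat.mul_le_mul_left _ ?_
          have : 72 * lam * L * (β * m) = 72 * (lam * L * (β * m)) := by ring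
          omega
      _ = 2 * madD t * (75 * lam * L * β) * m := by ring
      _ = m ^ 2 := by rw [← hm]; ring
  refine key.scale (((18 * lam : ℕ) : ℝ))⁻¹ (by positivity) (fun x y => ?_) (fun x y => ?_) ?_
  · push_cast; field_simp
  · field_simp
  · have e1 : (0 : ℝ) < lam := by positivity
    have e2 : (0 : ℝ) < T := by positivity
    have e3 : (0 : ℝ) < r := by positivity
    have e4 : (0 : ℝ) < m := by positivity
    rw [hτ, hβ]
    push_cast
    field_simp
    ring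

end Pool.Agent.MP_d3be90_lc
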