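import Pool.Agent.MP_d3be90_lc.SBase

set_option autoImplicit false

open Finset
open scoped Classical

namespace Pool.Agent.MP_d3be90_lc

variable {V : Type}

/-- the state of the separator loop inside `U` -/
structure State (G : SimpleGraph V) (c ρ : V → V → ℝ) (U : Finset V) (τ : ℝ) (q t : ℕ)
    (W : Finset V) (I : Finset (Fin t)) (B P : Fin t → Finset V) (π : Fin t → V → V) : Prop where
  sub : W ⊆ U
  heavy : U.card < 2 * W.card
  conn : Conn G W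
  bne : ∀ i ∈ I, (B i).Nonempty
  bconn : ∀ i ∈ I, Conn G (B i)
  bW : ∀ i ∈ I, Disjoint (B i) W
  bpair : ∀ i ∈ I, ∀ j ∈ I, i ≠ j → Disjoint (B i) (B j) ∧ Touch G (B i) (B j)
  edge : ∀ x ∈ W, ∀ y ∈ U \ W, G.Adj x y → ∃ i ∈ I, y ∈ B i
  pcard : ∀ i ∈ I, (P i).card ≤ q
  pmem : ∀ i ∈ I, ∀ y ∈ B i, ∀ x ∈ W, G.Adj y x → π i y ∈ P i
  pcost : ∀ i ∈ I, ∑ y ∈ B i, ∑ x ∈ W, c y x * ρ y (π i y) ≤ q * τ

/-- a union `M` of at most `q` cheap light units of `W` -/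
structure Marked (c ρ : V → V → ℝ) (W : Finset V) (τ : ℝ) (u0 q : ℕ) (M : Finset V)
    (ctr : V → V) : Prop where
  sub : M ⊆ W
  closed : ∀ x ∈ W, ∀ y ∈ M, ctr x = ctr y → x ∈ M
  light : ∀ y ∈ M, 2 * (cls W ctr y).card ≤ u0
  card : (M.image ctr).card ≤ q
  cost : ∑ y ∈ M, ∑ x ∈ W, (if ctr x = ctr y then 0 else c y x * ρ y (ctr y)) ≤ q * τ

/-- the vertices of `W` with a neighbour in `B` -/
noncomputable def att (G : SimpleGraph V) (W B : Finset V) : Finset V :=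
  W.filter fun x => ∃ y ∈ B, G.Adj y x

end Pool.Agent.MP_d3be90_lc
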