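import Pool.Agent.MP_d3be90_lc.SHier

set_option autoImplicit false

open Finset
open scoped Classical

namespace Pool.Agent.MP_d3be90_lc

variable {V : Type}

lemma SUnits_exit {G : SimpleGraph V} {W B : Finset V} {a x : V} (h : WkM G.Adj W a x)
    (ha : a ∈ B) (hx : x ∉ B) : ∃ y ∈ B, ∃ z ∈ W, z ∉ B ∧ G.Adj y z := by
  have key : x ∈ B ∨ ∃ y ∈ B, ∃ z ∈ W, z ∉ B ∧ G.Adj y z := by
    refine h.ind (P := fun x => x ∈ B ∨ ∃ y ∈ B, ∃ z ∈ W, z ∉ B ∧ G.Adj y z) (Or.inl ha) ?_
    intro y z _ hyz hz ih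
    rcases ih with hy | ih
    · by_cases hzB : z ∈ B
      · exact Or.inl hzB
      · exact Or.inr ⟨y, hy, z, hz, hzB, hyz⟩
    · exact Or.inr ih
  exact key.resolve_left hx

theorem Conn.reach {G : SimpleGraph V} {l : V → V → ℕ} {W : Finset V} (h : Conn G W) (Λ : ℕ)
    (hl : ∀ x y, G.Adj x y → l x y ≤ Λ) {a : V} (ha : a ∈ W) :
    ∀ x ∈ W, Reach G l W a x (W.card * Λ) := by
  have key : ∀ j : ℕ, (∀ x ∈ W, Reach G l W a x (j * Λ)) ∨
      j + 1 ≤ (W.filter fun x => Reach G l W a x (j * Λ)).card := by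
    intro j
    induction j with
    | zero =>
      refine Or.inr (card_pos.2 ⟨a, mem_filter.2 ⟨ha, Reach.base _ ha⟩⟩)
    | succ j ih =>
      have hle : j * Λ ≤ (j + 1) * Λ := Nat.mul_le_mul_right _ (Nat.le_succ j)
      rcases ih with ih | ih
      · exact Or.inl fun x hx => (ih x hx).mono hle
      · by_cases hall : ∀ x ∈ W, Reach G l W a x (j * Λ)
        · exact Or.inl fun x hx => (hall x hx).mono hle
        · push Not at hall
          obtain ⟨x, hx, hx'⟩ := hall
          obtain ⟨y, hy, z, hz, hzB, hyz⟩ := SUnits_exit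
            (B := W.filter fun x => Reach G l W a x (j * Λ)) (h a ha x hx)
            (mem_filter.2 ⟨ha, Reach.base _ ha⟩) (fun e => hx' (mem_filter.1 e).2)
          refine Or.inr ?_
          have hsub : insert z (W.filter fun x => Reach G l W a x (j * Λ)) ⊆
              W.filter fun x => Reach G l W a x ((j + 1) * Λ) := by
            refine insert_subset (mem_filter.2 ⟨hz, ?_⟩) fun w hw =>
              mem_filter.2 ⟨(mem_filter.1 hw).1, (mem_filter.1 hw).2.mono hle⟩
            refine (Reach.step (mem_filter.1 hy).2 hyz hz).mono ?_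
            have := hl y z hyz
            rw [Nat.succ_mul]
            omega
          have := card_le_card hsub
          rw [card_insert_of_notMem hzB] at this
          omega
  rcases key W.card with e | e
  · exact e
  · have := card_filter_le W fun x => Reach G l W a x (W.card * Λ)
    omega

theorem exists_units {G : SimpleGraph V} {c ρ : V → V → ℝ} {l : V → V → ℕ} (hN : Net G c l ρ)
    (lam n Λ L N' : ℕ) (hlam : 1 ≤ lam) (hn : n < 2 ^ lam) (hL : n * Λ ≤ 2 ^ L)
    (hl : ∀ x y, G.Adj x y → 18 * lam ≤ l x y ∧ l x y ≤ 18 * lam * Λ)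
    (W : Finset V) (hW : W.card ≤ n) (hne : W.Nonempty) (hc : Conn G W)
    (τ : ℝ) (hτ : 0 < τ) (hV : vol c l W ≤ N' * τ) (u0 : ℕ) (hu : 2 ≤ u0) (hWu : W.card ≤ u0) :
    ∃ (ctr : V → V) (rk : V → ℕ) (Hub : Finset V),
      Units G c ρ W W τ u0 (111 * lam * (L + 1)) ctr rk Hub ∧
      Hub.card ≤ 1 + 72 * lam * L * N' + 2 * L := by
  obtain ⟨a, ha⟩ := hne
  have hrad : Rad G l W a (18 * lam * 2 ^ (L + 1)) := by
    refine ⟨ha, W.card * (18 * lam * Λ), ?_,
      hc.reach (18 * lam * Λ) (fun x y e => (hl x y e).2) ha⟩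
    have h1 : W.card * Λ ≤ 2 ^ L := (Nat.mul_le_mul_right _ hW).trans hL
    have h2 : 0 < 2 ^ L := Nat.pos_of_ne_zero (by positivity)
    calc W.card * (18 * lam * Λ) = 18 * lam * (W.card * Λ) := by ring
      _ ≤ 18 * lam * 2 ^ L := Nat.mul_le_mul_left _ h1
      _ < 18 * lam * 2 ^ (L + 1) := by
        refine Nat.mul_lt_mul_of_pos_left ?_ (by omega)
        rw [pow_succ]; omega
  obtain ⟨ctr, rk, Hub, hU, hH⟩ := hier hN lam n hlam hn (fun x y e => (hl x y e).1) W hW τ hτ
    u0 hu L W Subset.rfl a hrad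
  refine ⟨ctr, rk, Hub, hU, ?_⟩
  have hu0 : (0 : ℝ) < u0 := by exact_mod_cast (by omega : 0 < u0)
  have hWu' : (W.card : ℝ) ≤ u0 := by exact_mod_cast hWu
  have h3 : 2 * (L : ℝ) * τ * W.card / u0 ≤ 2 * L * τ := by
    rw [div_le_iff₀ hu0]
    exact mul_le_mul_of_nonneg_left hWu' (by positivity)
  have h4 : 72 * (lam : ℝ) * L * vol c l W ≤ 72 * lam * L * (N' * τ) :=
    mul_le_mul_of_nonneg_left hV (by positivity)
  simp only [sdiff_self, bot_eq_empty, sum_empty, sum_const_zero, mul_zero, add_zero] at hH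
  have h5 : τ * (Hub.card : ℝ) ≤ τ * (1 + 72 * lam * L * N' + 2 * L) := by
    nlinarith
  have h6 : (Hub.card : ℝ) ≤ 1 + 72 * lam * L * N' + 2 * L := le_of_mul_le_mul_left h5 hτ
  exact_mod_cast h6

end Pool.Agent.MP_d3be90_lc
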