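import Mathlib

set_option autoImplicit false

namespace Pool.Agent.MP_d3be90_lc

open Finset Relation

variable {V : Type}

/-- a walk of the relation `r` all of whose vertices lie in `D` -/
def WkM (r : V → V → Prop) (D : Finset V) (a b : V) : Prop :=
  a ∈ D ∧ ReflTransGen (fun x y => r x y ∧ x ∈ D ∧ y ∈ D) a b

namespace WkM

variable {r r' : V → V → Prop} {D D' : Finset V} {a b c : V}

lemma refl (h : a ∈ D) : WkM r D a a := ⟨h, ReflTransGen.refl⟩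

lemma last (h : WkM r D a b) : b ∈ D := by
  obtain ⟨h1, h2⟩ := h
  induction h2 with
  | refl => exact h1
  | tail _ h _ => exact h.2.2

lemma trans (h : WkM r D a b) (h' : WkM r D b c) : WkM r D a c := ⟨h.1, h.2.trans h'.2⟩

lemma tail (h : WkM r D a b) (h' : r b c) (hc : c ∈ D) : WkM r D a c :=
  ⟨h.1, h.2.tail ⟨h', h.last, hc⟩⟩

lemma mono (h : WkM r D a b) (hr : ∀ x y, r x y → r' x y) (hD : D ⊆ D') : WkM r' D' a b :=
  ⟨hD h.1, ReflTransGen.mono (fun x y e => ⟨hr x y e.1, hD e.2.1, hD e.2.2⟩) _ _ h.2⟩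

lemma monoD (h : WkM r D a b) (hD : D ⊆ D') : WkM r D' a b := h.mono (fun _ _ e => e) hD

lemma swap (h : WkM r D a b) : WkM (fun x y => r y x) D b a :=
  ⟨h.last, ReflTransGen.mono (fun _ _ e => ⟨e.1, e.2.2, e.2.1⟩) _ _ (reflTransGen_swap.2 h.2)⟩

lemma ind {P : V → Prop} (h : WkM r D a b) (h0 : P a)
    (h1 : ∀ x y, WkM r D a x → r x y → y ∈ D → P x → P y) : P b := by
  obtain ⟨ha, h2⟩ := h
  induction h2 with
  | refl => exact h0
  | tail h3 h ih => exact h1 _ _ ⟨ha, h3⟩ h.1 h.2.2 ih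

lemma split {v₁ v₂ : V} (h : WkM r D a b) (hr : ∀ x y, r x y → r' x y ∨ (x = v₁ ∧ y = v₂)) :
    WkM r' D a b ∨ (WkM r' D a v₁ ∧ WkM r' D v₂ b) := by
  refine h.ind (P := fun z => WkM r' D a z ∨ (WkM r' D a v₁ ∧ WkM r' D v₂ z)) (Or.inl (refl h.1)) ?_
  intro x y _ hxy hy ih
  rcases hr x y hxy with e | ⟨rfl, rfl⟩
  · exact ih.imp (fun h => h.tail e hy) fun h => ⟨h.1, h.2.tail e hy⟩
  · exact Or.inr ⟨ih.elim id And.left, refl hy⟩

variable [DecidableEq V]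

lemma hit (S : Finset V) (h : WkM r D a b) :
    WkM r (D \ S) a b ∨ ∃ s ∈ S, WkM r D a s ∧ WkM r D s b := by
  refine h.ind (P := fun z => WkM r (D \ S) a z ∨ ∃ s ∈ S, WkM r D a s ∧ WkM r D s z) ?_ ?_
  · by_cases ha : a ∈ S
    · exact Or.inr ⟨a, ha, refl h.1, refl h.1⟩
    · exact Or.inl (refl (mem_sdiff.2 ⟨h.1, ha⟩))
  · intro x y hx hxy hy ih
    by_cases hS : y ∈ S
    · exact Or.inr ⟨y, hS, hx.tail hxy hy, refl hy⟩
    · exact ih.imp (fun h => h.tail hxy (mem_sdiff.2 ⟨hy, hS⟩))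
        fun ⟨s, h1, h2, h3⟩ => ⟨s, h1, h2, h3.tail hxy hy⟩

lemma tight (X : Finset V) (h : WkM r D a b) (hb : b ∈ X) :
    ∃ e ∈ X, ∃ D' ⊆ D, WkM r D' a e ∧ ∀ x ∈ D', x = e ∨ WkM r (D \ X) a x := by
  classical
  set F := D.filter fun x => WkM r (D \ X) a x with hF
  have h1 : ∀ z, WkM r (D \ X) a z → WkM r F a z := fun z hz =>
    hz.ind (refl (mem_filter.2 ⟨h.1, refl hz.1⟩)) fun x y hx hxy hy ih =>
      ih.tail hxy (mem_filter.2 ⟨(mem_sdiff.1 hy).1, hx.tail hxy hy⟩)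
  have h2 : (∃ e ∈ X, e ∈ D ∧ WkM r (insert e F) a e) ∨ WkM r (D \ X) a b := by
    refine h.ind (P := fun z => (∃ e ∈ X, e ∈ D ∧ WkM r (insert e F) a e) ∨ WkM r (D \ X) a z) ?_ ?_
    · by_cases ha : a ∈ X
      · exact Or.inl ⟨a, ha, h.1, refl (mem_insert_self _ _)⟩
      · exact Or.inr (refl (mem_sdiff.2 ⟨h.1, ha⟩))
    · intro x y _ hxy hy ih
      rcases ih with ih | ih
      · exact Or.inl ih
      by_cases hX : y ∈ X
      · exact Or.inl ⟨y, hX, hy,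
          ((h1 x ih).monoD (subset_insert _ _)).tail hxy (mem_insert_self _ _)⟩
      · exact Or.inr (ih.tail hxy (mem_sdiff.2 ⟨hy, hX⟩))
  rcases h2 with ⟨e, he, heD, h3⟩ | h3
  · exact ⟨e, he, insert e F, insert_subset heD (filter_subset _ _), h3,
      fun x hx => (mem_insert.1 hx).imp id fun h => (mem_filter.1 h).2⟩
  · exact absurd hb (mem_sdiff.1 h3.last).2

end WkM

theorem menger_aux [Fintype V] [DecidableEq V] (m : ℕ) (E : Finset (V × V)) :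
    ∀ A B : Finset V,
    (∀ S : Finset V, S.card < m → ∃ a ∈ A, ∃ b ∈ B, WkM (fun x y => (x, y) ∈ E) Sᶜ a b) →
    ∃ (a b : Fin m → V) (D : Fin m → Finset V),
      (∀ i, a i ∈ A ∧ b i ∈ B ∧ WkM (fun x y => (x, y) ∈ E) (D i) (a i) (b i)) ∧
      ∀ i j, i ≠ j → Disjoint (D i) (D j) := by
  induction E using Finset.induction_on with
  | empty =>
    intro A B h
    have h1 : m ≤ (A ∩ B).card := by
      by_contra hc
      obtain ⟨a, ha, b, hb, hw⟩ := h _ (not_le.1 hc)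
      have : a = b := hw.ind rfl fun x y _ e => absurd e (notMem_empty _)
      exact mem_compl.1 hw.1 (mem_inter.2 ⟨ha, this ▸ hb⟩)
    obtain ⟨f⟩ : Nonempty (Fin m ↪ ↥(A ∩ B)) :=
      Function.Embedding.nonempty_of_card_le (by rwa [Fintype.card_fin, Fintype.card_coe])
    refine ⟨fun i => f i, fun i => f i, fun i => {(f i : V)}, fun i =>
      ⟨(mem_inter.1 (f i).2).1, (mem_inter.1 (f i).2).2, WkM.refl (mem_singleton_self _)⟩,
      fun i j hij => disjoint_singleton.2 fun e => hij (f.injective (Subtype.ext e))⟩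
  | insert v E _ ih =>
    obtain ⟨v₁, v₂⟩ := v
    intro A B h
    have hm : ∀ x y, (x, y) ∈ E → (x, y) ∈ insert (v₁, v₂) E := fun _ _ => mem_insert_of_mem
    have hs : ∀ x y, (x, y) ∈ insert (v₁, v₂) E → (x, y) ∈ E ∨ (x = v₁ ∧ y = v₂) := fun x y e =>
      (mem_insert.1 e).symm.imp id Prod.mk.inj
    by_cases hc : ∀ S : Finset V, S.card < m →
        ∃ a ∈ A, ∃ b ∈ B, WkM (fun x y => (x, y) ∈ E) Sᶜ a b
    · obtain ⟨a, b, D, h1, h2⟩ := ih A B hc
      exact ⟨a, b, D, fun i => ⟨(h1 i).1, (h1 i).2.1, (h1 i).2.2.mono hm Subset.rfl⟩, h2⟩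
    push Not at hc
    obtain ⟨S, hS, hsep⟩ := hc
    obtain ⟨hv₁, hv₂, hne⟩ : v₁ ∉ S ∧ v₂ ∉ S ∧ v₁ ≠ v₂ := by
      obtain ⟨a, ha, b, hb, hw⟩ := h S hS
      rcases hw.split hs with e | ⟨e₁, e₂⟩
      · exact absurd e (hsep a ha b hb)
      · refine ⟨mem_compl.1 e₁.last, mem_compl.1 e₂.1, ?_⟩
        rintro rfl
        exact hsep a ha b hb (e₁.trans e₂)
    have key : ∀ S' : Finset V, S'.card < m → ∃ a ∈ A, ∃ b ∈ B, ∃ x ∈ insert v₁ S,
        ∃ y ∈ insert v₂ S, WkM (fun x y => (x, y) ∈ E) S'ᶜ a x ∧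
          WkM (fun x y => (x, y) ∈ E) S'ᶜ y b := by
      intro S' hS'
      obtain ⟨a, ha, b, hb, hw⟩ := h S' hS'
      rcases hw.split hs with e | ⟨e₁, e₂⟩
      · rcases e.hit S with e' | ⟨s, h1, h2, h3⟩
        · exact absurd (e'.monoD fun x hx => mem_compl.2 (mem_sdiff.1 hx).2) (hsep a ha b hb)
        · exact ⟨a, ha, b, hb, s, mem_insert_of_mem h1, s, mem_insert_of_mem h1, h2, h3⟩
      · exact ⟨a, ha, b, hb, v₁, mem_insert_self _ _, v₂, mem_insert_self _ _, e₁, e₂⟩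
    obtain ⟨a, x, C₁, h1, d1⟩ := ih A (insert v₁ S) fun S' hS' => by
      obtain ⟨a, ha, -, -, x, hx, -, -, e, -⟩ := key S' hS'
      exact ⟨a, ha, x, hx, e⟩
    obtain ⟨y, b, C₂, h2, d2⟩ := ih (insert v₂ S) B fun S' hS' => by
      obtain ⟨-, -, b, hb, -, -, y, hy, -, e⟩ := key S' hS'
      exact ⟨y, hy, b, hb, e⟩
    choose e₁ he₁ D₁ s₁ w₁ t₁ using fun i => (h1 i).2.2.tight (insert v₁ S) (h1 i).2.1
    choose e₂ he₂ D₂ s₂ w₂ t₂ using fun i => (h2 i).2.2.swap.tight (insert v₂ S) (h2 i).1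
    replace d1 : ∀ i j, i ≠ j → Disjoint (D₁ i) (D₁ j) := fun i j e =>
      (d1 i j e).mono (s₁ i) (s₁ j)
    replace d2 : ∀ i j, i ≠ j → Disjoint (D₂ i) (D₂ j) := fun i j e =>
      (d2 i j e).mono (s₂ i) (s₂ j)
    have i₁ : Function.Injective e₁ := fun i j e => by_contra fun c =>
      disjoint_left.1 (d1 i j c) (w₁ i).last (e ▸ (w₁ j).last)
    have i₂ : Function.Injective e₂ := fun i j e => by_contra fun c =>
      disjoint_left.1 (d2 i j c) (w₂ i).last (e ▸ (w₂ j).last)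
    have sj : ∀ z ∈ insert v₂ S, ∃ j, e₂ j = z := by
      have : univ.image e₂ = insert v₂ S := by
        refine eq_of_subset_of_card_le (fun z hz => ?_) ?_
        · obtain ⟨j, -, rfl⟩ := mem_image.1 hz
          exact he₂ j
        · rw [card_image_of_injective _ i₂, card_univ, Fintype.card_fin]
          exact (card_insert_le _ _).trans hS
      intro z hz
      rw [← this] at hz
      obtain ⟨j, -, e⟩ := mem_image.1 hz
      exact ⟨j, e⟩
    have sj' : ∀ i, ∃ j, (e₁ i = v₁ ∧ e₂ j = v₂) ∨ (e₁ i ∈ S ∧ e₂ j = e₁ i) := fun i => by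
      rcases mem_insert.1 (he₁ i) with e | e
      · exact (sj v₂ (mem_insert_self _ _)).imp fun j e' => Or.inl ⟨e, e'⟩
      · exact (sj _ (mem_insert_of_mem e)).imp fun j e' => Or.inr ⟨e, e'⟩
    choose J hJ using sj'
    have u₁ : ∀ i, ∀ z ∈ D₁ i, (z = e₁ i ∧ z ∈ S) ∨ WkM (fun x y => (x, y) ∈ E) Sᶜ (a i) z := by
      intro i z hz
      have q : ∀ z, WkM (fun x y => (x, y) ∈ E) (C₁ i \ insert v₁ S) (a i) z →
          WkM (fun x y => (x, y) ∈ E) Sᶜ (a i) z := fun z e =>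
        e.monoD fun x hx => mem_compl.2 fun c => (mem_sdiff.1 hx).2 (mem_insert_of_mem c)
      rcases t₁ i z hz with rfl | e
      · by_cases c : e₁ i ∈ S
        · exact Or.inl ⟨rfl, c⟩
        · exact Or.inr ((w₁ i).monoD fun x hx =>
            (t₁ i x hx).elim (fun e => e ▸ mem_compl.2 c) fun e => (q x e).last)
      · exact Or.inr (q z e)
    have u₂ : ∀ i, ∀ z ∈ D₂ i, (z = e₂ i ∧ z ∈ S) ∨ WkM (fun x y => (x, y) ∈ E) Sᶜ z (b i) := by
      intro i z hz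
      have q : ∀ z, WkM (fun x y => (y, x) ∈ E) (C₂ i \ insert v₂ S) (b i) z →
          WkM (fun x y => (y, x) ∈ E) Sᶜ (b i) z := fun z e =>
        e.monoD fun x hx => mem_compl.2 fun c => (mem_sdiff.1 hx).2 (mem_insert_of_mem c)
      rcases t₂ i z hz with rfl | e
      · by_cases c : e₂ i ∈ S
        · exact Or.inl ⟨rfl, c⟩
        · exact Or.inr ((w₂ i).monoD fun x hx =>
            (t₂ i x hx).elim (fun e => e ▸ mem_compl.2 c) fun e => (q x e).last).swap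
      · exact Or.inr (q z e).swap
    have d3 : ∀ i j, i ≠ j → Disjoint (D₁ i) (D₂ (J j)) := by
      intro i j hij
      refine disjoint_left.2 fun z hz hz' => ?_
      rcases u₁ i z hz with ⟨p₁, p₂⟩ | p
      · rcases u₂ _ z hz' with ⟨p₃, -⟩ | p'
        · rcases hJ j with ⟨-, e⟩ | ⟨-, e⟩
          · exact hv₂ (e ▸ p₃ ▸ p₂)
          · exact hij (i₁ (p₁.symm.trans (p₃.trans e)))
        · exact mem_compl.1 p'.1 p₂
      · rcases u₂ _ z hz' with ⟨-, p₄⟩ | p'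
        · exact mem_compl.1 p.last p₄
        · exact hsep _ (h1 i).1 _ (h2 _).2.1 (p.trans p')
    have iJ : Function.Injective J := fun i j e => by
      rcases hJ i with ⟨p₁, p₂⟩ | ⟨p₁, p₂⟩ <;> rcases hJ j with ⟨p₃, p₄⟩ | ⟨p₃, p₄⟩
      · exact i₁ (p₁.trans p₃.symm)
      · exact absurd (p₂ ▸ e ▸ p₄ ▸ p₃) hv₂
      · exact absurd (p₄ ▸ e ▸ p₂ ▸ p₁) hv₂
      · exact i₁ (p₂.symm.trans (e ▸ p₄))
    refine ⟨a, fun i => b (J i), fun i => D₁ i ∪ D₂ (J i), fun i =>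
      ⟨(h1 i).1, (h2 _).2.1, ?_⟩, fun i j hij => ?_⟩
    · have q₁ := (w₁ i).mono hm (subset_union_left (s₂ := D₂ (J i)))
      have q₂ := (w₂ (J i)).swap.mono hm (subset_union_right (s₁ := D₁ i))
      rcases hJ i with ⟨p₁, p₂⟩ | ⟨-, p₂⟩
      · exact (q₁.tail (by rw [p₁, p₂]; exact mem_insert_self _ _) q₂.1).trans q₂
      · exact q₁.trans (p₂ ▸ q₂)
    · exact disjoint_union_left.2 ⟨disjoint_union_right.2 ⟨d1 i j hij, d3 i j hij⟩,
        disjoint_union_right.2 ⟨(d3 j i hij.symm).symm, d2 _ _ (iJ.ne hij)⟩⟩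

end Pool.Agent.MP_d3be90_lc
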