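import Pool.Agent.MP_d3be90_lc.SCore

set_option autoImplicit false

open Finset
open scoped Classical

namespace Pool.Agent.MP_d3be90_lc

lemma SWin_geom (M : ℝ) (hM : 2 ≤ M) (s : ℤ) (S : Finset ℤ) :
    ∀ a : ℤ, (∀ y ∈ S, y ≤ a) → ∑ y ∈ S, M ^ (y + s) ≤ 2 * M ^ (a + s) := by
  have h0 : 0 < M := by linarith
  induction S using Finset.induction_on_max with
  | empty => intro a _; rw [sum_empty]; positivity
  | insert m S hm ih =>
    intro a ha
    rw [sum_insert fun h => lt_irrefl _ (hm m h)]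
    have h1 := ih (m - 1) fun y hy => by have := hm y hy; omega
    have h2 : M ^ (m + s) = M * M ^ (m - 1 + s) := by
      rw [← zpow_one_add₀ h0.ne']; congr 1; ring
    have h3 : M ^ (m + s) ≤ M ^ (a + s) :=
      zpow_le_zpow_right₀ (by linarith) (by have := ha m (mem_insert_self _ _); omega)
    have h4 : 0 < M ^ (m - 1 + s) := by positivity
    nlinarith

theorem sum_window (M : ℝ) (hM : 2 ≤ M) (T : ℕ) (x : ℝ) (hx : 0 ≤ x) (Y : Finset ℤ) :
    ∑ y ∈ Y, (if M ^ (y - 1) ≤ x then min x (M ^ (y + T + 1)) else 0) ≤ (T + 4) * x := by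
  have h0 : 0 < M := by linarith
  have h1 : 1 < M := by linarith
  rcases hx.eq_or_lt with rfl | hx'
  · rw [mul_zero]
    refine (sum_eq_zero fun y _ => if_neg (not_le.2 ?_)).le
    positivity
  obtain ⟨b, hb1, hb2⟩ := exists_mem_Ico_zpow hx' h1
  rw [← sum_filter_add_sum_filter_not Y fun y => b - T - 1 ≤ y]
  have e1 : ∑ y ∈ Y.filter (fun y => b - T - 1 ≤ y),
      (if M ^ (y - 1) ≤ x then min x (M ^ (y + T + 1)) else 0) ≤ (T + 3) * x := by
    rw [← sum_filter]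
    have hs : (Y.filter fun y => b - T - 1 ≤ y).filter (fun y => M ^ (y - 1) ≤ x) ⊆
        Icc (b - T - 1) (b + 1) := by
      intro y hy
      obtain ⟨hy1, hy2⟩ := mem_filter.1 hy
      have := (zpow_lt_zpow_iff_right₀ h1).1 (hy2.trans_lt hb2)
      exact mem_Icc.2 ⟨(mem_filter.1 hy1).2, by omega⟩
    have hc : (Icc (b - T - 1) (b + 1)).card = T + 3 := by rw [Int.card_Icc]; omega
    calc _ ≤ ∑ _y ∈ (Y.filter fun y => b - T - 1 ≤ y).filter (fun y => M ^ (y - 1) ≤ x), x :=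
          sum_le_sum fun y _ => min_le_left _ _
      _ ≤ ∑ _y ∈ Icc (b - T - 1) (b + 1), x :=
          sum_le_sum_of_subset_of_nonneg hs fun _ _ _ => hx
      _ = (T + 3) * x := by rw [sum_const, hc, nsmul_eq_mul]; push_cast; ring
  have e2 : ∑ y ∈ Y.filter (fun y => ¬ b - T - 1 ≤ y),
      (if M ^ (y - 1) ≤ x then min x (M ^ (y + T + 1)) else 0) ≤ x := by
    have h2 := SWin_geom M hM (T + 1) (Y.filter fun y => ¬ b - T - 1 ≤ y) (b - T - 2)
      fun y hy => by have := (mem_filter.1 hy).2; omega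
    have h3 : M ^ b = M * M ^ (b - T - 2 + (T + 1)) := by
      rw [← zpow_one_add₀ h0.ne']; congr 1; ring
    have h4 : 0 < M ^ (b - T - 2 + (T + 1)) := by positivity
    refine le_trans (sum_le_sum fun y _ => ?_) (h2.trans (by nlinarith))
    rw [← add_assoc]
    split_ifs
    · exact min_le_right _ _
    · positivity
  linarith

variable {V : Type} [Fintype V]

lemma SWin_le_cut {c : V → V → ℝ} (hc : ∀ x y, 0 ≤ c x y) {A : Finset V} {u v : V}
    (h : ¬ (u ∈ A ↔ v ∈ A)) : c u v ≤ cutW c A := by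
  have h0 : ∀ x y, 0 ≤ (if (x ∈ A ↔ y ∈ A) then 0 else c x y) := fun x y => by
    split_ifs
    · exact le_rfl
    · exact hc x y
  calc c u v = if (u ∈ A ↔ v ∈ A) then 0 else c u v := (if_neg h).symm
    _ ≤ ∑ y, (if (u ∈ A ↔ y ∈ A) then 0 else c u y) :=
        single_le_sum (f := fun y => if (u ∈ A ↔ y ∈ A) then 0 else c u y)
          (fun y _ => h0 u y) (mem_univ v)
    _ ≤ _ := single_le_sum (f := fun x => ∑ y, (if (x ∈ A ↔ y ∈ A) then 0 else c x y))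
        (fun x _ => sum_nonneg fun y _ => h0 x y) (mem_univ u)

lemma SWin_cut_le {c c' : V → V → ℝ} {A : Finset V} {a B : ℝ} (hB : 0 ≤ B)
    (h : ∀ u v, ¬ (u ∈ A ↔ v ∈ A) → c u v ≤ a * c' u v + B) :
    cutW c A ≤ a * cutW c' A + (Fintype.card V : ℝ) ^ 2 * B := by
  have e : (Fintype.card V : ℝ) ^ 2 * B = ∑ _u : V, ∑ _v : V, B := by
    simp only [sum_const, card_univ, nsmul_eq_mul]; ring
  unfold cutW
  rw [e, mul_sum, ← sum_add_distrib]
  refine sum_le_sum fun u _ => ?_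
  rw [mul_sum, ← sum_add_distrib]
  refine sum_le_sum fun v _ => ?_
  split_ifs with h1
  · linarith
  · exact h u v h1

lemma SWin_scale {M : ℝ} (hM : 1 < M) {c dem : V → V → ℝ} (hd : ∀ x y, 0 ≤ dem x y)
    (hcut : ∀ A, cutW dem A ≤ cutW c A) (u v : V) :
    ∃ g : ℤ, u ≠ v → 0 < dem u v →
      (∀ A : Finset V, ¬ (u ∈ A ↔ v ∈ A) → M ^ g ≤ cutW c A) ∧ dem u v < M ^ (g + 1) := by
  by_cases h : u ≠ v ∧ 0 < dem u v
  · obtain ⟨A, hA, hmin⟩ := exists_min_image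
      (univ.filter fun A : Finset V => ¬ (u ∈ A ↔ v ∈ A)) (cutW c)
      ⟨{u}, mem_filter.2 ⟨mem_univ _, by simp [h.1.symm]⟩⟩
    have h1 : dem u v ≤ cutW c A := (SWin_le_cut hd (mem_filter.1 hA).2).trans (hcut A)
    obtain ⟨g, hg1, hg2⟩ := exists_mem_Ico_zpow (h.2.trans_le h1) hM
    exact ⟨g, fun _ _ => ⟨fun B hB => hg1.trans (hmin B (mem_filter.2 ⟨mem_univ _, hB⟩)),
      h1.trans_lt hg2⟩⟩
  · exact ⟨0, fun h1 h2 => absurd ⟨h1, h2⟩ h⟩

lemma SWin_cut {M : ℝ} (hM : 1 < M) {T : ℕ} (hT : 1 ≤ T)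
    (hn : T * (Fintype.card V : ℝ) ^ 2 ≤ M) {c dem : V → V → ℝ} (hc : ∀ x y, 0 ≤ c x y)
    (hd : ∀ x y, 0 ≤ dem x y) (hcut : ∀ A, cutW dem A ≤ cutW c A) (g : V → V → ℤ)
    (hg : ∀ u v, u ≠ v → 0 < dem u v →
      (∀ A : Finset V, ¬ (u ∈ A ↔ v ∈ A) → M ^ g u v ≤ cutW c A) ∧ dem u v < M ^ (g u v + 1))
    (y : ℤ) (A : Finset V) :
    cutW (fun u v => if (u ≠ v ∧ 0 < dem u v) ∧ y ∈ Ioc (g u v - T) (g u v)
        then (1 - 1 / (T : ℝ)) * dem u v else 0) A ≤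
      cutW (fun u v => if M ^ (y - 1) ≤ c u v then min (c u v) (M ^ (y + T + 1)) else 0) A := by
  have h0 : 0 < M := by linarith
  have hT' : (1 : ℝ) ≤ T := by exact_mod_cast hT
  have hx0 : 0 < 1 / (T : ℝ) := by positivity
  have hx1 : 1 / (T : ℝ) ≤ 1 := by rw [div_le_one (by linarith)]; exact hT'
  have hn2 : 0 ≤ (Fintype.card V : ℝ) ^ 2 := by positivity
  set cy : V → V → ℝ :=
    fun u v => if M ^ (y - 1) ≤ c u v then min (c u v) (M ^ (y + T + 1)) else 0 with hcy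
  have hcy0 : ∀ u v, 0 ≤ cy u v := fun u v => by
    simp only [hcy]
    split_ifs
    · exact le_min (hc u v) (by positivity)
    · exact le_rfl
  by_cases h1 : ∃ u v, ¬ (u ∈ A ↔ v ∈ A) ∧ (u ≠ v ∧ 0 < dem u v) ∧ y ∈ Ioc (g u v - T) (g u v)
  swap
  · refine (SWin_cut_le (c' := cy) (a := 1) (B := 0) le_rfl fun u v h => ?_).trans (by simp)
    rw [if_neg fun h2 => h1 ⟨u, v, h, h2⟩]
    linarith [hcy0 u v]
  obtain ⟨u0, v0, h2, h3, h4⟩ := h1
  have h5 : M ^ y ≤ cutW c A :=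
    (zpow_le_zpow_right₀ hM.le (mem_Ioc.1 h4).2).trans ((hg u0 v0 h3.1 h3.2).1 A h2)
  by_cases h6 : ∃ p q, ¬ (p ∈ A ↔ q ∈ A) ∧ M ^ (y + T + 1) ≤ c p q
  · obtain ⟨p, q, h7, h8⟩ := h6
    have h9 : cy p q = M ^ (y + T + 1) := by
      simp only [hcy]
      rw [if_pos ((zpow_le_zpow_right₀ hM.le (by omega)).trans h8), min_eq_right h8]
    have h10 := SWin_le_cut hcy0 h7
    have h11 : 0 < M ^ (y + T) := by positivity
    rw [h9, zpow_add_one₀ h0.ne'] at h10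
    refine (SWin_cut_le (c' := cy) (a := 0) (B := M ^ (y + T)) h11.le fun u v _ => ?_).trans ?_
    · rw [zero_mul, zero_add]
      split_ifs with h
      · have a1 := (hg u v h.1.1 h.1.2).2
        have a2 : M ^ (g u v + 1) ≤ M ^ (y + T) :=
          zpow_le_zpow_right₀ hM.le (by have := (mem_Ioc.1 h.2).1; omega)
        nlinarith [hd u v]
      · exact h11.le
    · have : (Fintype.card V : ℝ) ^ 2 ≤ M := by nlinarith
      nlinarith
  · have h11 : 0 < M ^ (y - 1) := by positivity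
    have h7 : cutW c A ≤ 1 * cutW cy A + (Fintype.card V : ℝ) ^ 2 * M ^ (y - 1) := by
      refine SWin_cut_le h11.le fun p q h => ?_
      have h8 : c p q ≤ M ^ (y + T + 1) := (not_le.1 fun h9 => h6 ⟨p, q, h, h9⟩).le
      simp only [hcy]
      split_ifs with h9
      · rw [min_eq_left h8]; linarith
      · linarith [not_le.1 h9]
    have h8 : M ^ y = M ^ (y - 1) * M := by rw [← zpow_add_one₀ h0.ne']; congr 1; ring
    have h9 : (Fintype.card V : ℝ) ^ 2 * M ^ (y - 1) ≤ 1 / (T : ℝ) * cutW c A := by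
      rw [one_div_mul_eq_div, le_div_iff₀ (by linarith)]
      nlinarith
    refine (SWin_cut_le (c' := dem) (a := 1 - 1 / (T : ℝ)) (B := 0) le_rfl fun u v _ => ?_).trans ?_
    · split_ifs
      · linarith
      · nlinarith [hd u v]
    · have := mul_le_mul_of_nonneg_left (hcut A) (sub_nonneg.2 hx1)
      linarith

omit [Fintype V] in
lemma SWin_num {ε : ℝ} {T : ℕ} (hT : 2 ≤ T) (hε : 50 / ε ≤ T) (h0 : 0 < ε) :
    2 * (1 + 1 / (T : ℝ)) ^ 2 * (T + 4) ≤ (2 + ε) * (T * (1 - 1 / (T : ℝ))) := by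
  have hT' : (2 : ℝ) ≤ T := by exact_mod_cast hT
  have hx0 : 0 < 1 / (T : ℝ) := by positivity
  have hx1 : 1 / (T : ℝ) ≤ 1 / 2 := by gcongr
  have hx2 : 50 * (1 / (T : ℝ)) ≤ ε := by
    rw [div_le_iff₀ h0] at hε
    rw [mul_one_div, div_le_iff₀ (by linarith)]
    linarith
  have e : (T : ℝ) + 4 = T * (1 + 4 * (1 / (T : ℝ))) := by field_simp
  rw [e]
  generalize 1 / (T : ℝ) = x at *
  have h1 : 2 * (1 + x) ^ 2 * (1 + 4 * x) ≤ (2 + ε) * (1 - x) := by
    have a1 : (2 + 50 * x) * (1 - x) ≤ (2 + ε) * (1 - x) :=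
      mul_le_mul_of_nonneg_right (by linarith) (by linarith)
    have a2 : x * x ≤ x * (1 / 2) := mul_le_mul_of_nonneg_left hx1 hx0.le
    have a3 : x * (x * x) ≤ x * (x * (1 / 2)) := mul_le_mul_of_nonneg_left a2 hx0.le
    nlinarith
  nlinarith

/-- arbitrary capacities -/
theorem win (t : ℕ) (ht : 2 ≤ t) (ε : ℝ) (hε : 0 < ε) (T : ℕ) (hT2 : 2 ≤ T) (hTε : 50 / ε ≤ T) :
    ∀ (V : Type) [Fintype V] (G : SimpleGraph V), ¬ KMinor G t →
      ∀ lam : ℕ, 1 ≤ lam → Fintype.card V < 2 ^ lam →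
      ∀ (k : ℕ) (μ : Finset V → Finset V → ℝ), SA k μ → 3 ≤ k →
        10 ^ 17 * (t + 1) ^ 6 * T ^ 7 * lam ^ 8 ≤ k →
      ∀ c : V → V → ℝ, (∀ x y, 0 ≤ c x y) → (∀ x y, c x y = c y x) →
        (∀ x y, ¬ G.Adj x y → c x y = 0) →
      ∀ dem : V → V → ℝ, (∀ x y, 0 ≤ dem x y) → (∀ A, cutW dem A ≤ cutW c A) →
        ∑ u, ∑ v, dem u v * dSA μ u v ≤ (2 + ε) * ∑ u, ∑ v, c u v * dSA μ u v := by
  have hc0 := core t ht ((T + 2) ^ 2) T (by omega)
  intro V _ G hG lam hlam hn k μ hμ hk hk0 c hc hcs hcG dem hd hcut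
  have hk' : 10 ^ 14 * (t + 1) ^ 6 * ((T + 2) ^ 2 + 2 + T + 2) ^ 3 * T * lam ^ 8 ≤ k := by
    refine le_trans ?_ hk0
    have e : (T + 2) ^ 2 + 2 + T + 2 ≤ 10 * T ^ 2 := by nlinarith
    calc 10 ^ 14 * (t + 1) ^ 6 * ((T + 2) ^ 2 + 2 + T + 2) ^ 3 * T * lam ^ 8
        ≤ 10 ^ 14 * (t + 1) ^ 6 * (10 * T ^ 2) ^ 3 * T * lam ^ 8 := by gcongr
      _ = _ := by ring
  have hT' : (2 : ℝ) ≤ T := by exact_mod_cast hT2
  set M : ℝ := 2 ^ ((T + 2) * lam) with hMdef
  have hM2 : 2 ≤ M := le_self_pow₀ (by norm_num) (by positivity)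
  have hM : 1 < M := by linarith
  have h0 : 0 < M := by linarith
  have hMn : T * (Fintype.card V : ℝ) ^ 2 ≤ M := by
    have a1 : T ≤ 2 ^ (T * lam) :=
      (Nat.lt_two_pow_self).le.trans (Nat.pow_le_pow_right (by norm_num) (by nlinarith))
    have a2 : T * Fintype.card V ^ 2 ≤ 2 ^ ((T + 2) * lam) := by
      rw [show (T + 2) * lam = T * lam + lam * 2 by ring, pow_add, pow_mul 2 lam 2]
      exact Nat.mul_le_mul a1 (Nat.pow_le_pow_left hn.le 2)
    rw [hMdef]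
    exact_mod_cast a2
  choose g hg using SWin_scale hM hd hcut
  have hd0 := hμ.d_nonneg (by omega)
  have key : ∀ y : ℤ, ∑ u, ∑ v, (if (u ≠ v ∧ 0 < dem u v) ∧ y ∈ Ioc (g u v - T) (g u v)
        then (1 - 1 / (T : ℝ)) * dem u v else 0) * dSA μ u v ≤ 2 * (1 + 1 / (T : ℝ)) ^ 2 *
      ∑ u, ∑ v, (if M ^ (y - 1) ≤ c u v then min (c u v) (M ^ (y + T + 1)) else 0) * dSA μ u v := by
    intro y
    have hlo : 0 < M ^ (y - 1) := by positivity
    let Gy : SimpleGraph V :=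
      { Adj := fun u v => G.Adj u v ∧ M ^ (y - 1) ≤ c u v
        symm := ⟨fun u v h => ⟨h.1.symm, hcs u v ▸ h.2⟩⟩
        loopless := ⟨fun u h => G.irrefl h.1⟩ }
    refine hc0 V Gy (fun h => hG (h.mono fun u v e => e.1)) lam hlam hn k μ hμ hk hk'
      (fun u v => if M ^ (y - 1) ≤ c u v then min (c u v) (M ^ (y + T + 1)) else 0) (M ^ (y - 1))
      hlo (fun u v => by rw [hcs u v]) (fun u v h => if_neg fun h1 => h ⟨?_, h1⟩)
      (fun u v h => ?_) _ (fun u v => ?_) (SWin_cut hM (by omega) hMn hc hd hcut g hg y)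
    · by_contra h2
      rw [hcG u v h2] at h1
      linarith
    · have e : M ^ (y + T + 1) = M ^ (y - 1) * 2 ^ ((T + 2) ^ 2 * lam) := by
        rw [show (T + 2) ^ 2 * lam = (T + 2) * lam * (T + 2) by ring, pow_mul, ← hMdef,
          ← zpow_natCast, ← zpow_add₀ h0.ne']
        congr 1
        push_cast
        ring
      rw [if_pos h.2, ← e]
      exact ⟨le_min h.2 (zpow_le_zpow_right₀ hM.le (by omega)), min_le_right _ _⟩
    · split_ifs
      · refine mul_nonneg (sub_nonneg.2 ?_) (hd u v)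
        rw [div_le_one (by linarith)]
        linarith
      · exact le_rfl
  let Y : Finset ℤ := univ.biUnion fun p : V × V => Ioc (g p.1 p.2 - T) (g p.1 p.2)
  have hsum := sum_le_sum fun y (_ : y ∈ Y) => key y
  have hL : ∑ y ∈ Y, ∑ u, ∑ v, (if (u ≠ v ∧ 0 < dem u v) ∧ y ∈ Ioc (g u v - T) (g u v)
        then (1 - 1 / (T : ℝ)) * dem u v else 0) * dSA μ u v =
      T * (1 - 1 / (T : ℝ)) * ∑ u, ∑ v, dem u v * dSA μ u v := by
    rw [sum_comm, mul_sum]
    refine sum_congr rfl fun u _ => ?_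
    rw [sum_comm, mul_sum]
    refine sum_congr rfl fun v _ => ?_
    by_cases h : u ≠ v ∧ 0 < dem u v
    · have hs : Y.filter (fun y => y ∈ Ioc (g u v - T) (g u v)) = Ioc (g u v - T) (g u v) := by
        ext y
        exact mem_filter.trans ⟨And.right, fun e => ⟨mem_biUnion.2 ⟨(u, v), mem_univ _, e⟩, e⟩⟩
      have hc : (Ioc (g u v - T) (g u v)).card = T := by rw [Int.card_Ioc]; omega
      simp only [h, ne_eq, not_false_eq_true, and_self, true_and]
      rw [← sum_mul, ← sum_filter, hs, sum_const, hc, nsmul_eq_mul]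
      ring
    · have e : dem u v * dSA μ u v = 0 := by
        by_cases h1 : u = v
        · rw [h1, dSA_self, mul_zero]
        · rw [le_antisymm (not_lt.1 fun h2 => h ⟨h1, h2⟩) (hd u v), zero_mul]
      rw [e, mul_zero]
      exact sum_eq_zero fun y _ => by rw [if_neg fun h2 => h h2.1, zero_mul]
  have hR : ∑ y ∈ Y, ∑ u, ∑ v,
      (if M ^ (y - 1) ≤ c u v then min (c u v) (M ^ (y + T + 1)) else 0) * dSA μ u v ≤
      (T + 4) * ∑ u, ∑ v, c u v * dSA μ u v := by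
    rw [sum_comm, mul_sum]
    refine sum_le_sum fun u _ => ?_
    rw [sum_comm, mul_sum]
    refine sum_le_sum fun v _ => ?_
    rw [← sum_mul, ← mul_assoc]
    exact mul_le_mul_of_nonneg_right (sum_window M hM2 T _ (hc u v) Y) (hd0 u v)
  rw [hL, ← mul_sum] at hsum
  have hC : 0 ≤ ∑ u, ∑ v, c u v * dSA μ u v :=
    sum_nonneg fun u _ => sum_nonneg fun v _ => mul_nonneg (hc u v) (hd0 u v)
  have hpos : 0 < T * (1 - 1 / (T : ℝ)) := by
    have : T * (1 - 1 / (T : ℝ)) = T - 1 := by field_simp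
    linarith
  have h1 := mul_le_mul_of_nonneg_left hR (by positivity : 0 ≤ 2 * (1 + 1 / (T : ℝ)) ^ 2)
  have h2 := mul_le_mul_of_nonneg_right (SWin_num hT2 hTε hε) hC
  refine le_of_mul_le_mul_left ?_ hpos
  linarith

end Pool.Agent.MP_d3be90_lc
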